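import Pool.Agent.Work.MP_2c2d16_pr.PolyApprox

/-!
MP_2c2d16_pr, item D9b (good_poly): the polynomial data of the message passing iteration.
From a polynomial whose square is close to 2 max(x,0) in L2 of the Gaussian, read off the
constants b0, b, A and the remainder u.
-/

set_option autoImplicit false

namespace Pool.Agent.Th2c

open Finset Polynomial MeasureTheory ProbabilityTheory
open scoped Finset

/-- the standard Gaussian measure -/
noncomputable abbrev gam : Measure ℝ := gaussianReal 0 1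

lemma integrable_pow_gam (m : ℕ) : Integrable (fun x : ℝ => x ^ m) gam := by
  have h := (memLp_id_gaussianReal (μ := 0) (v := 1) (m : NNReal)).integrable_norm_pow'
  refine (h).mono' (by fun_prop) ?_
  filter_upwards with x
  simp

lemma integrable_poly_gam (P : ℝ[X]) : Integrable (fun x : ℝ => P.eval x) gam := by
  have : (fun x : ℝ => P.eval x) = fun x => ∑ i ∈ Finset.range (P.natDegree + 1), P.coeff i * x ^ i := by
    funext x
    rw [Polynomial.eval_eq_sum_range]
  rw [this]
  exact integrable_finsetSum _ fun i _ => (integrable_pow_gam i).const_mul _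

lemma integrable_poly_max_gam (P : ℝ[X]) : Integrable (fun x : ℝ => P.eval x * max x 0) gam := by
  have h := (integrable_poly_gam (P * X)).norm
  refine h.mono' ?_ ?_
  · exact (P.continuous.mul (continuous_id.max continuous_const)).aestronglyMeasurable
  · filter_upwards with x
    rw [norm_mul, eval_mul, eval_X, norm_mul]
    gcongr
    rw [Real.norm_eq_abs, Real.norm_eq_abs]
    rcases le_total x 0 with h | h
    · rw [max_eq_right h]
      simp
    · rw [max_eq_left h]

lemma gm_add (P Q : ℝ[X]) : gm (P + Q) = gm P + gm Q := by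
  unfold gm
  simp only [eval_add]
  exact integral_add (integrable_poly_gam P) (integrable_poly_gam Q)

lemma gm_sub (P Q : ℝ[X]) : gm (P - Q) = gm P - gm Q := by
  unfold gm
  simp only [eval_sub]
  exact integral_sub (integrable_poly_gam P) (integrable_poly_gam Q)

lemma gm_C_mul (a : ℝ) (P : ℝ[X]) : gm (C a * P) = a * gm P := by
  unfold gm
  simp only [eval_mul, eval_C]
  exact integral_const_mul _ _

lemma gm_one : gm 1 = 1 := by
  unfold gm
  simp

lemma gm_C (a : ℝ) : gm (C a) = a := by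
  have := gm_C_mul a 1
  rwa [mul_one, gm_one, mul_one] at this

lemma gm_X : gm X = 0 := by
  unfold gm
  simp [integral_id_gaussianReal]

lemma gm_X_sq : gm (X ^ 2) = 1 := by
  unfold gm
  have h := variance_id_gaussianReal (μ := 0) (v := 1)
  rw [variance_eq_sub (memLp_id_gaussianReal' 2 (by norm_num))] at h
  simp only [eval_pow, eval_X]
  have h2 : ∫ x, x ∂gaussianReal 0 1 = 0 := integral_id_gaussianReal
  simp only [Pi.pow_apply, id, h2] at h
  simpa using h

lemma gm_nonneg_of {P : ℝ[X]} (h : ∀ x, 0 ≤ P.eval x) : 0 ≤ gm P := integral_nonneg h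

lemma int_max : ∫ x, max x 0 ∂gam = (Real.sqrt (2 * Real.pi))⁻¹ := by
  rw [integral_gaussianReal_eq_integral_smul (by norm_num)]
  have h1 : ∀ x : ℝ, gaussianPDFReal 0 1 x • max x 0 =
      (Set.Ioi (0 : ℝ)).indicator (fun x => (Real.sqrt (2 * Real.pi))⁻¹ * (x * Real.exp (- (1 / 2) * x ^ 2))) x := by
    intro x
    by_cases hx : 0 < x
    · rw [Set.indicator_of_mem (Set.mem_Ioi.2 hx), max_eq_left hx.le]
      unfold gaussianPDFReal
      simp only [smul_eq_mul, sub_zero, NNReal.coe_one, mul_one]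
      ring_nf
    · rw [Set.indicator_of_notMem (by simpa using hx), max_eq_right (not_lt.1 hx), smul_zero]
  simp_rw [h1]
  rw [integral_indicator measurableSet_Ioi, integral_const_mul]
  have h2 := integral_mul_cexp_neg_mul_sq (b := (1 / 2 : ℂ)) (by norm_num)
  have h3 : ∫ r : ℝ in Set.Ioi 0, ((r * Real.exp (-(1 / 2) * r ^ 2) : ℝ) : ℂ) = 1 := by
    rw [← show (2 * (1 / 2 : ℂ))⁻¹ = 1 by norm_num, ← h2]
    apply integral_congr_ae
    filter_upwards with r
    push_cast
    rfl
  rw [integral_complex_ofReal] at h3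
  have h4 : ∫ r : ℝ in Set.Ioi 0, r * Real.exp (-(1 / 2) * r ^ 2) = 1 := by exact_mod_cast h3
  rw [h4, mul_one]

lemma int_mul_max : ∫ x, x * max x 0 ∂gam = 1 / 2 := by
  have hi : Integrable (fun x : ℝ => x * max x 0) gam := by
    simpa using integrable_poly_max_gam X
  have hneg : ∫ x, x * max x 0 ∂gam = ∫ x, (-x) * max (-x) 0 ∂gam := by
    have h := gaussianReal_map_neg (μ := 0) (v := 1)
    rw [neg_zero] at h
    conv_lhs => rw [gam, ← h]
    rw [integral_map (by fun_prop)]
    exact (continuous_id.mul (continuous_id.max continuous_const)).aestronglyMeasurable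
  have hi2 : Integrable (fun x : ℝ => (-x) * max (-x) 0) gam := by
    have h5 : (fun x : ℝ => (-x) * max (-x) 0) = fun x => x ^ 2 - x * max x 0 := by
      funext x
      rcases le_total x 0 with h | h
      · rw [max_eq_right h, max_eq_left (by linarith)]; ring
      · rw [max_eq_left h, max_eq_right (by linarith)]; ring
    rw [h5]
    exact (integrable_pow_gam 2).sub hi
  have hsum : ∫ x, x * max x 0 ∂gam + ∫ x, (-x) * max (-x) 0 ∂gam = 1 := by
    rw [← integral_add hi hi2, ← gm_X_sq]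
    unfold gm
    apply integral_congr_ae
    filter_upwards with x
    simp only [eval_pow, eval_X]
    rcases le_total x 0 with h | h
    · rw [max_eq_right h, max_eq_left (by linarith)]; ring
    · rw [max_eq_left h, max_eq_right (by linarith)]; ring
  rw [← hneg] at hsum
  linarith


/-- the polynomial data obtained from a good square approximation -/
theorem good_poly_aux (hpa : ∀ ε : ℝ, 0 < ε → ∃ k : ℝ[X],
      ∫ x, (k.eval x ^ 2 - 2 * max x 0) ^ 2 ∂(gaussianReal 0 1) < ε)
    (ε : ℝ) (hε : 0 < ε) : ∃ (k u : ℝ[X]) (b₀ b A : ℝ),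
    k ^ 2 = C b₀ + C b * X + u ∧ gm u = 0 ∧ gm (X * u) = 0 ∧ 0 < b ∧ 0 < A ∧ 0 < b₀ ∧
    A ^ 2 + gm (u ^ 2) = b ^ 2 ∧ (1 - ε) * b₀ ≤ A ∧ b ≤ 2 ∧ 1 / 2 ≤ b₀ ∧ A ≤ 2 ∧
    gm ((k ^ 2) ^ 2) ≤ 3 := by
  set η : ℝ := min (ε / 40) (1 / 100) with hη
  have hη0 : 0 < η := by positivity
  have hη1 : η ≤ ε / 40 := min_le_left _ _
  have hη2 : η ≤ 1 / 100 := min_le_right _ _
  obtain ⟨k, hk⟩ := hpa (η ^ 2) (by positivity)
  set g : ℝ[X] := k ^ 2 with hg
  set b₀ : ℝ := gm g with hb₀
  set b : ℝ := gm (X * g) with hb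
  set G : ℝ := gm (g ^ 2) with hG
  -- integrals
  have hgi := integrable_poly_gam g
  have hxgi := integrable_poly_gam (X * g)
  have hggi := integrable_poly_gam (g ^ 2)
  have hmi : Integrable (fun x : ℝ => max x 0) gam := by simpa using integrable_poly_max_gam 1
  have hxmi : Integrable (fun x : ℝ => x * max x 0) gam := by simpa using integrable_poly_max_gam X
  have hgmi := integrable_poly_max_gam g
  have hmm : ∀ x : ℝ, (max x 0) ^ 2 = x * max x 0 := by
    intro x
    rcases le_total x 0 with h | h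
    · rw [max_eq_right h]; ring
    · rw [max_eq_left h]; ring
  set s : ℝ := 2 * (Real.sqrt (2 * Real.pi))⁻¹ with hs
  set m : ℝ := ∫ x, g.eval x * max x 0 ∂gam with hm
  -- quadratic form : for all real a c e, the integral of (a + c x + e h - g)^2 minus ... is nonneg
  have hquad : ∀ a c e f : ℝ, ∫ x, (a + c * x + e * (2 * max x 0) + f * g.eval x) ^ 2 ∂gam =
      a ^ 2 + c ^ 2 + 2 * e ^ 2 + f ^ 2 * G + 2 * (a * e * s) + 2 * (a * f * b₀) + 2 * (c * e)
        + 2 * (c * f * b) + 4 * (e * f * m) := by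
    intro a c e f
    have h1 : ∀ x : ℝ, (a + c * x + e * (2 * max x 0) + f * g.eval x) ^ 2 =
        a ^ 2 + (c ^ 2 * x ^ 2 + (4 * e ^ 2 * (x * max x 0) + (f ^ 2 * (g ^ 2).eval x +
        (2 * a * c * x + (4 * a * e * max x 0 + (2 * a * f * g.eval x + (4 * c * e * (x * max x 0)
          + (2 * c * f * (X * g).eval x + 4 * e * f * (g.eval x * max x 0))))))))) := by
      intro x
      rw [eval_mul, eval_X, show (g ^ 2).eval x = (g.eval x) ^ 2 from eval_pow _]
      have := hmm x
      linear_combination (4 * e ^ 2) * this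
    have hx2 : Integrable (fun x : ℝ => x ^ 2) gam := integrable_pow_gam 2
    have hx1 : Integrable (fun x : ℝ => x) gam := by simpa using integrable_pow_gam 1
    simp_rw [h1]
    have i10 : Integrable (fun x : ℝ => 4 * e * f * (g.eval x * max x 0)) gam := hgmi.const_mul _
    have i9 : Integrable (fun x : ℝ => 2 * c * f * (X * g).eval x) gam := hxgi.const_mul _
    have i8 : Integrable (fun x : ℝ => 4 * c * e * (x * max x 0)) gam := hxmi.const_mul _
    have i7 : Integrable (fun x : ℝ => 2 * a * f * g.eval x) gam := hgi.const_mul _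
    have i6 : Integrable (fun x : ℝ => 4 * a * e * max x 0) gam := hmi.const_mul _
    have i5 : Integrable (fun x : ℝ => 2 * a * c * x) gam := hx1.const_mul _
    have i4 : Integrable (fun x : ℝ => f ^ 2 * (g ^ 2).eval x) gam := hggi.const_mul _
    have i3 : Integrable (fun x : ℝ => 4 * e ^ 2 * (x * max x 0)) gam := hxmi.const_mul _
    have i2 : Integrable (fun x : ℝ => c ^ 2 * x ^ 2) gam := hx2.const_mul _
    have i1 : Integrable (fun x : ℝ => a ^ 2) gam := integrable_const _
    have j9 : Integrable (fun x : ℝ => 2 * c * f * (X * g).eval x + 4 * e * f * (g.eval x * max x 0)) gam := i9.add i10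
    have j8 : Integrable (fun x : ℝ => 4 * c * e * (x * max x 0) + (2 * c * f * (X * g).eval x + 4 * e * f * (g.eval x * max x 0))) gam := i8.add j9
    have j7 : Integrable (fun x : ℝ => 2 * a * f * g.eval x + (4 * c * e * (x * max x 0) + (2 * c * f * (X * g).eval x + 4 * e * f * (g.eval x * max x 0)))) gam := i7.add j8
    have j6 : Integrable (fun x : ℝ => 4 * a * e * max x 0 + (2 * a * f * g.eval x + (4 * c * e * (x * max x 0) + (2 * c * f * (X * g).eval x + 4 * e * f * (g.eval x * max x 0))))) gam := i6.add j7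
    have j5 : Integrable (fun x : ℝ => 2 * a * c * x + (4 * a * e * max x 0 + (2 * a * f * g.eval x + (4 * c * e * (x * max x 0) + (2 * c * f * (X * g).eval x + 4 * e * f * (g.eval x * max x 0)))))) gam := i5.add j6
    have j4 : Integrable (fun x : ℝ => f ^ 2 * (g ^ 2).eval x + (2 * a * c * x + (4 * a * e * max x 0 + (2 * a * f * g.eval x + (4 * c * e * (x * max x 0) + (2 * c * f * (X * g).eval x + 4 * e * f * (g.eval x * max x 0))))))) gam := i4.add j5
    have j3 : Integrable (fun x : ℝ => 4 * e ^ 2 * (x * max x 0) + (f ^ 2 * (g ^ 2).eval x + (2 * a * c * x + (4 * a * e * max x 0 + (2 * a * f * g.eval x + (4 * c * e * (x * max x 0) + (2 * c * f * (X * g).eval x + 4 * e * f * (g.eval x * max x 0)))))))) gam := i3.add j4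
    have j2 : Integrable (fun x : ℝ => c ^ 2 * x ^ 2 + (4 * e ^ 2 * (x * max x 0) + (f ^ 2 * (g ^ 2).eval x + (2 * a * c * x + (4 * a * e * max x 0 + (2 * a * f * g.eval x + (4 * c * e * (x * max x 0) + (2 * c * f * (X * g).eval x + 4 * e * f * (g.eval x * max x 0))))))))) gam := i2.add j3
    rw [integral_add i1 j2, integral_add i2 j3, integral_add i3 j4, integral_add i4 j5,
      integral_add i5 j6, integral_add i6 j7, integral_add i7 j8, integral_add i8 j9,
      integral_add i9 i10]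
    simp only [integral_const_mul, integral_const, probReal_univ, smul_eq_mul, one_mul]
    have e1 : ∫ x, x ^ 2 ∂gam = 1 := by
      have := gm_X_sq
      unfold gm at this
      simpa using this
    have e2 : ∫ x, 2 * a * c * x ∂gam = 0 := by
      rw [integral_const_mul (2 * a * c) (fun x : ℝ => x)]
      have : ∫ x, x ∂gam = 0 := integral_id_gaussianReal
      rw [this, mul_zero]
    have e3 : ∫ x, (g ^ 2).eval x ∂gam = G := rfl
    have e4 : ∫ x, g.eval x ∂gam = b₀ := rfl
    have e5 : ∫ x, (X * g).eval x ∂gam = b := rfl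
    rw [e1, e2, e3, e4, e5, int_max, int_mul_max, ← hm]
    ring
  have hnn : ∀ a c e f : ℝ, 0 ≤ a ^ 2 + c ^ 2 + 2 * e ^ 2 + f ^ 2 * G + 2 * (a * e * s) +
      2 * (a * f * b₀) + 2 * (c * e) + 2 * (c * f * b) + 4 * (e * f * m) := by
    intro a c e f
    rw [← hquad]
    exact integral_nonneg fun x => sq_nonneg _
  have hdist : 2 + G - 4 * m < η ^ 2 := by
    have h1 := hquad 0 0 (-1) 1
    have h2 : ∫ x, (0 + 0 * x + -1 * (2 * max x 0) + 1 * g.eval x) ^ 2 ∂gam =
        ∫ x, (k.eval x ^ 2 - 2 * max x 0) ^ 2 ∂(gaussianReal 0 1) := by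
      apply integral_congr_ae
      filter_upwards with x
      rw [hg, eval_pow]
      ring
    rw [h2] at h1
    rw [h1] at hk
    linarith
  have hb0s : (b₀ - s) ^ 2 < η ^ 2 := by
    have := hnn (-(b₀ - s)) 0 (-1) 1
    nlinarith
  have hb1 : (b - 1) ^ 2 < η ^ 2 := by
    have := hnn 0 (-(b - 1)) (-1) 1
    nlinarith
  have hb0s' := abs_lt_of_sq_lt_sq hb0s hη0.le
  have hb1' := abs_lt_of_sq_lt_sq hb1 hη0.le
  rw [abs_lt] at hb0s' hb1'
  obtain ⟨hb0l, hb0u⟩ := hb0s'
  obtain ⟨hb1l, hb1u⟩ := hb1'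
  have hGu : G ≤ (1 + η) * (2 + η) := by
    have h1 := hnn 0 0 (-(1 + η)) 1
    have h2 : η * G ≤ η * ((1 + η) * (2 + η)) := by
      nlinarith
    exact le_of_mul_le_mul_left h2 hη0
  have hGb : b₀ ^ 2 ≤ G := by
    have := hnn (-b₀) 0 0 1
    nlinarith
  -- s
  have hs0 : 0 < s := by positivity
  have hs2 : s ^ 2 = 2 / Real.pi := by
    rw [hs, mul_pow, inv_pow, Real.sq_sqrt (by positivity)]
    field_simp
  have hs3 : (1 : ℝ) / 2 ≤ s ^ 2 := by
    rw [hs2, div_le_div_iff₀ (by norm_num) Real.pi_pos]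
    linarith [Real.pi_le_four]
  have hs4 : (7 : ℝ) / 10 ≤ s := by
    nlinarith
  have hs5 : s ^ 2 ≤ 1 := by
    rw [hs2, div_le_one Real.pi_pos]
    linarith [Real.two_le_pi]
  have hs6 : s ≤ 1 := by nlinarith
  have hb0h : (69 : ℝ) / 100 ≤ b₀ := by linarith
  have hA2 : b₀ ^ 2 - 8 * η ≤ 2 * b ^ 2 + b₀ ^ 2 - G := by
    nlinarith
  have hA20 : 0 < 2 * b ^ 2 + b₀ ^ 2 - G := by
    nlinarith
  set A : ℝ := Real.sqrt (2 * b ^ 2 + b₀ ^ 2 - G) with hA
  have hApos : 0 < A := Real.sqrt_pos.2 hA20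
  have hAsq : A ^ 2 = 2 * b ^ 2 + b₀ ^ 2 - G := Real.sq_sqrt hA20.le
  refine ⟨k, g - C b₀ - C b * X, b₀, b, A, ?_, ?_, ?_, by linarith, hApos, by linarith, ?_, ?_,
    by linarith, by linarith, ?_, ?_⟩
  · ring
  · rw [gm_sub, gm_sub, gm_C, gm_C_mul, gm_X]
    ring
  · have h1 : X * (g - C b₀ - C b * X) = X * g - C b₀ * X - C b * X ^ 2 := by ring
    rw [h1, gm_sub, gm_sub, gm_C_mul, gm_C_mul, gm_X, gm_X_sq]
    ring
  · have h1 : (g - C b₀ - C b * X) ^ 2 = g ^ 2 + C (b₀ ^ 2) + C (b ^ 2) * X ^ 2 -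
        C (2 * b₀) * g - C (2 * b) * (X * g) + C (2 * b₀ * b) * X := by
      simp only [C_mul, C_pow, C_ofNat]
      ring
    rw [h1, gm_add, gm_sub, gm_sub, gm_add, gm_add, gm_C, gm_C_mul, gm_C_mul, gm_C_mul, gm_C_mul,
      gm_X, gm_X_sq, hAsq]
    ring
  · by_cases h1 : 1 ≤ ε
    · have : (1 - ε) * b₀ ≤ 0 := mul_nonpos_of_nonpos_of_nonneg (by linarith) (by linarith)
      linarith
    · push Not at h1
      rw [hA]
      apply Real.le_sqrt_of_sq_le
      have h2 : ε * (1 / 4) ≤ ε * b₀ ^ 2 := by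
        apply mul_le_mul_of_nonneg_left _ hε.le
        nlinarith
      have h3 : (1 - ε) ^ 2 ≤ 1 - ε := by nlinarith
      have h4 : ((1 - ε) * b₀) ^ 2 ≤ (1 - ε) * b₀ ^ 2 := by
        rw [mul_pow]
        exact mul_le_mul_of_nonneg_right h3 (sq_nonneg _)
      linarith
  · have hb22 : b ^ 2 ≤ 2 := by nlinarith
    have h8 : A ^ 2 ≤ 2 ^ 2 := by
      rw [hAsq]
      linarith
    exact (sq_le_sq₀ hApos.le (by norm_num)).1 h8
  · have h9 : (1 + η) * (2 + η) ≤ 3 := by nlinarith
    exact le_trans hGu h9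

theorem good_poly (ε : ℝ) (hε : 0 < ε) : ∃ (k u : ℝ[X]) (b₀ b A : ℝ),
    k ^ 2 = C b₀ + C b * X + u ∧ gm u = 0 ∧ gm (X * u) = 0 ∧ 0 < b ∧ 0 < A ∧ 0 < b₀ ∧
    A ^ 2 + gm (u ^ 2) = b ^ 2 ∧ (1 - ε) * b₀ ≤ A ∧ b ≤ 2 ∧ 1 / 2 ≤ b₀ ∧ A ≤ 2 ∧
    gm ((k ^ 2) ^ 2) ≤ 3 :=
  good_poly_aux poly_approx ε hε

end Pool.Agent.Th2c
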