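import Pool.Agent.Work.MP_2c2d16_pr.Four
import Pool.Agent.Work.MP_2c2d16_pr.GoodPoly

/-!
MP_2c2d16_pr, item D8b (amp): from state evolution and the polynomial data, the averaged iterates
give a nearly optimal positive definite function which is small off the random set.
-/

set_option autoImplicit false

namespace Pool.Agent.Th2c

open Finset Polynomial
open scoped Finset

/-! ### events that hold with high probability -/

/-- the events Q hold with probability tending to one -/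
def Ev (Q : ℕ → Finset ℕ → Prop) : Prop :=
  ∀ ρ : ℝ, 0 < ρ → ∃ N₀ : ℕ, ∀ N : ℕ, N₀ ≤ N →
    EB (cl (N + 1)) (1 / 2) (fun S => bad (Q N S)) ≤ ρ

lemma Ev.and {P Q : ℕ → Finset ℕ → Prop} (hP : Ev P) (hQ : Ev Q) :
    Ev (fun N S => P N S ∧ Q N S) := by
  intro ρ hρ
  obtain ⟨N₁, h₁⟩ := hP (ρ / 2) (by linarith)
  obtain ⟨N₂, h₂⟩ := hQ (ρ / 2) (by linarith)
  refine ⟨max N₁ N₂, fun N hN => ?_⟩
  have a1 := h₁ N ((le_max_left _ _).trans hN)
  have a2 := h₂ N ((le_max_right _ _).trans hN)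
  have a3 := EB_bad_and (I := cl (N + 1)) (p := 1 / 2) (by norm_num) (by norm_num) (P N) (Q N)
  linarith

lemma Ev.mono {P Q : ℕ → Finset ℕ → Prop} (hP : Ev P) (N₁ : ℕ)
    (h : ∀ N, N₁ ≤ N → ∀ S, P N S → Q N S) : Ev Q := by
  intro ρ hρ
  obtain ⟨N₂, h₂⟩ := hP ρ hρ
  refine ⟨max N₁ N₂, fun N hN => ?_⟩
  have a2 := h₂ N ((le_max_right _ _).trans hN)
  refine le_trans ?_ a2
  exact EB_bad_mono (by norm_num) (by norm_num) fun S _ =>
    h N ((le_max_left _ _).trans hN) S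

lemma Ev.all (Q : ℕ → ℕ → Finset ℕ → Prop) (h : ∀ t, Ev (Q t)) (M : ℕ) :
    Ev (fun N S => ∀ t < M, Q t N S) := by
  induction M with
  | zero =>
    intro ρ hρ
    refine ⟨0, fun N _ => ?_⟩
    have : (fun S : Finset ℕ => bad (∀ t < 0, Q t N S)) = fun _ => 0 := by
      funext S
      exact bad_of (by intro t ht; omega)
    rw [this, EB_const]
    exact hρ.le
  | succ M ih =>
    refine (ih.and (h M)).mono 0 fun N _ S hS t ht => ?_
    rcases Nat.lt_succ_iff_lt_or_eq.1 ht with h1 | h1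
    · exact hS.1 t h1
    · rw [h1]; exact hS.2

/-- Chebyshev -/
lemma Ev.of_second_moment (Z : ℕ → Finset ℕ → ℝ) (m C τ : ℝ) (hτ : 0 < τ)
    (h : ∀ N : ℕ, Ex (cl (N + 1)) (fun S => (Z N S - m) ^ 2) ≤ C / (N + 1 : ℕ)) :
    Ev (fun N S => |Z N S - m| ≤ τ) := by
  intro ρ hρ
  obtain ⟨N₀, hN₀⟩ := exists_nat_ge (C / (τ ^ 2 * ρ))
  refine ⟨N₀, fun N hN => ?_⟩
  have hn : (0 : ℝ) < (N + 1 : ℕ) := by positivity
  have h1 : EB (cl (N + 1)) (1 / 2) (fun S => bad ((Z N S - m) ^ 2 ≤ τ ^ 2)) ≤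
      EB (cl (N + 1)) (1 / 2) (fun S => (Z N S - m) ^ 2) / τ ^ 2 :=
    EB_markov (by norm_num) (by norm_num) (fun S _ => sq_nonneg _) (by positivity)
  rw [EB_half_eq_Ex _ (fun S => (Z N S - m) ^ 2)] at h1
  have h2 : EB (cl (N + 1)) (1 / 2) (fun S => bad (|Z N S - m| ≤ τ)) ≤
      EB (cl (N + 1)) (1 / 2) (fun S => bad ((Z N S - m) ^ 2 ≤ τ ^ 2)) :=
    EB_bad_mono (by norm_num) (by norm_num) fun S _ hS => abs_le_of_sq_le_sq hS hτ.le
  refine h2.trans (h1.trans ?_)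
  rw [div_le_iff₀ (by positivity)]
  refine (h N).trans ?_
  rw [div_le_iff₀ hn]
  have h3 : C / (τ ^ 2 * ρ) ≤ (N + 1 : ℕ) := by
    refine hN₀.trans ?_
    exact_mod_cast hN.trans (Nat.le_succ N)
  rw [div_le_iff₀ (by positivity)] at h3
  linarith

/-! ### the deterministic part -/

section det

variable {n : ℕ} [NeZero n]

lemma wit_even (A b : ℝ) (u : ℝ[X]) (S : Finset ℕ) (t : ℕ) (ξ : ZMod n) :
    wit A b u n S t (-ξ) = wit A b u n S t ξ := by
  cases t with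
  | zero => exact ct_even _ _
  | succ t => exact ct_even _ _

lemma ict_add (f g : ZMod n → ℝ) (x : ZMod n) :
    ict (fun ξ => f ξ + g ξ) x = ict f x + ict g x := by
  simp only [ict_eq_ct]
  rw [ct_add, add_div]

lemma ict_mul_left (c : ℝ) (f : ZMod n → ℝ) (x : ZMod n) :
    ict (fun ξ => c * f ξ) x = c * ict f x := by
  simp only [ict_eq_ct]
  rw [ct_mul_left, mul_div_assoc]

lemma ict_sum {ι : Type*} (s : Finset ι) (f : ι → ZMod n → ℝ) (x : ZMod n) :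
    ict (fun ξ => ∑ i ∈ s, f i ξ) x = ∑ i ∈ s, ict (f i) x := by
  simp only [ict_eq_ct]
  rw [ct_sum, Finset.sum_div]

lemma ict_const (c : ℝ) {x : ZMod n} (hx : x ≠ 0) : ict (fun _ => c) x = 0 := by
  unfold ict
  rw [← Finset.mul_sum, sum_cs, if_neg hx]
  simp

lemma ict_opR (S : Finset ℕ) (f : ZMod n → ℝ) {x : ZMod n} (hx : x ≠ 0) (hS : cls x ∉ S) :
    ict (opR S f) x = - ict f x := by
  unfold opR
  rw [ict_ct]
  · rw [if_neg hx, sg, if_neg hS]
    ring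
  · intro y
    simp only [neg_eq_zero, cls_neg, ict_even]

/-- the nonnegative functions that are averaged -/
noncomputable def gt (A b : ℝ) (u k : ℝ[X]) (n : ℕ) [NeZero n] (S : Finset ℕ) (t : ℕ)
    (ξ : ZMod n) : ℝ :=
  k.eval (wit A b u n S t ξ) ^ 2 + A * Real.sqrt n * dl ξ

lemma ict_gt (A b b₀ : ℝ) (u k : ℝ[X]) (hk : k ^ 2 = C b₀ + C b * X + u) (hb : 0 < b)
    (S : Finset ℕ) (t : ℕ) {x : ZMod n} (hx : x ≠ 0) (hS : cls x ∉ S) :
    ict (gt A b u k n S t) x =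
      b * (ict (wit A b u n S t) x - ict (wit A b u n S (t + 1)) x) := by
  have h1 : ict (wit A b u n S (t + 1)) x = - (b⁻¹ * ict (fun ξ => A * Real.sqrt n * dl ξ +
      u.eval (wit A b u n S t ξ)) x) := by
    rw [← ict_mul_left, show wit A b u n S (t + 1) = opR S (fun ξ => (A * Real.sqrt n * dl ξ +
      u.eval (wit A b u n S t ξ)) / b) from rfl, ict_opR S _ hx hS]
    congr 2
    funext ξ
    rw [div_eq_inv_mul]
  have h2 : gt A b u k n S t = fun ξ => b₀ + (b * wit A b u n S t ξ + (A * Real.sqrt n * dl ξ +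
      u.eval (wit A b u n S t ξ))) := by
    funext ξ
    have h3 : k.eval (wit A b u n S t ξ) ^ 2 = (k ^ 2).eval (wit A b u n S t ξ) := by
      rw [eval_pow]
    rw [gt, h3, hk]
    simp only [eval_add, eval_mul, eval_C, eval_X]
    ring
  rw [h2, ict_add, ict_const _ hx, zero_add, ict_add, ict_mul_left, h1]
  field_simp
  ring

lemma sum_dl : ∑ ξ : ZMod n, dl ξ = 1 := by
  unfold dl
  simp

lemma sum_dl_sq : ∑ ξ : ZMod n, dl ξ ^ 2 = 1 := by
  unfold dl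
  simp

lemma amp_det (A b b₀ δ : ℝ) (u k : ℝ[X]) (hk : k ^ 2 = C b₀ + C b * X + u) (hb : 0 < b)
    (hA : 0 < A) (hb0 : 1 / 2 ≤ b₀) (hδ : 0 < δ) (hAb : (1 - δ / 2) * b₀ ≤ A) (hA2 : A ≤ 2)
    (hb2 : b ≤ 2) (M : ℕ) (hM : 0 < M) (hMδ : 128 / (M : ℝ) ^ 2 ≤ δ) (S : Finset ℕ)
    (hn : A / Real.sqrt n ≤ b₀ * δ / 4)
    (h1 : ∀ t < M + 1, (∑ ξ, (k ^ 2).eval (wit A b u n S t ξ)) / n ≤ b₀ + b₀ * δ / 4)
    (h2 : ∀ t < M + 1, (∑ ξ, ((k ^ 2) ^ 2).eval (wit A b u n S t ξ)) / n ≤ 4)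
    (h3 : ∀ t < M + 1, (∑ ξ, (X ^ 2 : ℝ[X]).eval (wit A b u n S t ξ)) / n ≤ 2) :
    ∃ f : ZMod n → ℝ, (∀ x, f (-x) = f x) ∧ (∀ ξ, 0 ≤ ct f ξ) ∧ f 0 ≤ 1 ∧
      (1 - δ) * Real.sqrt n ≤ ct f 0 ∧
      ∑ x ∈ univ.erase (0 : ZMod n), f x ^ 2 ≤ 64 ∧
      ∑ x ∈ univ.erase (0 : ZMod n), (if cls x ∈ S then 0 else f x ^ 2) ≤ δ := by
  set L : ℝ := b₀ * (1 + δ / 2) with hL
  have hL0 : 1 / 2 ≤ L := by rw [hL]; nlinarith
  have hLp : 0 < L := by linarith
  have hMp : (0 : ℝ) < M := by exact_mod_cast hM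
  have hnp : (0 : ℝ) < n := n_pos
  set sn : ℝ := Real.sqrt n with hsn
  have hsnp : 0 < sn := Real.sqrt_pos.2 hnp
  have hsn2 : sn ^ 2 = n := Real.sq_sqrt hnp.le
  set c : ℝ := (M * L)⁻¹ with hc
  have hcp : 0 < c := by positivity
  set w : ℕ → ZMod n → ℝ := fun t => wit A b u n S t with hw
  set g : ℕ → ZMod n → ℝ := fun t => gt A b u k n S t with hg
  have hwe : ∀ t ξ, w t (-ξ) = w t ξ := fun t ξ => wit_even A b u S t ξ
  have hge : ∀ t ξ, g t (-ξ) = g t ξ := by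
    intro t ξ
    simp only [hg, gt, dl_neg, wit_even]
  have hg0 : ∀ t ξ, 0 ≤ g t ξ := by
    intro t ξ
    simp only [hg, gt]
    have : (0 : ℝ) ≤ dl ξ := by unfold dl; split_ifs <;> norm_num
    positivity
  set G : ZMod n → ℝ := fun ξ => c * ∑ t ∈ range M, g t ξ with hG
  have hGe : ∀ ξ, G (-ξ) = G ξ := by
    intro ξ
    simp only [hG, hge]
  have hG0 : ∀ ξ, 0 ≤ G ξ := fun ξ => mul_nonneg hcp.le (Finset.sum_nonneg fun t _ => hg0 t ξ)
  have hct : ∀ ξ, ct (ict G) ξ = G ξ := fun ξ => ct_ict G hGe ξ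
  have hict : ∀ x, ict G x = c * ∑ t ∈ range M, ict (g t) x := by
    intro x
    rw [hG, ict_mul_left, ict_sum]
  refine ⟨ict G, ict_even G, fun ξ => by rw [hct]; exact hG0 ξ, ?_, ?_, ?_, ?_⟩
  · -- value at zero
    rw [hict]
    have h4 : ∀ t ∈ range M, ict (g t) 0 ≤ L := by
      intro t ht
      rw [ict_zero_right]
      have h5 : ∑ ξ, g t ξ = ∑ ξ, (k ^ 2).eval (w t ξ) + A * sn := by
        simp only [hg, gt, eval_pow]
        rw [Finset.sum_add_distrib, ← Finset.mul_sum, sum_dl, mul_one]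
      rw [h5, add_div]
      have h6 := h1 t (by have := Finset.mem_range.1 ht; omega)
      have h7 : A * sn / n = A / sn := by
        rw [← hsn2]
        field_simp
      rw [h7, hL]
      have h8 : (∑ ξ, (k ^ 2).eval (w t ξ)) / n ≤ b₀ + b₀ * δ / 4 := h6
      linarith
    calc c * ∑ t ∈ range M, ict (g t) 0 ≤ c * ∑ t ∈ range M, L :=
          mul_le_mul_of_nonneg_left (Finset.sum_le_sum h4) hcp.le
      _ = 1 := by
          rw [Finset.sum_const, Finset.card_range, nsmul_eq_mul, hc]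
          field_simp
  · -- value of the transform at zero
    rw [hct]
    have h4 : ∀ t ∈ range M, A * sn ≤ g t 0 := by
      intro t _
      simp only [hg, gt, dl, if_true, mul_one]
      have := sq_nonneg (k.eval (wit A b u n S t 0))
      linarith
    have h5 : c * ∑ t ∈ range M, A * sn ≤ G 0 :=
      mul_le_mul_of_nonneg_left (Finset.sum_le_sum h4) hcp.le
    refine le_trans ?_ h5
    rw [Finset.sum_const, Finset.card_range, nsmul_eq_mul, hc]
    have h6 : (M * L)⁻¹ * (M * (A * sn)) = A / L * sn := by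
      field_simp
    rw [h6]
    apply mul_le_mul_of_nonneg_right _ hsnp.le
    rw [le_div_iff₀ hLp, hL]
    have h7 : (1 - δ) * (b₀ * (1 + δ / 2)) = (1 - δ / 2) * b₀ - b₀ * (δ ^ 2 / 2) := by ring
    have hb0p : 0 < b₀ := by linarith
    have h8 : 0 ≤ b₀ * (δ ^ 2 / 2) := by positivity
    linarith
  · -- energy
    have h4 : ∑ x ∈ univ.erase (0 : ZMod n), ict G x ^ 2 ≤ ∑ x, ict G x ^ 2 :=
      Finset.sum_le_sum_of_subset_of_nonneg (Finset.erase_subset _ _) fun _ _ _ => sq_nonneg _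
    refine h4.trans ?_
    rw [ict_parseval G hGe, div_le_iff₀ hnp]
    have h5 : ∀ ξ, G ξ ^ 2 ≤ c ^ 2 * M * ∑ t ∈ range M, g t ξ ^ 2 := by
      intro ξ
      have := Finset.sum_mul_sq_le_sq_mul_sq (range M) (fun _ => (1 : ℝ)) (fun t => g t ξ)
      simp only [one_mul, one_pow, Finset.sum_const, Finset.card_range, nsmul_eq_mul,
        mul_one] at this
      rw [hG, mul_pow, mul_assoc]
      exact mul_le_mul_of_nonneg_left this (sq_nonneg _)
    have h6 : ∀ t ∈ range M, ∑ ξ, g t ξ ^ 2 ≤ 16 * n := by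
      intro t ht
      have h7 : ∀ ξ, g t ξ ^ 2 ≤ 2 * ((k ^ 2) ^ 2).eval (w t ξ) + 2 * (A ^ 2 * n * dl ξ ^ 2) := by
        intro ξ
        simp only [hg, gt, eval_pow]
        have : (k.eval (wit A b u n S t ξ) ^ 2 + A * sn * dl ξ) ^ 2 ≤
            2 * (k.eval (wit A b u n S t ξ) ^ 2) ^ 2 + 2 * (A * sn * dl ξ) ^ 2 := by
          nlinarith [sq_nonneg (k.eval (wit A b u n S t ξ) ^ 2 - A * sn * dl ξ)]
        rw [mul_pow, mul_pow, hsn2] at this
        exact this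
      have h8 := h2 t (by have := Finset.mem_range.1 ht; omega)
      rw [div_le_iff₀ hnp] at h8
      calc ∑ ξ, g t ξ ^ 2 ≤ ∑ ξ, (2 * ((k ^ 2) ^ 2).eval (w t ξ) + 2 * (A ^ 2 * n * dl ξ ^ 2)) :=
            Finset.sum_le_sum fun ξ _ => h7 ξ
        _ = 2 * (∑ ξ, ((k ^ 2) ^ 2).eval (w t ξ)) + 2 * (A ^ 2 * n) := by
            rw [Finset.sum_add_distrib, ← Finset.mul_sum, ← Finset.mul_sum, ← Finset.mul_sum,
              sum_dl_sq, mul_one]
        _ ≤ 16 * n := by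
            have h9 : (∑ ξ, ((k ^ 2) ^ 2).eval (w t ξ)) ≤ 4 * n := h8
            have h10 : A ^ 2 ≤ 4 := by nlinarith
            have h11 : A ^ 2 * n ≤ 4 * n := mul_le_mul_of_nonneg_right h10 hnp.le
            linarith
    calc ∑ ξ, G ξ ^ 2 ≤ ∑ ξ, c ^ 2 * M * ∑ t ∈ range M, g t ξ ^ 2 :=
          Finset.sum_le_sum fun ξ _ => h5 ξ
      _ = c ^ 2 * M * ∑ t ∈ range M, ∑ ξ, g t ξ ^ 2 := by
          rw [← Finset.mul_sum, Finset.sum_comm]
      _ ≤ c ^ 2 * M * ∑ t ∈ range M, 16 * (n : ℝ) :=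
          mul_le_mul_of_nonneg_left (Finset.sum_le_sum h6) (by positivity)
      _ = 16 * n / L ^ 2 := by
          rw [Finset.sum_const, Finset.card_range, nsmul_eq_mul, hc]
          field_simp
      _ ≤ 64 * n := by
          rw [div_le_iff₀ (by positivity)]
          have : 1 / 4 ≤ L ^ 2 := by nlinarith
          nlinarith
  · -- energy off S
    have h4 : ∀ x ∈ univ.erase (0 : ZMod n), (if cls x ∈ S then 0 else ict G x ^ 2) ≤
        (c * b) ^ 2 * (2 * (ict (w 0) x ^ 2 + ict (w M) x ^ 2)) := by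
      intro x hx
      split_ifs with hxS
      · positivity
      · have hx0 : x ≠ 0 := Finset.ne_of_mem_erase hx
        have h5 : ict G x = c * b * (ict (w 0) x - ict (w M) x) := by
          rw [hict, Finset.sum_congr rfl fun t _ => ict_gt A b b₀ u k hk hb S t hx0 hxS,
            ← Finset.mul_sum, Finset.sum_range_sub']
          ring
        rw [h5, mul_pow]
        apply mul_le_mul_of_nonneg_left _ (sq_nonneg _)
        nlinarith [sq_nonneg (ict (w 0) x + ict (w M) x)]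
    have h5 : ∀ t < M + 1, ∑ x, ict (w t) x ^ 2 ≤ 2 := by
      intro t ht
      rw [ict_parseval _ (hwe t)]
      have := h3 t ht
      simpa [eval_pow, eval_X] using this
    calc ∑ x ∈ univ.erase (0 : ZMod n), (if cls x ∈ S then 0 else ict G x ^ 2)
        ≤ ∑ x ∈ univ.erase (0 : ZMod n), (c * b) ^ 2 * (2 * (ict (w 0) x ^ 2 + ict (w M) x ^ 2)) :=
          Finset.sum_le_sum h4
      _ ≤ ∑ x, (c * b) ^ 2 * (2 * (ict (w 0) x ^ 2 + ict (w M) x ^ 2)) :=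
          Finset.sum_le_sum_of_subset_of_nonneg (Finset.erase_subset _ _) fun _ _ _ => by positivity
      _ = (c * b) ^ 2 * (2 * (∑ x, ict (w 0) x ^ 2 + ∑ x, ict (w M) x ^ 2)) := by
          rw [← Finset.mul_sum, ← Finset.mul_sum, Finset.sum_add_distrib]
      _ ≤ (c * b) ^ 2 * (2 * (2 + 2)) := by
          apply mul_le_mul_of_nonneg_left _ (sq_nonneg _)
          have := h5 0 (by omega)
          have := h5 M (by omega)
          linarith
      _ ≤ 128 / (M : ℝ) ^ 2 := by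
          have h6 : c * b ≤ 4 / M := by
            rw [hc, mul_inv, mul_assoc, mul_comm, ← div_eq_mul_inv]
            apply div_le_div_of_nonneg_right _ hMp.le
            have h7 : L⁻¹ ≤ 2 := by
              rw [inv_le_comm₀ hLp (by norm_num)]
              linarith
            have h8 : 0 < L⁻¹ := by positivity
            nlinarith
          have h7 : 0 < c * b := by positivity
          have h8 : (c * b) ^ 2 ≤ (4 / M) ^ 2 := pow_le_pow_left₀ h7.le h6 2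
          have h9 : (4 / (M : ℝ)) ^ 2 * 8 = 128 / (M : ℝ) ^ 2 := by
            field_simp
            norm_num
          rw [← h9]
          nlinarith
      _ ≤ δ := hMδ

end det

/-- near optimal positive definite functions from state evolution -/
theorem amp_of
    (state_evolution : ∀ (A b : ℝ) (u : ℝ[X]), 0 < b → gm u = 0 → gm (X * u) = 0 →
      A ^ 2 + gm (u ^ 2) = b ^ 2 → ∀ (t : ℕ) (P : ℝ[X]), ∃ C : ℝ, ∀ N : ℕ,
      Ex (cl (N + 1)) (fun S => ((∑ ξ, P.eval (wit A b u (N + 1) S t ξ)) / (N + 1 : ℕ) - gm P) ^ 2)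
        ≤ C / (N + 1 : ℕ) ∧
      Ex (cl (N + 1)) (fun S => (P.eval (wit A b u (N + 1) S t 0)) ^ 2) ≤ C) :
    ∃ R : ℝ, ∀ δ : ℝ, 0 < δ → ∃ N₀ : ℕ, ∀ N : ℕ, N₀ ≤ N →
    EB (cl (N + 1)) (1 / 2) (fun T => bad (∃ f : ZMod (N + 1) → ℝ,
      (∀ x, f (-x) = f x) ∧ (∀ ξ, 0 ≤ ct f ξ) ∧ f 0 ≤ 1 ∧
      (1 - δ) * Real.sqrt (N + 1 : ℕ) ≤ ct f 0 ∧
      ∑ x ∈ univ.erase (0 : ZMod (N + 1)), f x ^ 2 ≤ R ∧
      ∑ x ∈ univ.erase (0 : ZMod (N + 1)), (if cls x ∈ T then 0 else f x ^ 2) ≤ δ)) ≤ δ := by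
  refine ⟨64, fun δ hδ => ?_⟩
  obtain ⟨k, u, b₀, b, A, hk, hu0, hu1, hb, hA, hb0, hAu, hAb, hb2, hb0', hA2, hk4⟩ :=
    good_poly (δ / 2) (by linarith)
  have hse := state_evolution A b u hb hu0 hu1 hAu
  have hgk : gm (k ^ 2) = b₀ := by
    rw [hk, gm_add, gm_add, gm_C, gm_C_mul, gm_X, hu0]
    ring
  have hP : ∀ (P : ℝ[X]) (τ : ℝ), 0 < τ → ∀ t, Ev (fun N S =>
      |(∑ ξ, P.eval (wit A b u (N + 1) S t ξ)) / (N + 1 : ℕ) - gm P| ≤ τ) := by
    intro P τ hτ t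
    obtain ⟨C, hC⟩ := hse t P
    exact Ev.of_second_moment (fun N S => (∑ ξ, P.eval (wit A b u (N + 1) S t ξ)) / (N + 1 : ℕ))
      (gm P) C τ hτ fun N => (hC N).1
  obtain ⟨M', hM'⟩ := exists_nat_ge (128 / δ)
  set M : ℕ := M' + 1 with hM
  have hMpos : 0 < M := Nat.succ_pos _
  have hMδ : 128 / (M : ℝ) ^ 2 ≤ δ := by
    have h1 : (1 : ℝ) ≤ M := by exact_mod_cast hMpos
    have h2 : 128 / δ ≤ M := by
      refine hM'.trans ?_
      rw [hM]
      push_cast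
      linarith
    rw [div_le_iff₀ hδ] at h2
    rw [div_le_iff₀ (by positivity)]
    nlinarith
  have hev := ((Ev.all _ (hP (k ^ 2) (b₀ * δ / 4) (by positivity)) (M + 1)).and
    (Ev.all _ (hP ((k ^ 2) ^ 2) 1 one_pos) (M + 1))).and
    (Ev.all _ (hP (X ^ 2) 1 one_pos) (M + 1))
  obtain ⟨N₁, hN₁⟩ := exists_nat_ge ((A / (b₀ * δ / 4)) ^ 2)
  refine (hev.mono N₁ (Q := fun N T => ∃ f : ZMod (N + 1) → ℝ,
      (∀ x, f (-x) = f x) ∧ (∀ ξ, 0 ≤ ct f ξ) ∧ f 0 ≤ 1 ∧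
      (1 - δ) * Real.sqrt (N + 1 : ℕ) ≤ ct f 0 ∧
      ∑ x ∈ univ.erase (0 : ZMod (N + 1)), f x ^ 2 ≤ 64 ∧
      ∑ x ∈ univ.erase (0 : ZMod (N + 1)), (if cls x ∈ T then 0 else f x ^ 2) ≤ δ) ?_) δ hδ
  rintro N hN S ⟨⟨h1, h2⟩, h3⟩
  have hsn : 0 < Real.sqrt ((N + 1 : ℕ) : ℝ) := Real.sqrt_pos.2 (by positivity)
  refine amp_det A b b₀ δ u k hk hb hA hb0' hδ hAb hA2 hb2 M hMpos hMδ S ?_ ?_ ?_ ?_
  · rw [div_le_iff₀ hsn, mul_comm, ← div_le_iff₀ (by positivity)]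
    apply Real.le_sqrt_of_sq_le
    refine hN₁.trans ?_
    exact_mod_cast hN.trans (Nat.le_succ N)
  · intro t ht
    have := (abs_le.1 (h1 t ht)).2
    rw [hgk] at this
    linarith
  · intro t ht
    have := (abs_le.1 (h2 t ht)).2
    linarith
  · intro t ht
    have := (abs_le.1 (h3 t ht)).2
    rw [gm_X_sq] at this
    linarith

end Pool.Agent.Th2c
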