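import Pool.Agent.Work.MP_2c2d16_pr.EB

/-!
Additional facts on the cosine transform on Z_n (complements EB.lean).
-/

set_option autoImplicit false

namespace Pool.Agent.Th2c

open Finset Polynomial
open scoped Finset

section basics

variable {n : ℕ} [NeZero n]

lemma cs_add (a b : ZMod n) : cs (a + b) = cs a * cs b -
    (ZMod.stdAddChar a : ℂ).im * (ZMod.stdAddChar b : ℂ).im := by
  rw [cs, AddChar.map_add_eq_mul, Complex.mul_re]
  rfl

lemma cs_sub (a b : ZMod n) : cs (a - b) = cs a * cs b +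
    (ZMod.stdAddChar a : ℂ).im * (ZMod.stdAddChar b : ℂ).im := by
  rw [sub_eq_add_neg, cs_add, cs_neg, stdAddChar_neg', Complex.conj_im]
  ring

lemma n_pos : (0 : ℝ) < (n : ℝ) := by
  have := NeZero.pos n
  exact_mod_cast this

lemma n_ne : (n : ℝ) ≠ 0 := (n_pos (n := n)).ne'

lemma sum_cs_mul_cs (x y : ZMod n) : ∑ ξ : ZMod n, cs (x * ξ) * cs (y * ξ) =
    ((if x = -y then (n : ℝ) else 0) + (if x = y then (n : ℝ) else 0)) / 2 := by
  have h : ∀ ξ : ZMod n, cs (x * ξ) * cs (y * ξ) =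
      (cs ((x + y) * ξ) + cs ((x - y) * ξ)) / 2 := by
    intro ξ
    rw [cs_mul_cs, add_mul, sub_mul]
  rw [Finset.sum_congr rfl fun ξ _ => h ξ, ← Finset.sum_div, Finset.sum_add_distrib, sum_cs,
    sum_cs]
  simp only [add_eq_zero_iff_eq_neg, sub_eq_zero]

lemma ct_sum {ι : Type*} (s : Finset ι) (f : ι → ZMod n → ℝ) (ξ : ZMod n) :
    ct (fun x => ∑ i ∈ s, f i x) ξ = ∑ i ∈ s, ct (f i) ξ := by
  unfold ct
  rw [Finset.sum_comm]
  exact Finset.sum_congr rfl fun x _ => by rw [Finset.sum_mul]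

/-- symmetry of the cosine transform -/
lemma sum_mul_ct (f g : ZMod n → ℝ) : ∑ x, f x * ct g x = ∑ x, ct f x * g x := by
  unfold ct
  simp only [Finset.mul_sum, Finset.sum_mul]
  rw [Finset.sum_comm]
  refine Finset.sum_congr rfl fun y _ => Finset.sum_congr rfl fun x _ => ?_
  rw [mul_comm x y]
  ring

lemma ct_parseval_sq (f : ZMod n → ℝ) (hf : ∀ x, f (-x) = f x) :
    ∑ ξ, ct f ξ ^ 2 = n * ∑ x, f x ^ 2 := by
  simp only [sq]
  exact ct_parseval f f hf

/-- Bessel inequality for the cosine transform -/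
lemma ct_bessel (f : ZMod n → ℝ) : ∑ ξ, ct f ξ ^ 2 ≤ n * ∑ x, f x ^ 2 := by
  set g : ZMod n → ℝ := fun x => (f x + f (-x)) / 2 with hg
  have hge : ∀ x, g (-x) = g x := by
    intro x
    simp only [hg, neg_neg]
    ring
  have h1 : ct f = ct g := by
    funext ξ
    have : ct (fun x => f (-x)) ξ = ct f ξ := by
      unfold ct
      rw [← Equiv.sum_comp (Equiv.neg (ZMod n))]
      refine Finset.sum_congr rfl fun x _ => ?_
      simp [cs_neg]
    have h2 : ct g ξ = (ct f ξ + ct (fun x => f (-x)) ξ) / 2 := by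
      unfold ct
      rw [← Finset.sum_add_distrib, Finset.sum_div]
      refine Finset.sum_congr rfl fun x _ => ?_
      simp only [hg]
      ring
    rw [h2, this]
    ring
  rw [h1, ct_parseval_sq g hge]
  refine mul_le_mul_of_nonneg_left ?_ (n_pos (n := n)).le
  have h3 : ∑ x, f (-x) ^ 2 = ∑ x, f x ^ 2 :=
    Equiv.sum_comp (Equiv.neg (ZMod n)) (fun x => f x ^ 2)
  calc ∑ x, g x ^ 2 ≤ ∑ x, (f x ^ 2 + f (-x) ^ 2) / 2 := by
        refine Finset.sum_le_sum fun x _ => ?_
        simp only [hg]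
        nlinarith [sq_nonneg (f x - f (-x))]
    _ = ∑ x, f x ^ 2 := by
        rw [← Finset.sum_div, Finset.sum_add_distrib, h3]
        ring

/-- the convolution formula : an even function as a combination of characters -/
lemma even_eq_sum (f : ZMod n → ℝ) (hf : ∀ x, f (-x) = f x) (x : ZMod n) :
    f x = (∑ ξ, ct f ξ * cs (x * ξ)) / n := by
  rw [← ict_ct f hf x]
  rfl

omit [NeZero n] in
lemma dl_neg (x : ZMod n) : dl (-x) = dl x := by
  unfold dl
  simp

end basics

end Pool.Agent.Th2c
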