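import Pool.Agent.Work.MP_2c2d16_pr.Defs
import Pool.Agent.Work.MP_2c2d16_pr.Four

/-!
The cleaning lemma.
-/

set_option autoImplicit false

namespace Pool.Agent.Th2c

open Finset Polynomial
open scoped Finset

namespace Cln

/-! ### local facts on the biased expectation -/

lemma EB_insert {i : ℕ} {I : Finset ℕ} (hi : i ∉ I) (p : ℝ) (f : Finset ℕ → ℝ) :
    EB (insert i I) p f = p * EB I p (fun S => f (insert i S)) + (1 - p) * EB I p f := by
  unfold EB
  rw [Finset.sum_powerset_insert hi, Finset.mul_sum, Finset.mul_sum, add_comm]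
  congr 1
  · refine Finset.sum_congr rfl fun S hS => ?_
    have hS' : S ⊆ I := Finset.mem_powerset.1 hS
    have h1 : i ∉ S := fun h => hi (hS' h)
    rw [Finset.card_insert_of_notMem h1, Finset.card_insert_of_notMem hi, pow_succ]
    have : #I + 1 - (#S + 1) = #I - #S := by omega
    rw [this]
    ring
  · refine Finset.sum_congr rfl fun S hS => ?_
    have hS' : #S ≤ #I := Finset.card_le_card (Finset.mem_powerset.1 hS)
    rw [Finset.card_insert_of_notMem hi]
    have : #I + 1 - #S = (#I - #S) + 1 := by omega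
    rw [this, pow_succ]
    ring

lemma EB_congr {I : Finset ℕ} {p : ℝ} {f g : Finset ℕ → ℝ} (h : ∀ S ⊆ I, f S = g S) :
    EB I p f = EB I p g := by
  unfold EB
  refine Finset.sum_congr rfl fun S hS => ?_
  rw [h S (Finset.mem_powerset.1 hS)]

lemma EB_add (I : Finset ℕ) (p : ℝ) (f g : Finset ℕ → ℝ) :
    EB I p (fun S => f S + g S) = EB I p f + EB I p g := by
  unfold EB
  rw [← Finset.sum_add_distrib]
  exact Finset.sum_congr rfl fun S _ => by ring

lemma EB_mul (I : Finset ℕ) (p c : ℝ) (f : Finset ℕ → ℝ) :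
    EB I p (fun S => c * f S) = c * EB I p f := by
  unfold EB
  rw [Finset.mul_sum]
  exact Finset.sum_congr rfl fun S _ => by ring

lemma EB_sum {ι : Type*} (s : Finset ι) (I : Finset ℕ) (p : ℝ) (f : ι → Finset ℕ → ℝ) :
    EB I p (fun S => ∑ i ∈ s, f i S) = ∑ i ∈ s, EB I p (f i) := by
  unfold EB
  rw [Finset.sum_comm]
  exact Finset.sum_congr rfl fun S _ => by rw [Finset.mul_sum]

lemma EB_const (I : Finset ℕ) (p c : ℝ) : EB I p (fun _ => c) = c := by
  induction I using Finset.induction_on with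
  | empty => simp [EB]
  | insert i I hi ih =>
    rw [EB_insert hi, ih]
    ring

lemma EB_mono {I : Finset ℕ} {p : ℝ} (hp : 0 ≤ p) (hp1 : p ≤ 1) {f g : Finset ℕ → ℝ}
    (h : ∀ S ⊆ I, f S ≤ g S) : EB I p f ≤ EB I p g := by
  unfold EB
  refine Finset.sum_le_sum fun S hS => ?_
  have h1 : 0 ≤ p ^ #S * (1 - p) ^ (#I - #S) :=
    mul_nonneg (pow_nonneg hp _) (pow_nonneg (by linarith) _)
  exact mul_le_mul_of_nonneg_left (h S (Finset.mem_powerset.1 hS)) h1

lemma EB_or (I : Finset ℕ) (p q r : ℝ) (hr : 1 - r = (1 - p) * (1 - q)) (f : Finset ℕ → ℝ) :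
    EB I p (fun S => EB I q (fun T => f (S ∪ T))) = EB I r f := by
  induction I using Finset.induction_on generalizing f with
  | empty => simp [EB]
  | insert i I hi ih =>
    rw [EB_insert hi, EB_insert hi]
    have h1 : EB I p (fun S => EB (insert i I) q (fun T => f (insert i S ∪ T))) =
        EB I r (fun U => f (insert i U)) := by
      rw [← ih (fun U => f (insert i U))]
      refine EB_congr fun S _ => ?_
      rw [EB_insert hi]
      have e1 : (fun T => f (insert i S ∪ insert i T)) = fun T => f (insert i (S ∪ T)) := by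
        funext T
        congr 1
        ext x
        simp only [Finset.mem_union, Finset.mem_insert]
        tauto
      have e2 : (fun T => f (insert i S ∪ T)) = fun T => f (insert i (S ∪ T)) := by
        funext T
        congr 1
        ext x
        simp only [Finset.mem_union, Finset.mem_insert]
        tauto
      rw [e1, e2]
      ring
    have h2 : EB I p (fun S => EB (insert i I) q (fun T => f (S ∪ T))) =
        q * EB I r (fun U => f (insert i U)) + (1 - q) * EB I r f := by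
      rw [← ih (fun U => f (insert i U)), ← ih f, ← EB_mul, ← EB_mul, ← EB_add]
      refine EB_congr fun S _ => ?_
      rw [EB_insert hi]
      have e1 : (fun T => f (S ∪ insert i T)) = fun T => f (insert i (S ∪ T)) := by
        funext T
        congr 1
        ext x
        simp only [Finset.mem_union, Finset.mem_insert]
        tauto
      rw [e1]
    rw [h1, h2]
    have hr' : r = p + (1 - p) * q := by linarith
    have e3 : (1 - p) * (1 - q) = 1 - r := hr.symm
    calc p * EB I r (fun U => f (insert i U)) +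
          (1 - p) * (q * EB I r (fun U => f (insert i U)) + (1 - q) * EB I r f)
        = (p + (1 - p) * q) * EB I r (fun U => f (insert i U)) +
          ((1 - p) * (1 - q)) * EB I r f := by ring
      _ = _ := by rw [e3, ← hr']

/-! ### the fourth moment -/

/-- the centred variable of the class i -/
noncomputable def Bv (p : ℝ) (S : Finset ℕ) (i : ℕ) : ℝ := (if i ∈ S then 1 / p else 0) - 1

/-- the noise -/
noncomputable def Nz (a : ℕ → ℝ) (I : Finset ℕ) (p : ℝ) (S : Finset ℕ) : ℝ :=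
  ∑ i ∈ I, a i * Bv p S i

lemma Nz_insert (a : ℕ → ℝ) {i : ℕ} {I : Finset ℕ} (hi : i ∉ I) (p : ℝ) (S : Finset ℕ)
    (hS : S ⊆ I) : Nz a (insert i I) p S = Nz a I p S + a i * (-1) := by
  unfold Nz
  rw [Finset.sum_insert hi, add_comm]
  have : i ∉ S := fun h => hi (hS h)
  simp [Bv, this]

lemma Nz_insert' (a : ℕ → ℝ) {i : ℕ} {I : Finset ℕ} (hi : i ∉ I) (p : ℝ) (S : Finset ℕ) :
    Nz a (insert i I) p (insert i S) = Nz a I p S + a i * (1 / p - 1) := by
  unfold Nz
  rw [Finset.sum_insert hi, add_comm]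
  congr 1
  · refine Finset.sum_congr rfl fun j hj => ?_
    have : j ≠ i := fun h => hi (h ▸ hj)
    simp [Bv, this]
  · simp [Bv]

lemma EB_Nz_step (a : ℕ → ℝ) {i : ℕ} {I : Finset ℕ} (hi : i ∉ I) (p : ℝ) (g : ℝ → ℝ) :
    EB (insert i I) p (fun S => g (Nz a (insert i I) p S)) =
      p * EB I p (fun S => g (Nz a I p S + a i * (1 / p - 1))) +
      (1 - p) * EB I p (fun S => g (Nz a I p S + a i * (-1))) := by
  rw [EB_insert hi]
  congr 2
  · refine EB_congr fun S _ => ?_
    rw [Nz_insert' a hi]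
  · refine EB_congr fun S hS => ?_
    rw [Nz_insert a hi p S hS]

lemma EB_Nz1 (a : ℕ → ℝ) (I : Finset ℕ) (p : ℝ) (hp : 0 < p) :
    EB I p (fun S => Nz a I p S) = 0 := by
  induction I using Finset.induction_on with
  | empty => simp [EB, Nz]
  | insert i I hi ih =>
    rw [EB_Nz_step a hi p (fun x => x), EB_add, EB_add, EB_const, EB_const, ih]
    field_simp
    ring

lemma EB_Nz2 (a : ℕ → ℝ) (I : Finset ℕ) (p : ℝ) (hp : 0 < p) :
    EB I p (fun S => Nz a I p S ^ 2) = (1 - p) / p * ∑ i ∈ I, a i ^ 2 := by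
  induction I using Finset.induction_on with
  | empty => simp [EB, Nz]
  | insert i I hi ih =>
    have e : ∀ c : ℝ, EB I p (fun S => (Nz a I p S + c) ^ 2) =
        EB I p (fun S => Nz a I p S ^ 2) + c ^ 2 := by
      intro c
      have : (fun S => (Nz a I p S + c) ^ 2) =
          fun S => (Nz a I p S ^ 2 + (2 * c) * Nz a I p S) + c ^ 2 := by
        funext S
        ring
      rw [this, EB_add, EB_add, EB_mul, EB_const, EB_Nz1 a I p hp]
      ring
    rw [EB_Nz_step a hi p (fun x => x ^ 2), e, e, ih, Finset.sum_insert hi]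
    field_simp
    ring

lemma EB_Nz4 (a : ℕ → ℝ) (I : Finset ℕ) (p : ℝ) (hp : 0 < p) (hp1 : p ≤ 1) :
    EB I p (fun S => Nz a I p S ^ 4) ≤
      3 * (∑ i ∈ I, a i ^ 2) ^ 2 / p ^ 2 + (∑ i ∈ I, a i ^ 4) / p ^ 3 := by
  induction I using Finset.induction_on with
  | empty => simp [EB, Nz]
  | insert i I hi ih =>
    set M2 := EB I p (fun S => Nz a I p S ^ 2) with hM2
    set M3 := EB I p (fun S => Nz a I p S ^ 3) with hM3
    set M4 := EB I p (fun S => Nz a I p S ^ 4) with hM4
    have e : ∀ c : ℝ, EB I p (fun S => (Nz a I p S + c) ^ 4) =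
        M4 + 4 * c * M3 + 6 * c ^ 2 * M2 + c ^ 4 := by
      intro c
      have : (fun S => (Nz a I p S + c) ^ 4) =
          fun S => (((Nz a I p S ^ 4 + (4 * c) * Nz a I p S ^ 3) + (6 * c ^ 2) * Nz a I p S ^ 2) +
            (4 * c ^ 3) * Nz a I p S) + c ^ 4 := by
        funext S
        ring
      rw [this, EB_add, EB_add, EB_add, EB_add, EB_mul, EB_mul, EB_mul, EB_const,
        EB_Nz1 a I p hp]
      ring
    rw [EB_Nz_step a hi p (fun x => x ^ 4), e, e, Finset.sum_insert hi, Finset.sum_insert hi]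
    have hM2' : M2 = (1 - p) / p * ∑ i ∈ I, a i ^ 2 := EB_Nz2 a I p hp
    set s := ∑ i ∈ I, a i ^ 2 with hs
    set t := ∑ i ∈ I, a i ^ 4 with ht
    have hs0 : 0 ≤ s := Finset.sum_nonneg fun i _ => sq_nonneg _
    have hq : 0 ≤ 1 - p := by linarith
    have k1 : p * (M4 + 4 * (a i * (1 / p - 1)) * M3 + 6 * (a i * (1 / p - 1)) ^ 2 * M2 +
          (a i * (1 / p - 1)) ^ 4) + (1 - p) * (M4 + 4 * (a i * (-1)) * M3 +
          6 * (a i * (-1)) ^ 2 * M2 + (a i * (-1)) ^ 4)
        = M4 + 6 * a i ^ 2 * ((1 - p) / p) * M2 +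
          a i ^ 4 * ((1 - p) * ((1 - p) ^ 3 + p ^ 3) / p ^ 3) := by
      field_simp
      ring
    rw [k1, hM2']
    have hai : 0 ≤ a i ^ 2 := sq_nonneg _
    have hai4 : 0 ≤ a i ^ 4 := by positivity
    have k2 : (1 - p) * ((1 - p) ^ 3 + p ^ 3) / p ^ 3 ≤ 1 / p ^ 3 := by
      apply div_le_div_of_nonneg_right _ (by positivity)
      have h3 : (1 - p) ^ 3 ≤ 1 - p := by
        have : (1 - p) ^ 2 ≤ 1 := by nlinarith
        nlinarith
      have h4 : p ^ 3 ≤ p := by
        have : p ^ 2 ≤ 1 := by nlinarith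
        nlinarith
      have h5 : (1 - p) ^ 3 + p ^ 3 ≤ 1 := by linarith
      have h6 : 0 ≤ (1 - p) ^ 3 + p ^ 3 := by positivity
      nlinarith
    have k3 : 6 * a i ^ 2 * ((1 - p) / p) * ((1 - p) / p * s) ≤ 6 * a i ^ 2 * s / p ^ 2 := by
      have : 6 * a i ^ 2 * ((1 - p) / p) * ((1 - p) / p * s) =
          (1 - p) ^ 2 * (6 * a i ^ 2 * s / p ^ 2) := by
        field_simp
      rw [this]
      have h7 : 0 ≤ 6 * a i ^ 2 * s / p ^ 2 := by positivity
      have h8 : (1 - p) ^ 2 ≤ 1 := by nlinarith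
      nlinarith
    have k4 : a i ^ 4 * ((1 - p) * ((1 - p) ^ 3 + p ^ 3) / p ^ 3) ≤ a i ^ 4 / p ^ 3 := by
      calc a i ^ 4 * ((1 - p) * ((1 - p) ^ 3 + p ^ 3) / p ^ 3)
          ≤ a i ^ 4 * (1 / p ^ 3) := mul_le_mul_of_nonneg_left k2 hai4
        _ = a i ^ 4 / p ^ 3 := by ring
    have k5 : 3 * (a i ^ 2 + s) ^ 2 / p ^ 2 + (a i ^ 4 + t) / p ^ 3 =
        (3 * s ^ 2 / p ^ 2 + t / p ^ 3) + 6 * a i ^ 2 * s / p ^ 2 + a i ^ 4 / p ^ 3 +
          3 * a i ^ 4 / p ^ 2 := by
      field_simp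
      ring
    rw [k5]
    have k6 : 0 ≤ 3 * a i ^ 4 / p ^ 2 := by positivity
    linarith

lemma EB_Nz4' (a : ℕ → ℝ) (I : Finset ℕ) (p : ℝ) (hp : 0 < p) (hp1 : p ≤ 1) :
    EB I p (fun S => Nz a I p S ^ 4) ≤ 4 * (∑ i ∈ I, a i ^ 2) ^ 2 / p ^ 3 := by
  refine (EB_Nz4 a I p hp hp1).trans ?_
  set s := ∑ i ∈ I, a i ^ 2 with hs
  have h1 : ∑ i ∈ I, a i ^ 4 ≤ s ^ 2 := by
    have : ∑ i ∈ I, a i ^ 4 = ∑ i ∈ I, (a i ^ 2) ^ 2 :=
      Finset.sum_congr rfl fun i _ => by ring
    rw [this]
    exact Finset.sum_sq_le_sq_sum_of_nonneg fun i _ => sq_nonneg _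
  have h2 : 3 * s ^ 2 / p ^ 2 ≤ 3 * s ^ 2 / p ^ 3 := by
    apply div_le_div_of_nonneg_left (by positivity) (by positivity)
    calc p ^ 3 = p ^ 2 * p := by ring
      _ ≤ p ^ 2 * 1 := mul_le_mul_of_nonneg_left hp1 (by positivity)
      _ = p ^ 2 := by ring
  have h3 : (∑ i ∈ I, a i ^ 4) / p ^ 3 ≤ s ^ 2 / p ^ 3 :=
    div_le_div_of_nonneg_right h1 (by positivity)
  calc _ ≤ 3 * s ^ 2 / p ^ 3 + s ^ 2 / p ^ 3 := add_le_add h2 h3
    _ = _ := by ring

/-! ### the noise of the first piece -/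

section noise

variable {n : ℕ} [NeZero n]

/-- the coefficient of the class i at the frequency ξ -/
noncomputable def cf (e : ZMod n → ℝ) (ξ : ZMod n) (i : ℕ) : ℝ :=
  ∑ x ∈ Finset.univ.filter (fun x : ZMod n => cls x = i), e x * cs (x * ξ)

lemma card_cls_le (i : ℕ) :
    #(Finset.univ.filter (fun x : ZMod n => cls x = i)) ≤ 2 := by
  rcases (Finset.univ.filter (fun x : ZMod n => cls x = i)).eq_empty_or_nonempty with h | ⟨y, hy⟩
  · rw [h]; simp
  · have hy' : cls y = i := (Finset.mem_filter.1 hy).2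
    have h1 : Finset.univ.filter (fun x : ZMod n => cls x = i) ⊆ {y, -y} := by
      intro x hx
      have hx' : cls x = i := (Finset.mem_filter.1 hx).2
      have := cls_eq_iff.1 (hx'.trans hy'.symm)
      simpa using this
    exact (Finset.card_le_card h1).trans Finset.card_le_two

lemma cf_sq_le (e : ZMod n → ℝ) (ξ : ZMod n) (i : ℕ) :
    cf e ξ i ^ 2 ≤ 2 * ∑ x ∈ Finset.univ.filter (fun x : ZMod n => cls x = i), e x ^ 2 := by
  unfold cf
  have h1 := sq_sum_le_card_mul_sum_sq (s := Finset.univ.filter (fun x : ZMod n => cls x = i))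
    (f := fun x => e x * cs (x * ξ))
  refine h1.trans ?_
  have h2 : ∑ x ∈ Finset.univ.filter (fun x : ZMod n => cls x = i), (e x * cs (x * ξ)) ^ 2 ≤
      ∑ x ∈ Finset.univ.filter (fun x : ZMod n => cls x = i), e x ^ 2 := by
    refine Finset.sum_le_sum fun x _ => ?_
    rw [mul_pow]
    have := cs_sq_le_one (x * ξ)
    nlinarith [sq_nonneg (e x)]
  have h3 : (0 : ℝ) ≤ ∑ x ∈ Finset.univ.filter (fun x : ZMod n => cls x = i), e x ^ 2 :=
    Finset.sum_nonneg fun x _ => sq_nonneg _
  have h4 : ((#(Finset.univ.filter (fun x : ZMod n => cls x = i)) : ℕ) : ℝ) ≤ 2 := by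
    exact_mod_cast card_cls_le (n := n) i
  calc _ ≤ ((#(Finset.univ.filter (fun x : ZMod n => cls x = i)) : ℕ) : ℝ) *
        ∑ x ∈ Finset.univ.filter (fun x : ZMod n => cls x = i), e x ^ 2 :=
        mul_le_mul_of_nonneg_left h2 (Nat.cast_nonneg _)
    _ ≤ _ := mul_le_mul_of_nonneg_right h4 h3

/-- grouping the nonzero elements by classes -/
lemma sum_by_cls (g : ZMod n → ℝ) :
    ∑ i ∈ cl n, ∑ x ∈ Finset.univ.filter (fun x : ZMod n => cls x = i), g x =
      ∑ x ∈ Finset.univ.erase (0 : ZMod n), g x := by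
  have h : ∀ i ∈ cl n, ∑ x ∈ Finset.univ.filter (fun x : ZMod n => cls x = i), g x =
      ∑ x ∈ (Finset.univ.erase (0 : ZMod n)).filter (fun x : ZMod n => cls x = i), g x := by
    intro i hi
    refine Finset.sum_congr ?_ fun _ _ => rfl
    ext x
    simp only [Finset.mem_filter, Finset.mem_univ, true_and, Finset.mem_erase, ne_eq, and_true]
    constructor
    · intro hx
      refine ⟨?_, hx⟩
      rintro rfl
      rw [cls_zero] at hx
      have : 1 ≤ i := (Finset.mem_Icc.1 hi).1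
      omega
    · exact fun hx => hx.2
  rw [Finset.sum_congr rfl h]
  exact Finset.sum_fiberwise_of_maps_to (fun x hx => cls_mem (Finset.ne_of_mem_erase hx)) g

lemma sum_cf_sq_le (e : ZMod n → ℝ) (ξ : ZMod n) :
    ∑ i ∈ cl n, cf e ξ i ^ 2 ≤ 2 * ∑ x, e x ^ 2 := by
  calc ∑ i ∈ cl n, cf e ξ i ^ 2
      ≤ ∑ i ∈ cl n, 2 * ∑ x ∈ Finset.univ.filter (fun x : ZMod n => cls x = i), e x ^ 2 :=
        Finset.sum_le_sum fun i _ => cf_sq_le e ξ i
    _ = 2 * ∑ x ∈ Finset.univ.erase (0 : ZMod n), e x ^ 2 := by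
        rw [← Finset.mul_sum, sum_by_cls (fun x => e x ^ 2)]
    _ ≤ 2 * ∑ x, e x ^ 2 := by
        have : ∑ x ∈ Finset.univ.erase (0 : ZMod n), e x ^ 2 ≤ ∑ x, e x ^ 2 :=
          Finset.sum_le_sum_of_subset_of_nonneg (Finset.erase_subset _ _)
            fun x _ _ => sq_nonneg _
        linarith

/-- the first piece of the correction -/
noncomputable def v1 (e : ZMod n → ℝ) (p : ℝ) (Q : Finset ℕ) (x : ZMod n) : ℝ :=
  if x = 0 then e 0 else if cls x ∈ Q then e x / p else 0

lemma ct_v1 (e : ZMod n → ℝ) (p : ℝ) (Q : Finset ℕ) (ξ : ZMod n) :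
    ct (v1 e p Q) ξ = ct e ξ + Nz (cf e ξ) (cl n) p Q := by
  have h1 : ∀ f : ZMod n → ℝ, ct f ξ = f 0 + ∑ x ∈ Finset.univ.erase (0 : ZMod n),
      f x * cs (x * ξ) := by
    intro f
    unfold ct
    rw [← Finset.add_sum_erase _ _ (Finset.mem_univ (0 : ZMod n))]
    simp only [zero_mul, cs_zero, mul_one]
  have h2 : Nz (cf e ξ) (cl n) p Q = ∑ x ∈ Finset.univ.erase (0 : ZMod n),
      e x * cs (x * ξ) * Bv p Q (cls x) := by
    rw [← sum_by_cls]
    unfold Nz cf
    refine Finset.sum_congr rfl fun i _ => ?_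
    rw [Finset.sum_mul]
    refine Finset.sum_congr rfl fun x hx => ?_
    rw [(Finset.mem_filter.1 hx).2]
  rw [h1, h1 e, h2, add_assoc, ← Finset.sum_add_distrib]
  congr 1
  · simp [v1]
  · refine Finset.sum_congr rfl fun x hx => ?_
    have hx' : x ≠ 0 := Finset.ne_of_mem_erase hx
    unfold v1 Bv
    rw [if_neg hx']
    split_ifs <;> ring

lemma Nz_even (e : ZMod n → ℝ) (p : ℝ) (Q : Finset ℕ) (ξ : ZMod n) :
    Nz (cf e (-ξ)) (cl n) p Q = Nz (cf e ξ) (cl n) p Q := by
  unfold Nz cf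
  refine Finset.sum_congr rfl fun i _ => ?_
  congr 1
  refine Finset.sum_congr rfl fun x _ => ?_
  rw [mul_neg, cs_neg]

end noise

lemma bad_le_one (P : Prop) : bad P ≤ 1 := by
  unfold bad
  split_ifs <;> norm_num

lemma bad_nonneg (P : Prop) : 0 ≤ bad P := by
  unfold bad
  split_ifs <;> norm_num

lemma bad_mono {P R : Prop} (h : P → R) : bad R ≤ bad P := by
  unfold bad
  by_cases hR : R
  · rw [if_pos hR]
    split_ifs <;> norm_num
  · rw [if_neg hR, if_neg (fun hP => hR (h hP))]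

end Cln

open Cln in
theorem cleaning (n : ℕ) [NeZero n] (D : ZMod n → ℝ) (hev : ∀ ξ, D (-ξ) = D ξ)
    (l η κ : ℝ) (hl : 0 ≤ l) (hη : 0 < η) (hη1 : η ≤ 1) (hκ : 0 < κ)
    (hen : (∑ ξ, D ξ ^ 2) / n ≤ l ^ 2) :
    EB (cl n) η (fun Q => bad (∃ k : ZMod n → ℝ, (∀ x, k (-x) = k x) ∧
      (∀ x, x ≠ 0 → cls x ∉ Q → k x = 0) ∧ (∀ ξ, D ξ ≤ ct k ξ) ∧ k 0 ≤ κ))
    ≤ 2 ^ 18 * l ^ 2 / (η ^ 3 * κ ^ 2) := by
  have hn : (0 : ℝ) < n := n_pos
  -- induction on the number of stages
  have key : ∀ j : ℕ, ∀ (D : ZMod n → ℝ) (_ : ∀ ξ, D (-ξ) = D ξ)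
      (l η κ : ℝ) (_ : 0 ≤ l) (_ : 0 < η) (_ : η ≤ 1) (_ : 0 < κ)
      (_ : (∑ ξ, D ξ ^ 2) / n ≤ l ^ 2) (_ : l * Real.sqrt n ≤ 4 ^ j * κ),
      EB (cl n) η (fun Q => bad (∃ k : ZMod n → ℝ, (∀ x, k (-x) = k x) ∧
        (∀ x, x ≠ 0 → cls x ∉ Q → k x = 0) ∧ (∀ ξ, D ξ ≤ ct k ξ) ∧ k 0 ≤ κ))
      ≤ 2 ^ 18 * l ^ 2 / (η ^ 3 * κ ^ 2) := by
    intro j
    induction j with
    | zero =>
      intro D hev l η κ hl hη hη1 hκ hen hj
      have h0 : EB (cl n) η (fun Q => bad (∃ k : ZMod n → ℝ, (∀ x, k (-x) = k x) ∧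
        (∀ x, x ≠ 0 → cls x ∉ Q → k x = 0) ∧ (∀ ξ, D ξ ≤ ct k ξ) ∧ k 0 ≤ κ)) ≤
          EB (cl n) η (fun _ => 0) := by
        refine EB_mono hη.le hη1 fun Q _ => ?_
        have : (∃ k : ZMod n → ℝ, (∀ x, k (-x) = k x) ∧
            (∀ x, x ≠ 0 → cls x ∉ Q → k x = 0) ∧ (∀ ξ, D ξ ≤ ct k ξ) ∧ k 0 ≤ κ) := by
          refine ⟨fun x => κ * dl x, ?_, ?_, ?_, ?_⟩
          · intro x
            simp [dl]
          · intro x hx _
            simp [dl, hx]
          · intro ξ
            rw [ct_mul_left, ct_dl, mul_one]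
            have h1 : D ξ ^ 2 ≤ (l * Real.sqrt n) ^ 2 := by
              rw [mul_pow, Real.sq_sqrt hn.le]
              have h2 : D ξ ^ 2 ≤ ∑ ξ, D ξ ^ 2 :=
                Finset.single_le_sum (f := fun ξ => D ξ ^ 2) (fun _ _ => sq_nonneg _)
                  (Finset.mem_univ ξ)
              have h3 := (div_le_iff₀ hn).1 hen
              linarith
            have h4 : D ξ ≤ l * Real.sqrt n :=
              le_of_abs_le (abs_le_of_sq_le_sq' h1 (by positivity) |> fun h => abs_le.2 h)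
            simpa using h4.trans hj
          · simp [dl]
        rw [bad, if_pos this]
      rw [EB_const] at h0
      exact h0.trans (by positivity)
    | succ j ih =>
      intro D hev l η κ hl hη hη1 hκ hen hj
      rcases hl.eq_or_lt with hl0 | hl0
      · -- the trivial case
        refine ih D hev l η κ hl hη hη1 hκ hen ?_
        rw [← hl0, zero_mul]
        positivity
      · by_cases hlk : κ / 4 < l
        · have h0 : EB (cl n) η (fun Q => bad (∃ k : ZMod n → ℝ, (∀ x, k (-x) = k x) ∧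
            (∀ x, x ≠ 0 → cls x ∉ Q → k x = 0) ∧ (∀ ξ, D ξ ≤ ct k ξ) ∧ k 0 ≤ κ)) ≤
              EB (cl n) η (fun _ => 1) := EB_mono hη.le hη1 fun Q _ => bad_le_one _
          rw [EB_const] at h0
          refine h0.trans ?_
          rw [le_div_iff₀ (by positivity)]
          have h1 : κ ^ 2 ≤ 16 * l ^ 2 := by nlinarith
          have h2 : η ^ 3 ≤ 1 := pow_le_one₀ hη.le hη1
          have h3 : η ^ 3 * κ ^ 2 ≤ 1 * κ ^ 2 := mul_le_mul_of_nonneg_right h2 (sq_nonneg κ)
          nlinarith [sq_nonneg κ, sq_nonneg l]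
        · push Not at hlk
          set p := η / 2 with hp
          set q := (η / 2) / (1 - η / 2) with hq
          have hp0 : 0 < p := by rw [hp]; linarith
          have hp1 : p ≤ 1 := by rw [hp]; linarith
          have hden : 0 < 1 - η / 2 := by linarith
          have hq0 : η / 2 ≤ q := by
            rw [hq, le_div_iff₀ hden]
            nlinarith
          have hq1 : q ≤ 1 := by
            rw [hq, div_le_one hden]
            linarith
          have hqpos : 0 < q := lt_of_lt_of_le (by linarith) hq0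
          have hr : 1 - η = (1 - p) * (1 - q) := by
            have h1 : (1 - η / 2) * q = η / 2 := by
              rw [hq, mul_comm]
              exact div_mul_cancel₀ _ hden.ne'
            have h2 : (1 - p) * (1 - q) = (1 - η / 2) - (1 - η / 2) * q := by
              rw [hp]
              ring
            rw [h2, h1]
            ring
          set e := ict D with he
          have hee : ∀ x, e (-x) = e x := ict_even D
          have hct : ∀ ξ, ct e ξ = D ξ := ct_ict D hev
          have he2 : ∑ x, e x ^ 2 ≤ l ^ 2 := by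
            have h1 := ct_parseval_sq e hee
            rw [Finset.sum_congr rfl fun ξ _ => by rw [hct ξ]] at h1
            rw [h1, mul_comm, mul_div_assoc, div_self hn.ne', mul_one] at hen
            exact hen
          have he0 : e 0 ≤ κ / 4 := by
            have h1 : e 0 ^ 2 ≤ l ^ 2 :=
              (Finset.single_le_sum (f := fun x => e x ^ 2) (fun _ _ => sq_nonneg _)
                (Finset.mem_univ 0)).trans he2
            have h2 : e 0 ≤ l := (abs_le_of_sq_le_sq' h1 hl).2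
            exact h2.trans hlk
          -- the new deficit
          set D' : Finset ℕ → ZMod n → ℝ :=
            fun Q ξ => max (-Nz (cf e ξ) (cl n) p Q - κ / 4) 0 with hD'
          have hD'ev : ∀ Q ξ, D' Q (-ξ) = D' Q ξ := by
            intro Q ξ
            simp only [hD', Nz_even]
          have hD'sq : ∀ Q ξ, D' Q ξ ^ 2 ≤ 16 / κ ^ 2 * Nz (cf e ξ) (cl n) p Q ^ 4 := by
            intro Q ξ
            simp only [hD']
            set x := Nz (cf e ξ) (cl n) p Q
            rcases le_total (-x - κ / 4) 0 with h | h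
            · rw [max_eq_right h]
              have : 0 ≤ 16 / κ ^ 2 * x ^ 4 := by positivity
              simpa using this
            · rw [max_eq_left h]
              have h1 : κ / 4 ≤ -x := by linarith
              have h2 : (-x - κ / 4) ^ 2 ≤ x ^ 2 := by nlinarith
              have h3 : (κ / 4) ^ 2 ≤ x ^ 2 := by nlinarith
              have h4 : x ^ 2 * (κ / 4) ^ 2 ≤ x ^ 4 := by
                have : x ^ 2 * (κ / 4) ^ 2 ≤ x ^ 2 * x ^ 2 :=
                  mul_le_mul_of_nonneg_left h3 (sq_nonneg x)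
                calc _ ≤ _ := this
                  _ = x ^ 4 := by ring
              have h5 : x ^ 2 ≤ 16 / κ ^ 2 * x ^ 4 := by
                rw [div_mul_eq_mul_div, le_div_iff₀ (by positivity)]
                nlinarith
              exact h2.trans h5
          have hEB4 : ∀ ξ, EB (cl n) p (fun Q => D' Q ξ ^ 2) ≤
              2048 * l ^ 4 / (η ^ 3 * κ ^ 2) := by
            intro ξ
            calc EB (cl n) p (fun Q => D' Q ξ ^ 2)
                ≤ EB (cl n) p (fun Q => 16 / κ ^ 2 * Nz (cf e ξ) (cl n) p Q ^ 4) :=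
                  EB_mono hp0.le hp1 fun Q _ => hD'sq Q ξ
              _ = 16 / κ ^ 2 * EB (cl n) p (fun Q => Nz (cf e ξ) (cl n) p Q ^ 4) := EB_mul _ _ _ _
              _ ≤ 16 / κ ^ 2 * (4 * (2 * l ^ 2) ^ 2 / p ^ 3) := by
                  refine mul_le_mul_of_nonneg_left ?_ (by positivity)
                  refine (EB_Nz4' _ _ p hp0 hp1).trans ?_
                  have h1 : ∑ i ∈ cl n, cf e ξ i ^ 2 ≤ 2 * l ^ 2 :=
                    (sum_cf_sq_le e ξ).trans (by linarith)
                  have h2 : 0 ≤ ∑ i ∈ cl n, cf e ξ i ^ 2 :=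
                    Finset.sum_nonneg fun i _ => sq_nonneg _
                  have h3 : (∑ i ∈ cl n, cf e ξ i ^ 2) ^ 2 ≤ (2 * l ^ 2) ^ 2 :=
                    pow_le_pow_left₀ h2 h1 2
                  exact div_le_div_of_nonneg_right (by linarith) (by positivity)
              _ = 2048 * l ^ 4 / (η ^ 3 * κ ^ 2) := by
                  rw [hp]
                  field_simp
                  ring
          -- the inner bound
          have hinner : ∀ Q₁, EB (cl n) q (fun Q₂ => bad (∃ k : ZMod n → ℝ, (∀ x, k (-x) = k x) ∧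
              (∀ x, x ≠ 0 → cls x ∉ Q₁ ∪ Q₂ → k x = 0) ∧ (∀ ξ, D ξ ≤ ct k ξ) ∧ k 0 ≤ κ)) ≤
              2 ^ 17 * l ^ 2 / (η ^ 3 * κ ^ 2) +
                64 / l ^ 2 / n * ∑ ξ, D' Q₁ ξ ^ 2 := by
            intro Q₁
            have hsum0 : 0 ≤ ∑ ξ, D' Q₁ ξ ^ 2 := Finset.sum_nonneg fun ξ _ => sq_nonneg _
            by_cases hc : (∑ ξ, D' Q₁ ξ ^ 2) / n ≤ (l / 8) ^ 2
            · have h1 := ih (D' Q₁) (hD'ev Q₁) (l / 8) q (κ / 2) (by positivity) hqpos hq1
                (by positivity) hc (by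
                  rw [pow_succ] at hj
                  nlinarith)
              have h2 : EB (cl n) q (fun Q₂ => bad (∃ k : ZMod n → ℝ, (∀ x, k (-x) = k x) ∧
                  (∀ x, x ≠ 0 → cls x ∉ Q₁ ∪ Q₂ → k x = 0) ∧ (∀ ξ, D ξ ≤ ct k ξ) ∧ k 0 ≤ κ)) ≤
                  EB (cl n) q (fun Q₂ => bad (∃ k : ZMod n → ℝ, (∀ x, k (-x) = k x) ∧
                    (∀ x, x ≠ 0 → cls x ∉ Q₂ → k x = 0) ∧ (∀ ξ, D' Q₁ ξ ≤ ct k ξ) ∧
                      k 0 ≤ κ / 2)) := by
                refine EB_mono hqpos.le hq1 fun Q₂ _ => bad_mono ?_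
                rintro ⟨k, hk1, hk2, hk3, hk4⟩
                refine ⟨fun x => (v1 e p Q₁ x + κ / 4 * dl x) + k x, ?_, ?_, ?_, ?_⟩
                · intro x
                  have e1 : v1 e p Q₁ (-x) = v1 e p Q₁ x := by
                    unfold v1
                    simp only [neg_eq_zero, cls_neg, hee]
                  have e2 : (dl (-x) : ℝ) = dl x := by simp [dl]
                  beta_reduce
                  rw [e1, e2, hk1]
                · intro x hx hxQ
                  have hx1 : cls x ∉ Q₁ := fun h => hxQ (Finset.mem_union_left _ h)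
                  have hx2 : cls x ∉ Q₂ := fun h => hxQ (Finset.mem_union_right _ h)
                  beta_reduce
                  rw [hk2 x hx hx2]
                  simp [v1, dl, hx, hx1]
                · intro ξ
                  rw [ct_add, ct_add, ct_v1, ct_mul_left, ct_dl, mul_one, hct]
                  have h3 := hk3 ξ
                  have h4 : -Nz (cf e ξ) (cl n) p Q₁ - κ / 4 ≤ D' Q₁ ξ := le_max_left _ _
                  linarith
                · have e1 : v1 e p Q₁ 0 = e 0 := by simp [v1]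
                  have e2 : (dl (0 : ZMod n) : ℝ) = 1 := by simp [dl]
                  beta_reduce
                  rw [e1, e2]
                  linarith
              have h3 : 2 ^ 18 * (l / 8) ^ 2 / (q ^ 3 * (κ / 2) ^ 2) ≤
                  2 ^ 17 * l ^ 2 / (η ^ 3 * κ ^ 2) := by
                have h4 : (η / 2) ^ 3 ≤ q ^ 3 := pow_le_pow_left₀ (by positivity) hq0 3
                calc 2 ^ 18 * (l / 8) ^ 2 / (q ^ 3 * (κ / 2) ^ 2)
                    ≤ 2 ^ 18 * (l / 8) ^ 2 / ((η / 2) ^ 3 * (κ / 2) ^ 2) := by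
                      apply div_le_div_of_nonneg_left (by positivity) (by positivity)
                      exact mul_le_mul_of_nonneg_right h4 (by positivity)
                  _ = 2 ^ 17 * l ^ 2 / (η ^ 3 * κ ^ 2) := by
                      field_simp
                      ring
              have h4 : 0 ≤ 64 / l ^ 2 / n * ∑ ξ, D' Q₁ ξ ^ 2 := by positivity
              linarith
            · push Not at hc
              have h1 : EB (cl n) q (fun Q₂ => bad (∃ k : ZMod n → ℝ, (∀ x, k (-x) = k x) ∧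
                  (∀ x, x ≠ 0 → cls x ∉ Q₁ ∪ Q₂ → k x = 0) ∧ (∀ ξ, D ξ ≤ ct k ξ) ∧ k 0 ≤ κ)) ≤
                  EB (cl n) q (fun _ => 1) := EB_mono hqpos.le hq1 fun Q₂ _ => bad_le_one _
              rw [EB_const] at h1
              have h2 : 1 ≤ 64 / l ^ 2 / n * ∑ ξ, D' Q₁ ξ ^ 2 := by
                rw [lt_div_iff₀ hn] at hc
                rw [div_div, div_mul_eq_mul_div, le_div_iff₀ (by positivity)]
                nlinarith
              have h3 : 0 ≤ 2 ^ 17 * l ^ 2 / (η ^ 3 * κ ^ 2) := by positivity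
              linarith
          rw [← Cln.EB_or (cl n) p q η hr]
          calc EB (cl n) p (fun Q₁ => EB (cl n) q (fun Q₂ => bad (∃ k : ZMod n → ℝ,
              (∀ x, k (-x) = k x) ∧ (∀ x, x ≠ 0 → cls x ∉ Q₁ ∪ Q₂ → k x = 0) ∧
              (∀ ξ, D ξ ≤ ct k ξ) ∧ k 0 ≤ κ)))
              ≤ EB (cl n) p (fun Q₁ => 2 ^ 17 * l ^ 2 / (η ^ 3 * κ ^ 2) +
                64 / l ^ 2 / n * ∑ ξ, D' Q₁ ξ ^ 2) :=
                EB_mono hp0.le hp1 fun Q₁ _ => hinner Q₁
            _ = 2 ^ 17 * l ^ 2 / (η ^ 3 * κ ^ 2) +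
                64 / l ^ 2 / n * ∑ ξ, EB (cl n) p (fun Q₁ => D' Q₁ ξ ^ 2) := by
                rw [EB_add, EB_const, EB_mul, EB_sum]
            _ ≤ 2 ^ 17 * l ^ 2 / (η ^ 3 * κ ^ 2) +
                64 / l ^ 2 / n * ∑ _ξ : ZMod n, 2048 * l ^ 4 / (η ^ 3 * κ ^ 2) := by
                have h1 : 0 ≤ 64 / l ^ 2 / (n : ℝ) := by positivity
                have h2 := mul_le_mul_of_nonneg_left
                  (Finset.sum_le_sum fun (ξ : ZMod n) (_ : ξ ∈ Finset.univ) => hEB4 ξ) h1
                linarith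
            _ = 2 ^ 18 * l ^ 2 / (η ^ 3 * κ ^ 2) := by
                rw [Finset.sum_const, Finset.card_univ, ZMod.card, nsmul_eq_mul]
                field_simp
                ring
  obtain ⟨j, hj⟩ := pow_unbounded_of_one_lt (l * Real.sqrt n / κ) (by norm_num : (1 : ℝ) < 4)
  exact key j D hev l η κ hl hη hη1 hκ hen (by rw [div_lt_iff₀ hκ] at hj; exact hj.le)

end Pool.Agent.Th2c
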