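import Pool.Agent.Work.MP_2c2d16_pr.Four

/-!
Duality bounds for the Lovasz number of a circulant graph in semidefinite form.
-/

set_option autoImplicit false

namespace Pool.Agent.Th2c

open Finset Polynomial
open scoped Finset

section

variable {n : ℕ} [NeZero n]

lemma sum_sum_cs_nonneg (x : ZMod n → ℝ) (ξ : ZMod n) :
    0 ≤ ∑ i, ∑ j, x i * x j * cs ((i - j) * ξ) := by
  have h : ∑ i, ∑ j, x i * x j * cs ((i - j) * ξ) =
      (∑ i, x i * cs (i * ξ)) ^ 2 + (∑ i, x i * (ZMod.stdAddChar (i * ξ) : ℂ).im) ^ 2 := by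
    rw [sq, sq, Finset.sum_mul_sum, Finset.sum_mul_sum, ← Finset.sum_add_distrib]
    refine Finset.sum_congr rfl fun i _ => ?_
    rw [← Finset.sum_add_distrib]
    refine Finset.sum_congr rfl fun j _ => ?_
    rw [sub_mul, cs_sub]
    ring
  rw [h]
  positivity

lemma sum_sum_eq (f : ZMod n → ℝ) (hf : ∀ x, f (-x) = f x) (g : ZMod n → ZMod n → ℝ) :
    ∑ i, ∑ j, g i j * f (i - j) =
      (∑ ξ, ct f ξ * ∑ i, ∑ j, g i j * cs ((i - j) * ξ)) / n := by
  have h1 : ∀ i j : ZMod n, g i j * f (i - j) =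
      ∑ ξ, ct f ξ * (g i j * cs ((i - j) * ξ)) / n := by
    intro i j
    rw [even_eq_sum f hf (i - j), Finset.sum_div, Finset.mul_sum]
    refine Finset.sum_congr rfl fun ξ _ => ?_
    ring
  simp only [h1]
  have h2 : ∑ i : ZMod n, ∑ j : ZMod n, ∑ ξ : ZMod n, ct f ξ * (g i j * cs ((i - j) * ξ)) / n
      = ∑ ξ : ZMod n, ∑ i : ZMod n, ∑ j : ZMod n, ct f ξ * (g i j * cs ((i - j) * ξ)) / n := by
    have h3 : ∀ i : ZMod n, ∑ j : ZMod n, ∑ ξ : ZMod n, ct f ξ * (g i j * cs ((i - j) * ξ)) / n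
        = ∑ ξ : ZMod n, ∑ j : ZMod n, ct f ξ * (g i j * cs ((i - j) * ξ)) / n :=
      fun i => Finset.sum_comm
    rw [Finset.sum_congr rfl fun i _ => h3 i]
    exact Finset.sum_comm
  rw [h2, Finset.sum_div]
  refine Finset.sum_congr rfl fun ξ _ => ?_
  simp only [Finset.mul_sum, Finset.sum_div]

lemma psd_apply (B : Matrix (ZMod n) (ZMod n) ℝ) (hB : B.PosSemidef) (x : ZMod n → ℝ) :
    0 ≤ ∑ i, ∑ j, B i j * (x i * x j) := by
  have h := hB.dotProduct_mulVec_nonneg x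
  have h2 : star x ⬝ᵥ (B.mulVec x) = ∑ i, ∑ j, B i j * (x i * x j) := by
    simp only [dotProduct, Matrix.mulVec, Pi.star_apply, star_trivial, Finset.mul_sum]
    refine Finset.sum_congr rfl fun i _ => Finset.sum_congr rfl fun j _ => ?_
    ring
  rw [h2] at h
  exact h

lemma psd_cs_nonneg (B : Matrix (ZMod n) (ZMod n) ℝ) (hB : B.PosSemidef) (ξ : ZMod n) :
    0 ≤ ∑ i, ∑ j, B i j * cs ((i - j) * ξ) := by
  have h1 := psd_apply B hB (fun i => cs (i * ξ))
  have h2 := psd_apply B hB (fun i => (ZMod.stdAddChar (i * ξ) : ℂ).im)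
  have h : ∑ i, ∑ j, B i j * cs ((i - j) * ξ) =
      ∑ i, ∑ j, B i j * (cs (i * ξ) * cs (j * ξ)) +
      ∑ i, ∑ j, B i j * ((ZMod.stdAddChar (i * ξ) : ℂ).im * (ZMod.stdAddChar (j * ξ) : ℂ).im) := by
    rw [← Finset.sum_add_distrib]
    refine Finset.sum_congr rfl fun i _ => ?_
    rw [← Finset.sum_add_distrib]
    refine Finset.sum_congr rfl fun j _ => ?_
    rw [sub_mul, cs_sub]
    ring
  rw [h]
  exact add_nonneg h1 h2

/-- weak duality -/
lemma weak_dual (B : Matrix (ZMod n) (ZMod n) ℝ) (hB : B.PosSemidef) (htr : B.trace = 1)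
    (f : ZMod n → ℝ) (hf : ∀ x, f (-x) = f x) (hpos : ∀ ξ, 0 ≤ ct f ξ)
    (hz : ∀ i j, i ≠ j → B i j * f (i - j) = 0) :
    ct f 0 * ∑ i, ∑ j, B i j ≤ n * f 0 := by
  have h1 := sum_sum_eq f hf B
  have h2 : ∑ i, ∑ j, B i j * f (i - j) = f 0 := by
    have : ∀ i : ZMod n, ∑ j : ZMod n, B i j * f (i - j) = B i i * f 0 := by
      intro i
      rw [Finset.sum_eq_single i]
      · simp
      · intro j _ hj
        exact hz i j (Ne.symm hj)
      · intro h
        exact absurd (Finset.mem_univ _) h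
    rw [Finset.sum_congr rfl fun i _ => this i, ← Finset.sum_mul]
    have htr' : ∑ i, B i i = 1 := htr
    rw [htr', one_mul]
  rw [h2] at h1
  have hn := n_pos (n := n)
  have h3 : ct f 0 * ∑ i, ∑ j, B i j ≤ ∑ ξ, ct f ξ * ∑ i, ∑ j, B i j * cs ((i - j) * ξ) := by
    have h4 := Finset.single_le_sum
      (f := fun ξ : ZMod n => ct f ξ * ∑ i, ∑ j, B i j * cs ((i - j) * ξ))
      (s := Finset.univ) (fun ξ _ => mul_nonneg (hpos ξ) (psd_cs_nonneg B hB ξ))
      (Finset.mem_univ (0 : ZMod n))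
    simpa [cs_zero] using h4
  rw [h1, mul_div_cancel₀ _ hn.ne']
  exact h3

end

/-! ### the frozen set -/

/-- feasible values of the frozen semidefinite program -/
def thetaSet (n : ℕ) (S : Finset ℕ) : Set ℝ :=
  {r : ℝ | ∃ B : Matrix (Fin n) (Fin n) ℝ,
              B.PosSemidef ∧ B.trace = 1 ∧
              (∀ i j : Fin n,
                (SimpleGraph.fromRel
                  (fun a b : Fin n => min (b - a).val (a - b).val ∈ S)).Adj i j →
                  B i j = 0) ∧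
              r = ∑ i, ∑ j, B i j}

lemma theta_eq (n : ℕ) (S : Finset ℕ) : theta n S = sSup (thetaSet n S) := rfl

lemma mem_thetaSet {N : ℕ} (S : Finset ℕ) (r : ℝ) :
    r ∈ thetaSet (N + 1) S ↔ ∃ B : Matrix (ZMod (N + 1)) (ZMod (N + 1)) ℝ,
      B.PosSemidef ∧ B.trace = 1 ∧
      (∀ i j : ZMod (N + 1), i ≠ j → cls (i - j) ∈ S → B i j = 0) ∧
      r = ∑ i, ∑ j, B i j := by
  constructor
  · rintro ⟨B, h1, h2, h3, h4⟩
    refine ⟨B, h1, h2, ?_, h4⟩
    intro i j hij hc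
    refine h3 i j ((SimpleGraph.fromRel_adj _ _ _).2 ⟨hij, Or.inr ?_⟩)
    have : cls (i - j) = min (i - j).val (j - i).val := by
      unfold cls
      rw [neg_sub]
    rw [this] at hc
    exact hc
  · rintro ⟨B, h1, h2, h3, h4⟩
    refine ⟨B, h1, h2, ?_, h4⟩
    intro (i : ZMod (N + 1)) (j : ZMod (N + 1)) hij
    obtain ⟨hne, hc⟩ := (SimpleGraph.fromRel_adj _ _ _).1 hij
    refine h3 i j hne ?_
    have h5 : cls (i - j) = min (i - j).val (j - i).val := by
      unfold cls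
      rw [neg_sub]
    rw [h5]
    rcases hc with hc | hc
    · rw [min_comm]
      exact hc
    · exact hc

lemma thetaSet_le {N : ℕ} (S : Finset ℕ) {r : ℝ} (hr : r ∈ thetaSet (N + 1) S)
    (f : ZMod (N + 1) → ℝ) (hf : ∀ x, f (-x) = f x) (hpos : ∀ ξ, 0 ≤ ct f ξ)
    (hsupp : ∀ x, x ≠ 0 → cls x ∉ S → f x = 0) :
    ct f 0 * r ≤ ((N + 1 : ℕ) : ℝ) * f 0 := by
  rw [mem_thetaSet] at hr
  obtain ⟨B, h1, h2, h3, h4⟩ := hr
  rw [h4]
  refine weak_dual B h1 h2 f hf hpos ?_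
  intro i j hij
  by_cases hc : cls (i - j) ∈ S
  · rw [h3 i j hij hc, zero_mul]
  · rw [hsupp (i - j) (sub_ne_zero.2 hij) hc, mul_zero]

lemma thetaSet_le_n {N : ℕ} (S : Finset ℕ) {r : ℝ} (hr : r ∈ thetaSet (N + 1) S) :
    r ≤ ((N + 1 : ℕ) : ℝ) := by
  have := thetaSet_le S hr dl dl_neg (fun ξ => by rw [ct_dl]; exact zero_le_one)
    (fun x hx _ => by simp [dl, hx])
  rw [ct_dl] at this
  simpa [dl] using this

lemma thetaSet_bdd {N : ℕ} (S : Finset ℕ) : BddAbove (thetaSet (N + 1) S) :=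
  ⟨((N + 1 : ℕ) : ℝ), fun _ hr => thetaSet_le_n S hr⟩

lemma mem_thetaSet_of_pd {N : ℕ} (S : Finset ℕ)
    (f : ZMod (N + 1) → ℝ) (hf : ∀ x, f (-x) = f x) (hpos : ∀ ξ, 0 ≤ ct f ξ)
    (hsupp : ∀ x, x ≠ 0 → cls x ∈ S → f x = 0) (h0 : 0 < f 0) :
    ct f 0 / f 0 ∈ thetaSet (N + 1) S := by
  rw [mem_thetaSet]
  have hn := n_pos (n := N + 1)
  refine ⟨Matrix.of fun i j => f (i - j) / (((N + 1 : ℕ) : ℝ) * f 0), ?_, ?_, ?_, ?_⟩
  · rw [Matrix.posSemidef_iff_dotProduct_mulVec]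
    refine ⟨?_, ?_⟩
    · ext i j
      simp only [Matrix.conjTranspose_apply, Matrix.of_apply, star_trivial]
      rw [← hf (j - i), neg_sub]
    · intro x
      have h2 : star x ⬝ᵥ ((Matrix.of fun i j : ZMod (N + 1) =>
          f (i - j) / (((N + 1 : ℕ) : ℝ) * f 0)).mulVec x)
          = (∑ i, ∑ j, (x i * x j) * f (i - j)) / (((N + 1 : ℕ) : ℝ) * f 0) := by
        simp only [dotProduct, Matrix.mulVec, Pi.star_apply, star_trivial, Finset.mul_sum,
          Matrix.of_apply, Finset.sum_div]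
        refine Finset.sum_congr rfl fun i _ => Finset.sum_congr rfl fun j _ => ?_
        ring
      rw [h2, sum_sum_eq f hf]
      refine div_nonneg (div_nonneg ?_ hn.le) (mul_pos hn h0).le
      exact Finset.sum_nonneg fun ξ _ => mul_nonneg (hpos ξ) (sum_sum_cs_nonneg x ξ)
  · simp only [Matrix.trace, Matrix.diag_apply, Matrix.of_apply, sub_self]
    rw [Finset.sum_const, Finset.card_univ, ZMod.card, nsmul_eq_mul]
    field_simp
  · intro i j hij hc
    rw [Matrix.of_apply, hsupp (i - j) (sub_ne_zero.2 hij) hc, zero_div]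
  · simp only [Matrix.of_apply]
    have h1 : ∀ i : ZMod (N + 1), ∑ j : ZMod (N + 1), f (i - j) / (((N + 1 : ℕ) : ℝ) * f 0) =
        ct f 0 / (((N + 1 : ℕ) : ℝ) * f 0) := by
      intro i
      rw [← Finset.sum_div]
      congr 1
      have h2 := Equiv.sum_comp (Equiv.subLeft i) f
      simp only [Equiv.subLeft_apply] at h2
      rw [h2, ct_zero_right]
    rw [Finset.sum_congr rfl fun i _ => h1 i, Finset.sum_const, Finset.card_univ, ZMod.card,
      nsmul_eq_mul]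
    field_simp

lemma thetaSet_nonempty {N : ℕ} (S : Finset ℕ) : (thetaSet (N + 1) S).Nonempty :=
  ⟨_, mem_thetaSet_of_pd S dl dl_neg (fun ξ => by rw [ct_dl]; exact zero_le_one)
    (fun x hx _ => by simp [dl, hx]) (by simp [dl])⟩

/-- (F1) a positive definite function supported on the non-edges gives a lower bound -/
theorem theta_lower (N : ℕ) (S : Finset ℕ) (f : ZMod (N + 1) → ℝ)
    (hev : ∀ x, f (-x) = f x) (hsupp : ∀ x, x ≠ 0 → cls x ∈ S → f x = 0)
    (hpd : ∀ ξ, 0 ≤ ct f ξ) (h0 : 0 < f 0) : ct f 0 / f 0 ≤ theta (N + 1) S := by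
  rw [theta_eq]
  exact le_csSup (thetaSet_bdd S) (mem_thetaSet_of_pd S f hev hpd hsupp h0)

/-- (F2) a positive definite function supported on the edges gives an upper bound -/
theorem theta_upper (N : ℕ) (S : Finset ℕ) (g : ZMod (N + 1) → ℝ)
    (hev : ∀ x, g (-x) = g x) (hsupp : ∀ x, x ≠ 0 → cls x ∉ S → g x = 0)
    (hpd : ∀ ξ, 0 ≤ ct g ξ) (_h0 : 0 < g 0) (h1 : 0 < ct g 0) :
    theta (N + 1) S ≤ (N + 1 : ℕ) * g 0 / ct g 0 := by
  rw [theta_eq]
  refine csSup_le (thetaSet_nonempty S) fun r hr => ?_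
  rw [le_div_iff₀ h1, mul_comm r]
  exact thetaSet_le S hr g hev hpd hsupp

theorem one_le_theta (N : ℕ) (S : Finset ℕ) : 1 ≤ theta (N + 1) S := by
  have := theta_lower N S dl dl_neg (fun x hx _ => by simp [dl, hx])
    (fun ξ => by rw [ct_dl]; exact zero_le_one) (by simp [dl])
  rw [ct_dl] at this
  simpa [dl] using this

theorem theta_nonneg (N : ℕ) (S : Finset ℕ) : 0 ≤ theta (N + 1) S :=
  zero_le_one.trans (one_le_theta N S)

theorem theta_le (N : ℕ) (S : Finset ℕ) : theta (N + 1) S ≤ (N + 1 : ℕ) := by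
  have := theta_upper N S dl dl_neg (fun x hx _ => by simp [dl, hx])
    (fun ξ => by rw [ct_dl]; exact zero_le_one) (by simp [dl]) (by rw [ct_dl]; exact one_pos)
  rw [ct_dl] at this
  simpa [dl] using this

/-- the frozen quantity as an expectation -/
theorem frozen_eq (n : ℕ) :
    ((∑ S ∈ (Finset.Icc 1 (n / 2)).powerset,
            sSup {r : ℝ | ∃ B : Matrix (Fin n) (Fin n) ℝ,
              B.PosSemidef ∧ B.trace = 1 ∧
              (∀ i j : Fin n,
                (SimpleGraph.fromRel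
                  (fun a b : Fin n => min (b - a).val (a - b).val ∈ S)).Adj i j →
                  B i j = 0) ∧
              r = ∑ i, ∑ j, B i j}) / (2 : ℝ) ^ (n / 2)) / Real.sqrt (n : ℝ)
      = Ex (cl n) (theta n) / Real.sqrt (n : ℝ) := by
  have h : #(cl n) = n / 2 := by
    unfold cl
    rw [Nat.card_Icc]
    omega
  unfold Ex
  rw [h]
  rfl

end Pool.Agent.Th2c
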