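import Pool.Agent.Work.MP_2c2d16_pr.EB

/-!
The thinning lemma: deleting and doubling random classes.
-/

set_option autoImplicit false

namespace Pool.Agent.Th2c

open Finset Polynomial
open scoped Finset

namespace Thin

/-- a signed sum -/
noncomputable def nz (I : Finset ℕ) (c : ℕ → ℝ) (M : Finset ℕ) : ℝ :=
  ∑ i ∈ I, if i ∈ M then c i else -c i

lemma nz_smul (I : Finset ℕ) (c : ℕ → ℝ) (M : Finset ℕ) (s : ℝ) :
    nz I (fun i => s * c i) M = s * nz I c M := by
  unfold nz
  rw [Finset.mul_sum]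
  exact Finset.sum_congr rfl fun i _ => by split_ifs <;> ring

lemma mgf (I : Finset ℕ) (c : ℕ → ℝ) :
    EB I (1 / 2) (fun M => Real.exp (nz I c M)) ≤ Real.exp ((∑ i ∈ I, c i ^ 2) / 2) := by
  induction I using Finset.induction_on with
  | empty => simp [nz, EB_empty]
  | insert a I ha ih =>
    have h1 : EB I (1 / 2) (fun M => Real.exp (nz (insert a I) c M)) =
        Real.exp (-c a) * EB I (1 / 2) (fun M => Real.exp (nz I c M)) := by
      rw [← EB_mul_left]
      apply EB_congr
      intro S hS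
      have haS : a ∉ S := fun h => ha (hS h)
      rw [← Real.exp_add, nz, Finset.sum_insert ha, if_neg haS, nz]
    have h2 : EB I (1 / 2) (fun M => Real.exp (nz (insert a I) c (insert a M))) =
        Real.exp (c a) * EB I (1 / 2) (fun M => Real.exp (nz I c M)) := by
      rw [← EB_mul_left]
      apply EB_congr
      intro S hS
      rw [← Real.exp_add, nz, Finset.sum_insert ha, if_pos (Finset.mem_insert_self a S), nz]
      congr 2
      apply Finset.sum_congr rfl
      intro i hi
      have hia : i ≠ a := fun h => ha (h ▸ hi)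
      simp [Finset.mem_insert, hia]
    rw [EB_insert ha, h1, h2, Finset.sum_insert ha, add_div, Real.exp_add]
    have h3 := Real.cosh_le_exp_half_sq (c a)
    rw [Real.cosh_eq] at h3
    have h0 : 0 ≤ EB I (1 / 2) (fun M => Real.exp (nz I c M)) :=
      EB_nonneg (by norm_num) (by norm_num) fun S _ => (Real.exp_pos _).le
    calc (1 - 1 / 2) * (Real.exp (-c a) * EB I (1 / 2) (fun M => Real.exp (nz I c M))) +
          1 / 2 * (Real.exp (c a) * EB I (1 / 2) (fun M => Real.exp (nz I c M)))
        = (Real.exp (c a) + Real.exp (-c a)) / 2 *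
          EB I (1 / 2) (fun M => Real.exp (nz I c M)) := by ring
      _ ≤ Real.exp (c a ^ 2 / 2) * Real.exp ((∑ i ∈ I, c i ^ 2) / 2) := by gcongr

lemma EB_mem {I : Finset ℕ} {i : ℕ} (hi : i ∈ I) (p c : ℝ) :
    EB I p (fun Q => if i ∈ Q then c else 0) = p * c := by
  have h := EB_insert (Finset.notMem_erase i I) p (fun Q => if i ∈ Q then c else 0)
  rw [Finset.insert_erase hi] at h
  rw [h]
  have h1 : EB (I.erase i) p (fun Q => if i ∈ Q then c else 0) = 0 := by
    rw [EB_congr (g := fun _ => (0 : ℝ)) fun S hS => if_neg fun h => by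
      exact absurd (hS h) (Finset.notMem_erase i I)]
    exact EB_const _ _ _
  rw [h1]
  simp [EB_const]

lemma sq_le_exp {y s : ℝ} (hs : 0 < s) : max y 0 ^ 2 ≤ 2 / s ^ 2 * Real.exp (s * y) := by
  rcases le_or_gt y 0 with hy | hy
  · rw [max_eq_right hy]
    have h0 : (0 : ℝ) ≤ 2 / s ^ 2 * Real.exp (s * y) := by positivity
    simpa using h0
  · rw [max_eq_left hy.le]
    have h1 : 0 ≤ s * y := by positivity
    have h2 : (s * y) ^ 2 / 2 ≤ Real.exp (s * y) := by
      have := Real.quadratic_le_exp_of_nonneg h1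
      linarith
    rw [div_mul_eq_mul_div, le_div_iff₀ (by positivity)]
    nlinarith

lemma fiber_card {n : ℕ} [NeZero n] (i : ℕ) :
    #{x ∈ univ.erase (0 : ZMod n) | cls x = i} ≤ 2 := by
  by_cases h : ∃ x0 : ZMod n, cls x0 = i
  · obtain ⟨x0, rfl⟩ := h
    calc #{x ∈ univ.erase (0 : ZMod n) | cls x = cls x0}
        ≤ #({x0, -x0} : Finset (ZMod n)) := by
          apply Finset.card_le_card
          intro x hx
          have hx2 := (Finset.mem_filter.1 hx).2
          rcases cls_eq_iff.1 hx2 with h | h <;> simp [h]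
      _ ≤ 2 := Finset.card_le_two
  · have : {x ∈ univ.erase (0 : ZMod n) | cls x = i} = ∅ := by
      apply Finset.filter_eq_empty_iff.2
      intro x _ hx
      exact h ⟨x, hx⟩
    rw [this]
    simp

end Thin

open Thin

theorem thinning (n : ℕ) [NeZero n] (f : ZMod n → ℝ) (hev : ∀ x, f (-x) = f x)
    (T : Finset ℕ) (R β e κ δ : ℝ) (hR : 0 < R) (he : 0 < e) (he1 : e ≤ 1) (hκ : 0 < κ)
    (hδ : 0 < δ)
    (hfR : ∑ x ∈ univ.erase (0 : ZMod n), f x ^ 2 ≤ R)
    (hfβ : ∑ x ∈ univ.erase (0 : ZMod n), (if cls x ∈ T then 0 else f x ^ 2) ≤ β) :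
    EB (cl n) e (fun Q => EB (cl n) (1 / 2) (fun M => bad (∃ f₁ D : ZMod n → ℝ,
      (∀ x, f₁ (-x) = f₁ x) ∧ (∀ ξ, D (-ξ) = D ξ) ∧ (∀ ξ, 0 ≤ D ξ) ∧
      (∀ x, x ≠ 0 → cls x ∉ T \ (Q ∩ M) → f₁ x = 0) ∧ f₁ 0 = f 0 ∧
      (∀ ξ, ct f ξ ≤ ct f₁ ξ + κ + D ξ) ∧ (∑ ξ, D ξ ^ 2) / n ≤ 2 * β + 2 * δ)))
    ≤ Real.sqrt e + 8 * e * R ^ 2 / κ ^ 2 * Real.exp (-(κ ^ 2 / (4 * Real.sqrt e * R))) / δ := by
  classical
  have hn : (0 : ℝ) < n := Nat.cast_pos.2 (Nat.pos_of_ne_zero (NeZero.ne n))
  set r : ℝ := Real.sqrt e with hr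
  have hr0 : 0 < r := Real.sqrt_pos.2 he
  have hre : r ^ 2 = e := Real.sq_sqrt he.le
  set V : ℝ := 2 * r * R with hV
  have hV0 : 0 < V := by positivity
  set B : ℝ := 8 * e * R ^ 2 / κ ^ 2 * Real.exp (-(κ ^ 2 / (4 * r * R))) with hB
  have hB0 : 0 ≤ B := by positivity
  -- energy on Q
  let en : Finset ℕ → ℝ := fun Q =>
    ∑ x ∈ univ.erase (0 : ZMod n), if cls x ∈ Q then f x ^ 2 else 0
  -- the conditional bound
  have key : ∀ Q : Finset ℕ, en Q ≤ r * R →
      EB (cl n) (1 / 2) (fun M => bad (∃ f₁ D : ZMod n → ℝ,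
      (∀ x, f₁ (-x) = f₁ x) ∧ (∀ ξ, D (-ξ) = D ξ) ∧ (∀ ξ, 0 ≤ D ξ) ∧
      (∀ x, x ≠ 0 → cls x ∉ T \ (Q ∩ M) → f₁ x = 0) ∧ f₁ 0 = f 0 ∧
      (∀ ξ, ct f ξ ≤ ct f₁ ξ + κ + D ξ) ∧ (∑ ξ, D ξ ^ 2) / n ≤ 2 * β + 2 * δ)) ≤ B / δ := by
    intro Q hQ
    -- the leak
    let g : ZMod n → ℝ := fun x => if x = 0 then 0 else if cls x ∈ T then 0 else f x
    -- the noise
    let h : Finset ℕ → ZMod n → ℝ := fun M x => if x = 0 then 0 else
      if cls x ∈ T ∩ Q then (if cls x ∈ M then f x else -f x) else 0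
    let f₁ : Finset ℕ → ZMod n → ℝ := fun M x => if x = 0 then f 0 else
      if cls x ∈ T then (if cls x ∈ Q then (if cls x ∈ M then 0 else 2 * f x) else f x) else 0
    let b : Finset ℕ → ZMod n → ℝ := fun M ξ => max (ct (h M) ξ - κ) 0
    let c : ZMod n → ℕ → ℝ := fun ξ i =>
      ∑ x ∈ univ.erase (0 : ZMod n) with cls x = i, if cls x ∈ T ∩ Q then f x * cs (x * ξ) else 0
    have hg_ev : ∀ x, g (-x) = g x := by
      intro x
      simp only [g, neg_eq_zero, cls_neg, hev]
    have hnz : ∀ M ξ, ct (h M) ξ = nz (cl n) (c ξ) M := by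
      intro M ξ
      have e1 : ct (h M) ξ = ∑ x ∈ univ.erase (0 : ZMod n),
          if cls x ∈ M then (if cls x ∈ T ∩ Q then f x * cs (x * ξ) else 0)
          else -(if cls x ∈ T ∩ Q then f x * cs (x * ξ) else 0) := by
        unfold ct
        rw [← Finset.add_sum_erase _ _ (Finset.mem_univ (0 : ZMod n))]
        have : h M 0 = 0 := by simp [h]
        rw [this, zero_mul, zero_add]
        apply Finset.sum_congr rfl
        intro x hx
        have hx0 : x ≠ 0 := Finset.ne_of_mem_erase hx
        simp only [h, if_neg hx0]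
        split_ifs <;> ring
      rw [e1, ← Finset.sum_fiberwise_of_maps_to (t := cl n) (g := fun x : ZMod n => cls x)
        (fun x hx => cls_mem (Finset.ne_of_mem_erase hx))]
      unfold nz
      apply Finset.sum_congr rfl
      intro i _
      by_cases hi : i ∈ M
      · rw [if_pos hi]
        apply Finset.sum_congr rfl
        intro x hx
        rw [(Finset.mem_filter.1 hx).2, if_pos hi]
      · rw [if_neg hi, ← Finset.sum_neg_distrib]
        apply Finset.sum_congr rfl
        intro x hx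
        rw [(Finset.mem_filter.1 hx).2, if_neg hi]
    have hc : ∀ ξ, ∑ i ∈ cl n, c ξ i ^ 2 ≤ V := by
      intro ξ
      calc ∑ i ∈ cl n, c ξ i ^ 2
          ≤ ∑ i ∈ cl n, 2 * ∑ x ∈ univ.erase (0 : ZMod n) with cls x = i,
              (if cls x ∈ Q then f x ^ 2 else 0) := by
            apply Finset.sum_le_sum
            intro i _
            have hs := sq_sum_le_card_mul_sum_sq
              (s := {x ∈ univ.erase (0 : ZMod n) | cls x = i})
              (f := fun x => if cls x ∈ T ∩ Q then f x * cs (x * ξ) else 0)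
            refine hs.trans ?_
            have h1 : ∑ x ∈ univ.erase (0 : ZMod n) with cls x = i,
                (if cls x ∈ T ∩ Q then f x * cs (x * ξ) else 0) ^ 2 ≤
                ∑ x ∈ univ.erase (0 : ZMod n) with cls x = i,
                (if cls x ∈ Q then f x ^ 2 else 0) := by
              apply Finset.sum_le_sum
              intro x _
              by_cases h1 : cls x ∈ T ∩ Q
              · rw [if_pos h1, if_pos (Finset.mem_inter.1 h1).2, mul_pow]
                have := cs_sq_le_one (x * ξ)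
                nlinarith [sq_nonneg (f x)]
              · rw [if_neg h1]
                split_ifs
                · simpa using sq_nonneg (f x)
                · simp
            have h2 : (0 : ℝ) ≤ ∑ x ∈ univ.erase (0 : ZMod n) with cls x = i,
                (if cls x ∈ T ∩ Q then f x * cs (x * ξ) else 0) ^ 2 :=
              Finset.sum_nonneg fun x _ => sq_nonneg _
            have h3 : ((#{x ∈ univ.erase (0 : ZMod n) | cls x = i} : ℕ) : ℝ) ≤ 2 := by
              exact_mod_cast fiber_card (n := n) i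
            nlinarith
        _ = 2 * ∑ x ∈ univ.erase (0 : ZMod n), (if cls x ∈ Q then f x ^ 2 else 0) := by
            rw [← Finset.mul_sum, Finset.sum_fiberwise_of_maps_to (t := cl n)
              (g := fun x : ZMod n => cls x)
              (fun x hx => cls_mem (Finset.ne_of_mem_erase hx))]
        _ ≤ V := by
            have := hQ
            simp only [en] at this
            rw [hV]
            nlinarith
    -- mean of the square of b
    have hb : ∀ ξ, EB (cl n) (1 / 2) (fun M => b M ξ ^ 2) ≤ B := by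
      intro ξ
      set s : ℝ := κ / V with hs
      have hs0 : 0 < s := by positivity
      have h1 : EB (cl n) (1 / 2) (fun M => b M ξ ^ 2) ≤
          EB (cl n) (1 / 2) (fun M => 2 / s ^ 2 * Real.exp (-(s * κ)) *
            Real.exp (nz (cl n) (fun i => s * c ξ i) M)) := by
        apply EB_mono (by norm_num) (by norm_num)
        intro M _
        refine (sq_le_exp hs0).trans (le_of_eq ?_)
        rw [mul_assoc, ← Real.exp_add, nz_smul, hnz]
        congr 2
        ring
      rw [EB_mul_left] at h1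
      have h2 := mgf (cl n) (fun i => s * c ξ i)
      have h3 : (∑ i ∈ cl n, (s * c ξ i) ^ 2) / 2 ≤ s ^ 2 * V / 2 := by
        have h4 : ∑ i ∈ cl n, (s * c ξ i) ^ 2 = s ^ 2 * ∑ i ∈ cl n, c ξ i ^ 2 := by
          rw [Finset.mul_sum]
          exact Finset.sum_congr rfl fun i _ => by ring
        rw [h4]
        have := hc ξ
        gcongr
      have h5 : EB (cl n) (1 / 2) (fun M => Real.exp (nz (cl n) (fun i => s * c ξ i) M)) ≤
          Real.exp (s ^ 2 * V / 2) := h2.trans (Real.exp_le_exp.2 h3)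
      refine h1.trans ?_
      have h6 : 2 / s ^ 2 * Real.exp (-(s * κ)) *
          EB (cl n) (1 / 2) (fun M => Real.exp (nz (cl n) (fun i => s * c ξ i) M)) ≤
          2 / s ^ 2 * Real.exp (-(s * κ)) * Real.exp (s ^ 2 * V / 2) := by
        gcongr
      refine h6.trans (le_of_eq ?_)
      rw [mul_assoc, ← Real.exp_add, hB]
      have h7 : -(s * κ) + s ^ 2 * V / 2 = -(κ ^ 2 / (4 * r * R)) := by
        rw [hs, hV]
        field_simp
        ring
      have h8 : 2 / s ^ 2 = 8 * e * R ^ 2 / κ ^ 2 := by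
        rw [hs, hV, ← hre]
        field_simp
        ring
      rw [h7, h8]
    have hmean : EB (cl n) (1 / 2) (fun M => (∑ ξ, b M ξ ^ 2) / n) ≤ B := by
      have h1 : EB (cl n) (1 / 2) (fun M => (∑ ξ, b M ξ ^ 2) / n) =
          (1 / (n : ℝ)) * ∑ ξ, EB (cl n) (1 / 2) (fun M => b M ξ ^ 2) := by
        rw [← EB_sum, ← EB_mul_left]
        apply EB_congr
        intro M _
        ring
      rw [h1]
      have h2 : ∑ ξ : ZMod n, EB (cl n) (1 / 2) (fun M => b M ξ ^ 2) ≤ n * B := by
        calc ∑ ξ : ZMod n, EB (cl n) (1 / 2) (fun M => b M ξ ^ 2) ≤ ∑ _ξ : ZMod n, B :=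
              Finset.sum_le_sum fun ξ _ => hb ξ
          _ = n * B := by simp [ZMod.card]
      rw [one_div, inv_mul_le_iff₀ hn]
      exact h2
    have hmk := EB_markov (I := cl n) (p := 1 / 2) (by norm_num) (by norm_num)
      (f := fun M => (∑ ξ, b M ξ ^ 2) / n)
      (fun M _ => div_nonneg (Finset.sum_nonneg fun ξ _ => sq_nonneg _) hn.le) hδ
    refine (EB_bad_mono (by norm_num) (by norm_num) ?_).trans
      (hmk.trans (div_le_div_of_nonneg_right hmean hδ.le))
    intro M _ hM
    refine ⟨f₁ M, fun ξ => |ct g ξ| + b M ξ, ?_, ?_, ?_, ?_, ?_, ?_, ?_⟩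
    · intro x
      simp only [f₁, neg_eq_zero, cls_neg, hev]
    · intro ξ
      simp only [b, ct_even]
    · intro ξ
      exact add_nonneg (abs_nonneg _) (le_max_right _ _)
    · intro x hx hx2
      simp only [f₁, if_neg hx]
      rw [Finset.mem_sdiff, Finset.mem_inter, not_and, not_not] at hx2
      by_cases h1 : cls x ∈ T
      · rw [if_pos h1, if_pos (hx2 h1).1, if_pos (hx2 h1).2]
      · rw [if_neg h1]
    · simp [f₁]
    · intro ξ
      have h1 : ct f ξ = ct (f₁ M) ξ + ct g ξ + ct (h M) ξ := by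
        unfold ct
        rw [← Finset.sum_add_distrib, ← Finset.sum_add_distrib]
        apply Finset.sum_congr rfl
        intro x _
        rw [← add_mul, ← add_mul]
        congr 1
        simp only [f₁, g, h, Finset.mem_inter]
        by_cases hx : x = 0
        · simp [hx]
        · simp only [if_neg hx]
          by_cases h1 : cls x ∈ T <;> by_cases h2 : cls x ∈ Q <;> by_cases h3 : cls x ∈ M <;>
            simp [h1, h2, h3]
          ring
      have h2 : ct (h M) ξ - κ ≤ b M ξ := le_max_left _ _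
      have h3 := le_abs_self (ct g ξ)
      simp only
      linarith
    · have h1 : ∑ ξ, (|ct g ξ| + b M ξ) ^ 2 ≤ 2 * ∑ ξ, ct g ξ ^ 2 + 2 * ∑ ξ, b M ξ ^ 2 := by
        rw [Finset.mul_sum, Finset.mul_sum, ← Finset.sum_add_distrib]
        apply Finset.sum_le_sum
        intro ξ _
        have := sq_abs (ct g ξ)
        nlinarith [sq_nonneg (|ct g ξ| - b M ξ)]
      have h2 : ∑ ξ, ct g ξ ^ 2 = n * ∑ x, g x ^ 2 := by
        have := ct_parseval g g hg_ev
        simp_rw [← pow_two] at this
        exact this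
      have h3 : ∑ x, g x ^ 2 ≤ β := by
        refine le_trans (le_of_eq ?_) hfβ
        rw [← Finset.add_sum_erase _ _ (Finset.mem_univ (0 : ZMod n))]
        have : g 0 = 0 := by simp [g]
        rw [this]
        simp only [ne_eq, OfNat.ofNat_ne_zero, not_false_eq_true, zero_pow, zero_add]
        apply Finset.sum_congr rfl
        intro x hx
        have hx0 : x ≠ 0 := Finset.ne_of_mem_erase hx
        simp only [g, if_neg hx0]
        split_ifs <;> simp
      have h4 : ∑ ξ, b M ξ ^ 2 ≤ δ * n := (div_le_iff₀ hn).1 hM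
      rw [div_le_iff₀ hn]
      simp only
      nlinarith
  -- outer average
  have hout : EB (cl n) e (fun Q => bad (en Q ≤ r * R)) ≤ r := by
    have h1 := EB_markov (I := cl n) (p := e) he.le he1 (f := en)
      (fun Q _ => Finset.sum_nonneg fun x _ => by split_ifs <;> positivity)
      (show 0 < r * R by positivity)
    refine h1.trans ?_
    have h2 : EB (cl n) e en ≤ e * R := by
      have h3 : EB (cl n) e en = ∑ x ∈ univ.erase (0 : ZMod n), e * f x ^ 2 := by
        have h4 : EB (cl n) e en = ∑ x ∈ univ.erase (0 : ZMod n),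
            EB (cl n) e (fun Q => if cls x ∈ Q then f x ^ 2 else 0) := by
          rw [← EB_sum]
        rw [h4]
        apply Finset.sum_congr rfl
        intro x hx
        exact EB_mem (cls_mem (Finset.ne_of_mem_erase hx)) _ _
      rw [h3, ← Finset.mul_sum]
      gcongr
    rw [div_le_iff₀ (by positivity)]
    calc EB (cl n) e en ≤ e * R := h2
      _ = r * (r * R) := by rw [← hre]; ring
  calc _ ≤ EB (cl n) e (fun Q => bad (en Q ≤ r * R) + B / δ) := by
        apply EB_mono he.le he1
        intro Q _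
        by_cases hQ : en Q ≤ r * R
        · rw [bad_of hQ, zero_add]
          exact key Q hQ
        · rw [bad_of_not hQ]
          have h1 : EB (cl n) (1 / 2) (fun M => bad (∃ f₁ D : ZMod n → ℝ,
              (∀ x, f₁ (-x) = f₁ x) ∧ (∀ ξ, D (-ξ) = D ξ) ∧ (∀ ξ, 0 ≤ D ξ) ∧
              (∀ x, x ≠ 0 → cls x ∉ T \ (Q ∩ M) → f₁ x = 0) ∧ f₁ 0 = f 0 ∧
              (∀ ξ, ct f ξ ≤ ct f₁ ξ + κ + D ξ) ∧ (∑ ξ, D ξ ^ 2) / n ≤ 2 * β + 2 * δ)) ≤
              EB (cl n) (1 / 2) (fun _ => (1 : ℝ)) :=
            EB_mono (by norm_num) (by norm_num) fun M _ => bad_le_one _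
          rw [EB_const] at h1
          have h2 : 0 ≤ B / δ := div_nonneg hB0 hδ.le
          linarith
    _ = EB (cl n) e (fun Q => bad (en Q ≤ r * R)) + B / δ := by
        rw [EB_add, EB_const]
    _ ≤ r + B / δ := by gcongr

end Pool.Agent.Th2c
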