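import Pool.Agent.Work.MP_2c2d16_pr.EB

/-!
Final assembly: from the near-optimal positive definite function (amp), thinning, cleaning and the
two semidefinite bounds to the asymptotics of the expectation.
-/

set_option autoImplicit false

namespace Pool.Agent.Th2c

open Finset Filter Topology
open scoped Finset

/-! ### the hypotheses (all proved in other modules) -/

def ThetaLower : Prop := ∀ (N : ℕ) (S : Finset ℕ) (f : ZMod (N + 1) → ℝ),
    (∀ x, f (-x) = f x) → (∀ x, x ≠ 0 → cls x ∈ S → f x = 0) →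
    (∀ ξ, 0 ≤ ct f ξ) → 0 < f 0 → ct f 0 / f 0 ≤ theta (N + 1) S

def ThetaUpper : Prop := ∀ (N : ℕ) (S : Finset ℕ) (g : ZMod (N + 1) → ℝ),
    (∀ x, g (-x) = g x) → (∀ x, x ≠ 0 → cls x ∉ S → g x = 0) →
    (∀ ξ, 0 ≤ ct g ξ) → 0 < g 0 → 0 < ct g 0 →
    theta (N + 1) S ≤ (N + 1 : ℕ) * g 0 / ct g 0

def ThetaNonneg : Prop := ∀ (N : ℕ) (S : Finset ℕ), 0 ≤ theta (N + 1) S
def ThetaLe : Prop := ∀ (N : ℕ) (S : Finset ℕ), theta (N + 1) S ≤ (N + 1 : ℕ)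

def Cleaning : Prop := ∀ (N : ℕ) (D : ZMod (N + 1) → ℝ), (∀ ξ, D (-ξ) = D ξ) →
    ∀ (l η κ : ℝ), 0 ≤ l → 0 < η → η ≤ 1 → 0 < κ →
    (∑ ξ, D ξ ^ 2) / (N + 1 : ℕ) ≤ l ^ 2 →
    EB (cl (N + 1)) η (fun Q => bad (∃ k : ZMod (N + 1) → ℝ, (∀ x, k (-x) = k x) ∧
      (∀ x, x ≠ 0 → cls x ∉ Q → k x = 0) ∧ (∀ ξ, D ξ ≤ ct k ξ) ∧ k 0 ≤ κ))
    ≤ 2 ^ 18 * l ^ 2 / (η ^ 3 * κ ^ 2)

def Thinning : Prop := ∀ (N : ℕ) (f : ZMod (N + 1) → ℝ), (∀ x, f (-x) = f x) →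
    ∀ (T : Finset ℕ) (R β e κ δ : ℝ), 0 < R → 0 < e → e ≤ 1 → 0 < κ → 0 < δ →
    ∑ x ∈ univ.erase (0 : ZMod (N + 1)), f x ^ 2 ≤ R →
    ∑ x ∈ univ.erase (0 : ZMod (N + 1)), (if cls x ∈ T then 0 else f x ^ 2) ≤ β →
    EB (cl (N + 1)) e (fun Q => EB (cl (N + 1)) (1 / 2) (fun M => bad (∃ f₁ D : ZMod (N + 1) → ℝ,
      (∀ x, f₁ (-x) = f₁ x) ∧ (∀ ξ, D (-ξ) = D ξ) ∧ (∀ ξ, 0 ≤ D ξ) ∧
      (∀ x, x ≠ 0 → cls x ∉ T \ (Q ∩ M) → f₁ x = 0) ∧ f₁ 0 = f 0 ∧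
      (∀ ξ, ct f ξ ≤ ct f₁ ξ + κ + D ξ) ∧
      (∑ ξ, D ξ ^ 2) / (N + 1 : ℕ) ≤ 2 * β + 2 * δ)))
    ≤ Real.sqrt e + 8 * e * R ^ 2 / κ ^ 2 * Real.exp (-(κ ^ 2 / (4 * Real.sqrt e * R))) / δ

def Amp : Prop := ∃ R : ℝ, ∀ δ : ℝ, 0 < δ → ∃ N₀ : ℕ, ∀ N : ℕ, N₀ ≤ N →
    EB (cl (N + 1)) (1 / 2) (fun T => bad (∃ f : ZMod (N + 1) → ℝ,
      (∀ x, f (-x) = f x) ∧ (∀ ξ, 0 ≤ ct f ξ) ∧ f 0 ≤ 1 ∧
      (1 - δ) * Real.sqrt (N + 1 : ℕ) ≤ ct f 0 ∧
      ∑ x ∈ univ.erase (0 : ZMod (N + 1)), f x ^ 2 ≤ R ∧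
      ∑ x ∈ univ.erase (0 : ZMod (N + 1)), (if cls x ∈ T then 0 else f x ^ 2) ≤ δ)) ≤ δ

/-- the good event: a near-optimal positive definite function supported on zero and T -/
def Good (ε : ℝ) (N : ℕ) (T : Finset ℕ) : Prop := ∃ f : ZMod (N + 1) → ℝ,
  (∀ x, f (-x) = f x) ∧ (∀ x, x ≠ 0 → cls x ∉ T → f x = 0) ∧ (∀ ξ, 0 ≤ ct f ξ) ∧
  0 < f 0 ∧ (1 - ε) * Real.sqrt (N + 1 : ℕ) * f 0 ≤ ct f 0

/-- resampling decomposition of a fair subset -/
lemma EB_split (I : Finset ℕ) (e : ℝ) (he : 0 < e) (g : Finset ℕ → ℝ) :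
    EB I (1 / 2) g = EB I (1 / 2) (fun T => EB I e (fun Q => EB I (1 / 2) (fun M =>
      EB I (e / 2 / (1 + e / 2)) (fun W => g ((T \ (Q ∩ M)) ∪ W))))) := by
  have h1 : EB I (1 / 2) g = EB I ((1 / 2) * (1 - e / 2)) (fun A =>
      EB I (e / 2 / (1 + e / 2)) (fun W => g (A ∪ W))) := by
    rw [EB_or]
    congr 1
    field_simp
    ring
  rw [h1, ← EB_sdiff]
  apply EB_congr
  intro T hT
  have h2 := EB_inter I e (1 / 2) (fun B => EB I (e / 2 / (1 + e / 2)) (fun W => g ((T \ B) ∪ W)))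
  rw [show e * (1 / 2) = e / 2 by ring] at h2
  rw [h2]

/-- existence of a good thinning density -/
lemma exists_e (R κ ε : ℝ) (hR : 0 < R) (hκ : 0 < κ) (hε : 0 < ε) :
    ∃ e : ℝ, 0 < e ∧ e ≤ 1 ∧ Real.sqrt e ≤ ε ∧
      8 * e * R ^ 2 / κ ^ 2 * Real.exp (-(κ ^ 2 / (4 * Real.sqrt e * R))) / (ε * e ^ 3) ≤ ε := by
  -- put e = 1/s^2, s large
  have h1 : Tendsto (fun s : ℝ => s ^ 4 * Real.exp (-(κ ^ 2 / (4 * R)) * s)) atTop (𝓝 0) := by
    have h := Real.tendsto_pow_mul_exp_neg_atTop_nhds_zero 4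
    have hc : 0 < κ ^ 2 / (4 * R) := by positivity
    have h2 : Tendsto (fun s : ℝ => (κ ^ 2 / (4 * R)) * s) atTop atTop :=
      tendsto_id.const_mul_atTop hc
    have h3 := (h.comp h2).const_mul ((κ ^ 2 / (4 * R)) ^ 4)⁻¹
    rw [mul_zero] at h3
    refine h3.congr (fun s => ?_)
    simp only [Function.comp]
    rw [mul_pow]
    have : ((κ ^ 2 / (4 * R)) ^ 4 : ℝ) ≠ 0 := by positivity
    field_simp
  have h2 := h1.const_mul (8 * R ^ 2 / κ ^ 2 / ε)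
  rw [mul_zero] at h2
  have h3 : ∀ᶠ s : ℝ in atTop, 8 * R ^ 2 / κ ^ 2 / ε * (s ^ 4 * Real.exp (-(κ ^ 2 / (4 * R)) * s)) < ε :=
    h2.eventually (gt_mem_nhds hε)
  obtain ⟨s, hs3, hs1, hs2⟩ := (h3.and ((eventually_ge_atTop 1).and (eventually_ge_atTop (1 / ε)))).exists
  have hs0 : 0 < s := by linarith
  refine ⟨1 / s ^ 2, by positivity, ?_, ?_, ?_⟩
  · rw [div_le_one (by positivity)]; nlinarith
  · rw [Real.sqrt_div zero_le_one, Real.sqrt_one, Real.sqrt_sq hs0.le]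
    rw [div_le_iff₀ hs0]
    rw [div_le_iff₀ hε] at hs2
    linarith
  · have h4 : Real.sqrt (1 / s ^ 2) = 1 / s := by
      rw [Real.sqrt_div zero_le_one, Real.sqrt_one, Real.sqrt_sq hs0.le]
    rw [h4]
    have h5 : -(κ ^ 2 / (4 * (1 / s) * R)) = -(κ ^ 2 / (4 * R)) * s := by
      field_simp
    rw [h5]
    refine le_of_eq_of_le ?_ hs3.le
    field_simp

lemma pos_of_ct {n : ℕ} [NeZero n] (k : ZMod n → ℝ) (hke : ∀ x, k (-x) = k x)
    (hpos : ∀ ξ, 0 ≤ ct k ξ) (h1 : 0 < ct k 0) : 0 < k 0 := by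
  have hn : (0 : ℝ) < n := Nat.cast_pos.mpr (Nat.pos_of_ne_zero (NeZero.ne n))
  have h := ict_ct k hke 0
  rw [ict_zero_right] at h
  rw [← h]
  apply div_pos _ hn
  exact lt_of_lt_of_le h1
    (Finset.single_le_sum (f := fun ξ => ct k ξ) (fun ξ _ => hpos ξ) (Finset.mem_univ 0))

theorem good_whp (hamp : Amp) (hth : Thinning) (hcl : Cleaning) (ε : ℝ) (hε : 0 < ε)
    (hε1 : ε ≤ 1 / 2) :
    ∃ N₀ : ℕ, ∀ N : ℕ, N₀ ≤ N →
      EB (cl (N + 1)) (1 / 2) (fun T => bad (Good ε N T)) ≤ ε := by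
  obtain ⟨R₀, hR₀⟩ := hamp
  set R : ℝ := max R₀ 1 with hRdef
  have hR : 0 < R := lt_of_lt_of_le one_pos (le_max_right _ _)
  set κ : ℝ := ε / 8 with hκdef
  have hκ : 0 < κ := by positivity
  -- ε' controls the thinning failure; δ₂ = ε' e^3
  set ε' : ℝ := min (ε / 8) (ε * κ ^ 2 / (2 ^ 19 * 27 * 8)) with hε'
  have hε'0 : 0 < ε' := lt_min (by positivity) (by positivity)
  obtain ⟨e, he, he1, hse, hexp⟩ := exists_e R κ ε' hR hκ hε'0
  set η : ℝ := e / 2 / (1 + e / 2) with hη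
  have hη0 : 0 < η := by positivity
  have hη3 : e / 3 ≤ η := by
    rw [hη, div_le_div_iff₀ (by norm_num) (by positivity)]
    nlinarith
  have hη1 : η ≤ 1 := by
    rw [hη, div_le_one (by positivity)]; linarith
  set δ₂ : ℝ := ε' * e ^ 3 with hδ₂
  have hδ₂0 : 0 < δ₂ := by positivity
  set δ₁ : ℝ := min (ε / 8) (ε' * e ^ 3) with hδ₁
  have hδ₁0 : 0 < δ₁ := lt_min (by positivity) (by positivity)
  obtain ⟨N₀, hN₀⟩ := hR₀ δ₁ hδ₁0
  refine ⟨N₀, fun N hN => ?_⟩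
  have hampN := hN₀ N hN
  set I := cl (N + 1) with hI
  have hhalf0 : (0 : ℝ) ≤ 1 / 2 := by norm_num
  have hhalf1 : (1 / 2 : ℝ) ≤ 1 := by norm_num
  -- the cleaning failure
  set γ : ℝ := ε / 8 + ε / 8 with hγ
  have hκη : 0 < η ^ 3 * κ ^ 2 := by positivity
  have hclean : ∀ D : ZMod (N + 1) → ℝ, (∀ ξ, D (-ξ) = D ξ) →
      (∑ ξ, D ξ ^ 2) / (N + 1 : ℕ) ≤ 2 * δ₁ + 2 * δ₂ →
      EB I η (fun Q => bad (∃ k : ZMod (N + 1) → ℝ, (∀ x, k (-x) = k x) ∧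
      (∀ x, x ≠ 0 → cls x ∉ Q → k x = 0) ∧ (∀ ξ, D ξ ≤ ct k ξ) ∧ k 0 ≤ κ)) ≤ γ := by
    intro D hD hDe
    have h1 := hcl N D hD (Real.sqrt (2 * δ₁ + 2 * δ₂)) η κ (Real.sqrt_nonneg _) hη0 hη1 hκ
      (by rw [Real.sq_sqrt (by positivity)]; exact hDe)
    refine h1.trans ?_
    rw [Real.sq_sqrt (by positivity), div_le_iff₀ hκη]
    have h2 : δ₁ ≤ ε' * e ^ 3 := min_le_right _ _
    have h3 : ε' ≤ ε * κ ^ 2 / (2 ^ 19 * 27 * 8) := min_le_right _ _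
    have h4 : (e / 3) ^ 3 ≤ η ^ 3 := pow_le_pow_left₀ (by positivity) hη3 3
    have h5 : ε' * e ^ 3 ≤ ε * κ ^ 2 / (2 ^ 19 * 27 * 8) * e ^ 3 :=
      mul_le_mul_of_nonneg_right h3 (by positivity)
    have h6 : ε * κ ^ 2 * (e / 3) ^ 3 ≤ ε * κ ^ 2 * η ^ 3 :=
      mul_le_mul_of_nonneg_left h4 (by positivity)
    have h7 : 2 ^ 18 * (2 * δ₁ + 2 * δ₂) ≤ 2 ^ 20 * (ε * κ ^ 2 / (2 ^ 19 * 27 * 8) * e ^ 3) := by
      rw [hδ₂]
      nlinarith
    have h8 : 2 ^ 20 * (ε * κ ^ 2 / (2 ^ 19 * 27 * 8) * e ^ 3) = (1 / 4) * (ε * κ ^ 2 * (e / 3) ^ 3) := by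
      ring
    rw [hγ]
    nlinarith
  rw [EB_split I e he]
  -- pointwise bound in T
  have hpt : ∀ T, T ⊆ I → EB I e (fun Q => EB I (1 / 2) (fun M =>
      EB I (e / 2 / (1 + e / 2)) (fun W => bad (Good ε N ((T \ (Q ∩ M)) ∪ W))))) ≤
      (γ + 2 * ε') + bad (∃ f : ZMod (N + 1) → ℝ,
      (∀ x, f (-x) = f x) ∧ (∀ ξ, 0 ≤ ct f ξ) ∧ f 0 ≤ 1 ∧
      (1 - δ₁) * Real.sqrt (N + 1 : ℕ) ≤ ct f 0 ∧
      ∑ x ∈ univ.erase (0 : ZMod (N + 1)), f x ^ 2 ≤ R₀ ∧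
      ∑ x ∈ univ.erase (0 : ZMod (N + 1)), (if cls x ∈ T then 0 else f x ^ 2) ≤ δ₁) := by
    intro T hT
    by_cases hP : ∃ f : ZMod (N + 1) → ℝ,
      (∀ x, f (-x) = f x) ∧ (∀ ξ, 0 ≤ ct f ξ) ∧ f 0 ≤ 1 ∧
      (1 - δ₁) * Real.sqrt (N + 1 : ℕ) ≤ ct f 0 ∧
      ∑ x ∈ univ.erase (0 : ZMod (N + 1)), f x ^ 2 ≤ R₀ ∧
      ∑ x ∈ univ.erase (0 : ZMod (N + 1)), (if cls x ∈ T then 0 else f x ^ 2) ≤ δ₁
    · rw [bad_of hP, add_zero]
      obtain ⟨f, hfe, hfp, hf0, hfv, hfR, hfβ⟩ := hP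
      have hthin := hth N f hfe T R δ₁ e κ δ₂ hR he he1 hκ hδ₂0 (hfR.trans (le_max_left _ _)) hfβ
      have hthin2 : Real.sqrt e + 8 * e * R ^ 2 / κ ^ 2 *
          Real.exp (-(κ ^ 2 / (4 * Real.sqrt e * R))) / δ₂ ≤ 2 * ε' := by
        have := hexp
        rw [hδ₂]; linarith
      have hstep : EB I e (fun Q => EB I (1 / 2) (fun M =>
          EB I (e / 2 / (1 + e / 2)) (fun W => bad (Good ε N ((T \ (Q ∩ M)) ∪ W))))) ≤
          EB I e (fun Q => EB I (1 / 2) (fun M => γ + bad (∃ f₁ D : ZMod (N + 1) → ℝ,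
            (∀ x, f₁ (-x) = f₁ x) ∧ (∀ ξ, D (-ξ) = D ξ) ∧ (∀ ξ, 0 ≤ D ξ) ∧
            (∀ x, x ≠ 0 → cls x ∉ T \ (Q ∩ M) → f₁ x = 0) ∧ f₁ 0 = f 0 ∧
            (∀ ξ, ct f ξ ≤ ct f₁ ξ + κ + D ξ) ∧
            (∑ ξ, D ξ ^ 2) / (N + 1 : ℕ) ≤ 2 * δ₁ + 2 * δ₂))) := by
        apply EB_mono he.le he1
        intro Q hQ
        apply EB_mono hhalf0 hhalf1
        intro M hM
        by_cases hP2 : ∃ f₁ D : ZMod (N + 1) → ℝ,
            (∀ x, f₁ (-x) = f₁ x) ∧ (∀ ξ, D (-ξ) = D ξ) ∧ (∀ ξ, 0 ≤ D ξ) ∧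
            (∀ x, x ≠ 0 → cls x ∉ T \ (Q ∩ M) → f₁ x = 0) ∧ f₁ 0 = f 0 ∧
            (∀ ξ, ct f ξ ≤ ct f₁ ξ + κ + D ξ) ∧
            (∑ ξ, D ξ ^ 2) / (N + 1 : ℕ) ≤ 2 * δ₁ + 2 * δ₂
        · rw [bad_of hP2, add_zero]
          obtain ⟨f₁, D, hf1e, hDe, hD0, hf1s, hf10, hf1D, hDen⟩ := hP2
          refine le_trans ?_ (hclean D hDe hDen)
          apply EB_bad_mono hη0.le hη1
          rintro W hW ⟨k, hke, hks, hkD, hk0⟩
          have hct : ∀ ξ, ct (fun x => f₁ x + (κ * dl x + k x)) ξ = ct f₁ ξ + (κ + ct k ξ) := by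
            intro ξ
            rw [ct_add, ct_add, ct_mul_left, ct_dl, mul_one]
          have hge : ∀ ξ, ct f ξ ≤ ct (fun x => f₁ x + (κ * dl x + k x)) ξ := by
            intro ξ
            rw [hct]
            have h1 := hf1D ξ
            have h2 := hkD ξ
            linarith
          have hpos : ∀ ξ, 0 ≤ ct (fun x => f₁ x + (κ * dl x + k x)) ξ := fun ξ =>
            (hfp ξ).trans (hge ξ)
          have hev : ∀ x, (fun x => f₁ x + (κ * dl x + k x)) (-x) =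
              (fun x => f₁ x + (κ * dl x + k x)) x := by
            intro x
            simp only [hf1e, hke, dl, neg_eq_zero]
          have hsq : 0 < Real.sqrt ((N + 1 : ℕ) : ℝ) := Real.sqrt_pos.mpr (by positivity)
          have hδ8 : δ₁ ≤ ε / 8 := min_le_left _ _
          have hct0 : (1 - δ₁) * Real.sqrt (N + 1 : ℕ) ≤
              ct (fun x => f₁ x + (κ * dl x + k x)) 0 := hfv.trans (hge 0)
          have hct0pos : 0 < ct (fun x => f₁ x + (κ * dl x + k x)) 0 := by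
            refine lt_of_lt_of_le ?_ hct0
            apply mul_pos _ hsq
            linarith
          have hval0 : (fun x => f₁ x + (κ * dl x + k x)) 0 = f 0 + (κ + k 0) := by
            simp [dl, hf10]
          refine ⟨fun x => f₁ x + (κ * dl x + k x), hev, ?_, hpos, ?_, ?_⟩
          · intro x hx hcl
            rw [Finset.notMem_union] at hcl
            simp only [hf1s x hx hcl.1, hks x hx hcl.2, dl, hx, if_false, mul_zero, add_zero]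
          · exact pos_of_ct _ hev hpos hct0pos
          · rw [hval0]
            have h1 : f 0 + (κ + k 0) ≤ 1 + 2 * κ := by linarith
            have h2 : (1 - ε) * Real.sqrt (N + 1 : ℕ) * (f 0 + (κ + k 0)) ≤
                (1 - ε) * Real.sqrt (N + 1 : ℕ) * (1 + 2 * κ) := by
              apply mul_le_mul_of_nonneg_left h1
              apply mul_nonneg _ hsq.le
              linarith
            refine h2.trans (le_trans ?_ hct0)
            have h3 : (1 - ε) * (1 + 2 * κ) ≤ 1 - δ₁ := by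
              rw [hκdef]; nlinarith
            nlinarith
        · rw [bad_of_not hP2]
          have h1 : EB I (e / 2 / (1 + e / 2)) (fun W => bad (Good ε N ((T \ (Q ∩ M)) ∪ W))) ≤ 1 := by
            have := EB_mono (I := I) hη0.le hη1 (f := fun W => bad (Good ε N ((T \ (Q ∩ M)) ∪ W)))
              (g := fun _ => 1) (fun S _ => bad_le_one _)
            rwa [EB_const] at this
          have : 0 ≤ γ := by positivity
          linarith
      refine hstep.trans ?_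
      have h9 : EB I e (fun Q => EB I (1 / 2) (fun M => γ + bad (∃ f₁ D : ZMod (N + 1) → ℝ,
            (∀ x, f₁ (-x) = f₁ x) ∧ (∀ ξ, D (-ξ) = D ξ) ∧ (∀ ξ, 0 ≤ D ξ) ∧
            (∀ x, x ≠ 0 → cls x ∉ T \ (Q ∩ M) → f₁ x = 0) ∧ f₁ 0 = f 0 ∧
            (∀ ξ, ct f ξ ≤ ct f₁ ξ + κ + D ξ) ∧
            (∑ ξ, D ξ ^ 2) / (N + 1 : ℕ) ≤ 2 * δ₁ + 2 * δ₂))) = γ +
            EB I e (fun Q => EB I (1 / 2) (fun M => bad (∃ f₁ D : ZMod (N + 1) → ℝ,
            (∀ x, f₁ (-x) = f₁ x) ∧ (∀ ξ, D (-ξ) = D ξ) ∧ (∀ ξ, 0 ≤ D ξ) ∧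
            (∀ x, x ≠ 0 → cls x ∉ T \ (Q ∩ M) → f₁ x = 0) ∧ f₁ 0 = f 0 ∧
            (∀ ξ, ct f ξ ≤ ct f₁ ξ + κ + D ξ) ∧
            (∑ ξ, D ξ ^ 2) / (N + 1 : ℕ) ≤ 2 * δ₁ + 2 * δ₂))) := by
        rw [← EB_const I e γ, ← EB_add]
        apply EB_congr
        intro Q hQ
        rw [EB_const I e γ]
        conv_rhs => rw [← EB_const I (1 / 2) γ, ← EB_add]
      rw [h9]
      linarith [hthin, hthin2]
    · rw [bad_of_not hP]
      have h1 : EB I e (fun Q => EB I (1 / 2) (fun M =>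
          EB I (e / 2 / (1 + e / 2)) (fun W => bad (Good ε N ((T \ (Q ∩ M)) ∪ W))))) ≤ 1 := by
        have h2 := EB_mono (I := I) he.le he1 (f := fun Q => EB I (1 / 2) (fun M =>
          EB I (e / 2 / (1 + e / 2)) (fun W => bad (Good ε N ((T \ (Q ∩ M)) ∪ W)))))
          (g := fun _ => 1) (fun Q _ => by
            have h3 := EB_mono (I := I) hhalf0 hhalf1 (f := fun M =>
              EB I (e / 2 / (1 + e / 2)) (fun W => bad (Good ε N ((T \ (Q ∩ M)) ∪ W))))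
              (g := fun _ => 1) (fun M _ => by
                have h4 := EB_mono (I := I) hη0.le hη1 (f := fun W => bad (Good ε N ((T \ (Q ∩ M)) ∪ W)))
                  (g := fun _ => 1) (fun S _ => bad_le_one _)
                rwa [EB_const] at h4)
            rwa [EB_const] at h3)
        rwa [EB_const] at h2
      have : 0 ≤ γ + 2 * ε' := by positivity
      linarith
  refine (EB_mono hhalf0 hhalf1 hpt).trans ?_
  rw [EB_add, EB_const]
  have h10 : ε' ≤ ε / 8 := min_le_left _ _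
  have h11 : δ₁ ≤ ε / 8 := min_le_left _ _
  rw [hγ]
  linarith [hampN]

/-- crude tail bound -/
theorem tail_bound (hcl : Cleaning) (hup : ThetaUpper) (N : ℕ) (t : ℝ) (ht : 0 < t) :
    EB (cl (N + 1)) (1 / 2) (fun S => bad (theta (N + 1) S ≤ t * Real.sqrt (N + 1 : ℕ)))
      ≤ 2 ^ 21 / t ^ 2 := by
  have hn : (0 : ℝ) < ((N + 1 : ℕ) : ℝ) := by positivity
  have hsq : 0 < Real.sqrt ((N + 1 : ℕ) : ℝ) := Real.sqrt_pos.mpr hn
  have hss : Real.sqrt ((N + 1 : ℕ) : ℝ) * Real.sqrt ((N + 1 : ℕ) : ℝ) = ((N + 1 : ℕ) : ℝ) :=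
    Real.mul_self_sqrt hn.le
  have h := hcl N (fun ξ => Real.sqrt (N + 1 : ℕ) * dl ξ) (fun ξ => by simp [dl]) 1 (1 / 2) t
    zero_le_one (by norm_num) (by norm_num) ht (by
      have : ∑ ξ : ZMod (N + 1), (Real.sqrt (N + 1 : ℕ) * dl ξ) ^ 2 = ((N + 1 : ℕ) : ℝ) := by
        have h0 : ∀ ξ : ZMod (N + 1), (Real.sqrt (N + 1 : ℕ) * dl ξ) ^ 2 =
            if ξ = 0 then ((N + 1 : ℕ) : ℝ) else 0 := by
          intro ξ
          unfold dl
          split_ifs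
          · rw [mul_one, Real.sq_sqrt hn.le]
          · simp
        simp only [h0, Finset.sum_ite_eq', Finset.mem_univ, if_true]
      rw [this, div_self hn.ne', one_pow])
  refine le_trans (EB_bad_mono (by norm_num) (by norm_num) ?_) (h.trans (le_of_eq ?_))
  · rintro S hS ⟨k, hke, hks, hkD, hk0⟩
    have hpos : ∀ ξ, 0 ≤ ct k ξ := fun ξ => le_trans (by unfold dl; positivity) (hkD ξ)
    have h1 : Real.sqrt (N + 1 : ℕ) ≤ ct k 0 := by
      have := hkD 0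
      simpa [dl] using this
    have h1' : 0 < ct k 0 := lt_of_lt_of_le hsq h1
    have hk0pos : 0 < k 0 := pos_of_ct k hke hpos h1'
    refine (hup N S k hke hks hpos hk0pos h1').trans ?_
    rw [div_le_iff₀ h1']
    have h2 : ((N + 1 : ℕ) : ℝ) * k 0 ≤ ((N + 1 : ℕ) : ℝ) * t := mul_le_mul_of_nonneg_left hk0 hn.le
    have h3 : t * Real.sqrt (N + 1 : ℕ) * Real.sqrt (N + 1 : ℕ) ≤ t * Real.sqrt (N + 1 : ℕ) * ct k 0 :=
      mul_le_mul_of_nonneg_left h1 (by positivity)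
    calc ((N + 1 : ℕ) : ℝ) * k 0 ≤ ((N + 1 : ℕ) : ℝ) * t := h2
      _ = t * Real.sqrt (N + 1 : ℕ) * Real.sqrt (N + 1 : ℕ) := by rw [mul_assoc, hss]; ring
      _ ≤ _ := h3
  · field_simp

/-- dyadic decomposition of the excess -/
lemma excess_dyadic (X M : ℝ) (hM : 0 < M) (J : ℕ) :
    min X (2 ^ J * M) ≤ M + ∑ j ∈ Finset.range J, 2 ^ j * M * bad (X ≤ 2 ^ j * M) := by
  induction J with
  | zero => simp
  | succ J ih =>
    rw [Finset.sum_range_succ]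
    have h : min X (2 ^ (J + 1) * M) ≤ min X (2 ^ J * M) + 2 ^ J * M * bad (X ≤ 2 ^ J * M) := by
      by_cases hX : X ≤ 2 ^ J * M
      · rw [bad_of hX, mul_zero, add_zero, min_eq_left hX]
        exact min_le_left _ _
      · rw [bad_of_not hX]
        push Not at hX
        rw [min_eq_right hX.le, pow_succ]
        refine (min_le_right _ _).trans (le_of_eq ?_)
        ring
    linarith

theorem excess_bound (hcl : Cleaning) (hup : ThetaUpper) (hle : ThetaLe)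
    (N : ℕ) (M : ℝ) (hM : 0 < M) :
    EB (cl (N + 1)) (1 / 2) (fun S => max (theta (N + 1) S / Real.sqrt (N + 1 : ℕ) - M) 0)
      ≤ 2 ^ 22 / M := by
  have hn : (0 : ℝ) < ((N + 1 : ℕ) : ℝ) := by positivity
  have hsq : 0 < Real.sqrt ((N + 1 : ℕ) : ℝ) := Real.sqrt_pos.mpr hn
  obtain ⟨J, hJ⟩ : ∃ J : ℕ, ((N + 1 : ℕ) : ℝ) / Real.sqrt (N + 1 : ℕ) < 2 ^ J * M := by
    obtain ⟨J, hJ⟩ := pow_unbounded_of_one_lt (((N + 1 : ℕ) : ℝ) / Real.sqrt (N + 1 : ℕ) / M)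
      (one_lt_two (α := ℝ))
    exact ⟨J, by rwa [div_lt_iff₀ hM] at hJ⟩
  have hpt : ∀ S, S ⊆ cl (N + 1) → max (theta (N + 1) S / Real.sqrt (N + 1 : ℕ) - M) 0 ≤
      ∑ j ∈ Finset.range J, 2 ^ j * M *
        bad (theta (N + 1) S ≤ 2 ^ j * M * Real.sqrt (N + 1 : ℕ)) := by
    intro S _
    have h1 : theta (N + 1) S / Real.sqrt (N + 1 : ℕ) ≤ 2 ^ J * M := by
      refine le_trans ?_ hJ.le
      exact div_le_div_of_nonneg_right (hle N S) hsq.le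
    have h2 := excess_dyadic (theta (N + 1) S / Real.sqrt (N + 1 : ℕ)) M hM J
    rw [min_eq_left h1] at h2
    have h3 : ∀ j, bad (theta (N + 1) S / Real.sqrt (N + 1 : ℕ) ≤ 2 ^ j * M) =
        bad (theta (N + 1) S ≤ 2 ^ j * M * Real.sqrt (N + 1 : ℕ)) := by
      intro j
      rw [div_le_iff₀ hsq]
    simp only [h3] at h2
    apply max_le
    · linarith
    · apply Finset.sum_nonneg
      intro j _
      exact mul_nonneg (by positivity) (bad_nonneg _)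
  refine (EB_mono (by norm_num) (by norm_num) hpt).trans ?_
  rw [EB_sum]
  have h4 : ∀ j ∈ Finset.range J, EB (cl (N + 1)) (1 / 2) (fun S => 2 ^ j * M *
        bad (theta (N + 1) S ≤ 2 ^ j * M * Real.sqrt (N + 1 : ℕ))) ≤ 2 ^ 21 / M * (1 / 2) ^ j := by
    intro j _
    rw [EB_mul_left]
    have h5 := tail_bound hcl hup N (2 ^ j * M) (by positivity)
    calc 2 ^ j * M * EB (cl (N + 1)) (1 / 2) (fun S =>
          bad (theta (N + 1) S ≤ 2 ^ j * M * Real.sqrt (N + 1 : ℕ)))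
        ≤ 2 ^ j * M * (2 ^ 21 / (2 ^ j * M) ^ 2) := mul_le_mul_of_nonneg_left h5 (by positivity)
      _ = 2 ^ 21 / M * (1 / 2) ^ j := by
        rw [one_div, inv_pow]
        field_simp
  refine (Finset.sum_le_sum h4).trans ?_
  rw [← Finset.mul_sum]
  have h6 : ∑ j ∈ Finset.range J, (1 / 2 : ℝ) ^ j ≤ 2 := by
    have := geom_sum_eq (x := (1 / 2 : ℝ)) (by norm_num) J
    rw [this]
    have h7 : (0 : ℝ) < (1 / 2) ^ J := by positivity
    rw [div_le_iff_of_neg (by norm_num)]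
    linarith
  calc 2 ^ 21 / M * ∑ j ∈ Finset.range J, (1 / 2 : ℝ) ^ j ≤ 2 ^ 21 / M * 2 :=
        mul_le_mul_of_nonneg_left h6 (by positivity)
    _ = 2 ^ 22 / M := by ring

/-- the expectation is sandwiched -/
theorem sandwich (hamp : Amp) (hth : Thinning) (hcl : Cleaning) (hlow : ThetaLower)
    (hup : ThetaUpper) (hnn : ThetaNonneg) (hle : ThetaLe) (ε : ℝ) (hε : 0 < ε) (hε1 : ε ≤ 1 / 2) :
    ∃ N₀ : ℕ, ∀ N : ℕ, N₀ ≤ N →
      (1 - ε) * (1 - ε) ≤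
        EB (cl (N + 1)) (1 / 2) (fun S => theta (N + 1) S / Real.sqrt (N + 1 : ℕ)) ∧
      EB (cl (N + 1)) (1 / 2) (fun S => theta (N + 1) S / Real.sqrt (N + 1 : ℕ)) ≤
        1 / (1 - ε) + (Real.sqrt ε + 2 ^ 22 * Real.sqrt ε) := by
  obtain ⟨N₀, hN₀⟩ := good_whp hamp hth hcl ε hε hε1
  refine ⟨N₀, fun N hN => ?_⟩
  have hg := hN₀ N hN
  have hn : (0 : ℝ) < ((N + 1 : ℕ) : ℝ) := by positivity
  have hsq : 0 < Real.sqrt ((N + 1 : ℕ) : ℝ) := Real.sqrt_pos.mpr hn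
  have hss : Real.sqrt ((N + 1 : ℕ) : ℝ) * Real.sqrt ((N + 1 : ℕ) : ℝ) = ((N + 1 : ℕ) : ℝ) :=
    Real.mul_self_sqrt hn.le
  have hε2 : 0 < 1 - ε := by linarith
  constructor
  · have hc := EB_compl (cl (N + 1)) (1 / 2) (fun T => bad (Good ε N T))
    have hhalf : (1 - (1 / 2 : ℝ)) = 1 / 2 := by norm_num
    rw [hhalf] at hc
    rw [← hc] at hg
    have hpt : ∀ S, S ⊆ cl (N + 1) → (1 - ε) - (1 - ε) * bad (Good ε N (cl (N + 1) \ S)) ≤
        theta (N + 1) S / Real.sqrt (N + 1 : ℕ) := by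
      intro S _
      by_cases hG : Good ε N (cl (N + 1) \ S)
      · rw [bad_of hG, mul_zero, sub_zero, le_div_iff₀ hsq]
        obtain ⟨f, hfe, hfs, hfp, hf0, hfv⟩ := hG
        have h := hlow N S f hfe (fun x hx hxS => hfs x hx (fun hmem => by
          rw [Finset.mem_sdiff] at hmem; exact hmem.2 hxS)) hfp hf0
        refine le_trans ?_ h
        rw [le_div_iff₀ hf0]
        exact hfv
      · rw [bad_of_not hG, mul_one, sub_self]
        exact div_nonneg (hnn N S) hsq.le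
    refine le_trans ?_ (EB_mono (by norm_num) (by norm_num) hpt)
    rw [EB_sub, EB_const, EB_mul_left]
    nlinarith
  · have hsε : 0 < Real.sqrt ε := Real.sqrt_pos.mpr hε
    have hpt : ∀ S, S ⊆ cl (N + 1) → theta (N + 1) S / Real.sqrt (N + 1 : ℕ) ≤
        1 / (1 - ε) + (1 / Real.sqrt ε * bad (Good ε N S) +
          max (theta (N + 1) S / Real.sqrt (N + 1 : ℕ) - 1 / Real.sqrt ε) 0) := by
      intro S _
      by_cases hG : Good ε N S
      · rw [bad_of hG, mul_zero, zero_add]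
        have h0 : theta (N + 1) S / Real.sqrt (N + 1 : ℕ) ≤ 1 / (1 - ε) := by
          obtain ⟨f, hfe, hfs, hfp, hf0, hfv⟩ := hG
          have hpos : 0 < ct f 0 := lt_of_lt_of_le (by positivity) hfv
          have h := hup N S f hfe hfs hfp hf0 hpos
          rw [div_le_div_iff₀ hsq hε2]
          have h2 : theta (N + 1) S * ct f 0 ≤ ((N + 1 : ℕ) : ℝ) * f 0 := by
            rwa [le_div_iff₀ hpos] at h
          have h3 : theta (N + 1) S * ((1 - ε) * Real.sqrt (N + 1 : ℕ) * f 0) ≤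
              theta (N + 1) S * ct f 0 := mul_le_mul_of_nonneg_left hfv (hnn N S)
          have h4 : (theta (N + 1) S * (1 - ε)) * (Real.sqrt (N + 1 : ℕ) * f 0) ≤
              (Real.sqrt (N + 1 : ℕ)) * (Real.sqrt (N + 1 : ℕ) * f 0) := by
            calc (theta (N + 1) S * (1 - ε)) * (Real.sqrt (N + 1 : ℕ) * f 0)
                = theta (N + 1) S * ((1 - ε) * Real.sqrt (N + 1 : ℕ) * f 0) := by ring
              _ ≤ ((N + 1 : ℕ) : ℝ) * f 0 := h3.trans h2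
              _ = (Real.sqrt (N + 1 : ℕ)) * (Real.sqrt (N + 1 : ℕ) * f 0) := by
                rw [← mul_assoc, hss]
          have h5 := le_of_mul_le_mul_right h4 (by positivity)
          linarith
        have := le_max_right (theta (N + 1) S / Real.sqrt (N + 1 : ℕ) - 1 / Real.sqrt ε) 0
        linarith
      · rw [bad_of_not hG, mul_one]
        have h1 := le_max_left (theta (N + 1) S / Real.sqrt (N + 1 : ℕ) - 1 / Real.sqrt ε) 0
        have h2 : 0 ≤ 1 / (1 - ε) := by positivity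
        linarith
    refine (EB_mono (by norm_num) (by norm_num) hpt).trans ?_
    rw [EB_add, EB_const, EB_add, EB_mul_left]
    have h6 := excess_bound hcl hup hle N (1 / Real.sqrt ε) (by positivity)
    have h7 : 1 / Real.sqrt ε * EB (cl (N + 1)) (1 / 2) (fun S => bad (Good ε N S)) ≤
        Real.sqrt ε := by
      calc 1 / Real.sqrt ε * EB (cl (N + 1)) (1 / 2) (fun S => bad (Good ε N S))
          ≤ 1 / Real.sqrt ε * ε := mul_le_mul_of_nonneg_left hg (by positivity)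
        _ = Real.sqrt ε := by
          rw [one_div, inv_mul_eq_div, Real.div_sqrt]
    have h8 : (2 : ℝ) ^ 22 / (1 / Real.sqrt ε) = 2 ^ 22 * Real.sqrt ε := by
      rw [one_div, div_inv_eq_mul]
    rw [h8] at h6
    linarith

/-- the limit along n = N + 1 -/
theorem limit_succ (hamp : Amp) (hth : Thinning) (hcl : Cleaning) (hlow : ThetaLower)
    (hup : ThetaUpper) (hnn : ThetaNonneg) (hle : ThetaLe) :
    Tendsto (fun N : ℕ => EB (cl (N + 1)) (1 / 2)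
      (fun S => theta (N + 1) S / Real.sqrt (N + 1 : ℕ))) atTop (𝓝 1) := by
  have hlo : Tendsto (fun ε : ℝ => (1 - ε) * (1 - ε)) (𝓝[>] 0) (𝓝 1) := by
    have h : Tendsto (fun ε : ℝ => (1 - ε) * (1 - ε)) (𝓝 0) (𝓝 ((1 - 0) * (1 - 0))) := by
      apply Continuous.tendsto
      fun_prop
    simp only [sub_zero, mul_one] at h
    exact h.mono_left nhdsWithin_le_nhds
  have hhi : Tendsto (fun ε : ℝ => 1 / (1 - ε) + (Real.sqrt ε + 2 ^ 22 * Real.sqrt ε))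
      (𝓝[>] 0) (𝓝 1) := by
    have h : ContinuousAt (fun ε : ℝ => 1 / (1 - ε) + (Real.sqrt ε + 2 ^ 22 * Real.sqrt ε)) 0 := by
      apply ContinuousAt.add
      · apply ContinuousAt.div
        · fun_prop
        · fun_prop
        · norm_num
      · apply ContinuousAt.add
        · exact Real.continuous_sqrt.continuousAt
        · exact (continuous_const.mul Real.continuous_sqrt).continuousAt
    have h2 := h.tendsto
    simp only [sub_zero, Real.sqrt_zero, mul_zero, add_zero, div_one] at h2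
    exact h2.mono_left nhdsWithin_le_nhds
  rw [tendsto_order]
  constructor
  · intro a ha
    have h1 := (hlo.eventually (lt_mem_nhds ha)).and (Ioc_mem_nhdsGT (show (0 : ℝ) < 1 / 2 by norm_num))
    obtain ⟨ε, hε, hε2⟩ := h1.exists
    obtain ⟨N₀, hN₀⟩ := sandwich hamp hth hcl hlow hup hnn hle ε hε2.1 hε2.2
    filter_upwards [eventually_ge_atTop N₀] with N hN
    exact lt_of_lt_of_le hε (hN₀ N hN).1
  · intro a ha
    have h1 := (hhi.eventually (gt_mem_nhds ha)).and (Ioc_mem_nhdsGT (show (0 : ℝ) < 1 / 2 by norm_num))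
    obtain ⟨ε, hε, hε2⟩ := h1.exists
    obtain ⟨N₀, hN₀⟩ := sandwich hamp hth hcl hlow hup hnn hle ε hε2.1 hε2.2
    filter_upwards [eventually_ge_atTop N₀] with N hN
    exact lt_of_le_of_lt (hN₀ N hN).2 hε

/-- the frozen form -/
theorem final (hamp : Amp) (hth : Thinning) (hcl : Cleaning) (hlow : ThetaLower)
    (hup : ThetaUpper) (hnn : ThetaNonneg) (hle : ThetaLe) :
    Tendsto (fun n : ℕ => ((∑ S ∈ (Finset.Icc 1 (n / 2)).powerset, theta n S) / (2 : ℝ) ^ (n / 2)) /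
      Real.sqrt (n : ℝ)) atTop (𝓝 1) := by
  rw [← tendsto_add_atTop_iff_nat 1]
  refine (limit_succ hamp hth hcl hlow hup hnn hle).congr (fun N => ?_)
  rw [EB_half]
  unfold cl
  rw [← Finset.sum_div]
  have : #(Finset.Icc 1 ((N + 1) / 2)) = (N + 1) / 2 := by simp
  rw [this]
  rw [div_right_comm]

end Pool.Agent.Th2c
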