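import Pool.Agent.Work.MP_2c2d16_pr.Defs

/-!
Low degree functions of signs: the Bonami product inequality, and the classes IsBdd and IsErr.
-/

set_option autoImplicit false

namespace Pool.Agent.Th2c

open Finset Polynomial
open scoped Finset

/-! ### algebra of low degree functions -/

/-- the character attached to a set -/
noncomputable def chi (A S : Finset ℕ) : ℂ := ∏ i ∈ A, (sg S i : ℂ)

theorem sg_mul_self (S : Finset ℕ) (i : ℕ) : (sg S i : ℂ) * sg S i = 1 := by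
  unfold sg
  split_ifs <;> simp

theorem norm_sg (S : Finset ℕ) (i : ℕ) : ‖(sg S i : ℂ)‖ = 1 := by
  unfold sg
  split_ifs <;> simp

theorem LowDeg.congr {I : Finset ℕ} {d : ℕ} {f g : Finset ℕ → ℂ} (hf : LowDeg I d f)
    (h : ∀ S ∈ I.powerset, g S = f S) : LowDeg I d g := by
  obtain ⟨c, hc⟩ := hf
  exact ⟨c, fun S hS => (h S hS).trans (hc S hS)⟩

theorem LowDeg.zero (I : Finset ℕ) (d : ℕ) : LowDeg I d (fun _ => 0) :=
  ⟨fun _ => 0, fun S _ => by simp⟩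

theorem LowDeg.add {I : Finset ℕ} {d : ℕ} {f g : Finset ℕ → ℂ} (hf : LowDeg I d f)
    (hg : LowDeg I d g) : LowDeg I d (fun S => f S + g S) := by
  obtain ⟨c, hc⟩ := hf
  obtain ⟨c', hc'⟩ := hg
  refine ⟨fun A => c A + c' A, fun S hS => ?_⟩
  beta_reduce
  rw [hc S hS, hc' S hS, ← Finset.sum_add_distrib]
  exact Finset.sum_congr rfl fun A _ => by ring

theorem LowDeg.const_mul {I : Finset ℕ} {d : ℕ} {f : Finset ℕ → ℂ} (hf : LowDeg I d f) (a : ℂ) :
    LowDeg I d (fun S => a * f S) := by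
  obtain ⟨c, hc⟩ := hf
  refine ⟨fun A => a * c A, fun S hS => ?_⟩
  beta_reduce
  rw [hc S hS, Finset.mul_sum]
  exact Finset.sum_congr rfl fun A _ => by ring

theorem LowDeg.neg {I : Finset ℕ} {d : ℕ} {f : Finset ℕ → ℂ} (hf : LowDeg I d f) :
    LowDeg I d (fun S => - f S) :=
  (hf.const_mul (-1)).congr fun S _ => by ring

theorem LowDeg.sub {I : Finset ℕ} {d : ℕ} {f g : Finset ℕ → ℂ} (hf : LowDeg I d f)
    (hg : LowDeg I d g) : LowDeg I d (fun S => f S - g S) :=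
  (hf.add hg.neg).congr fun S _ => by ring

theorem LowDeg.mono {I : Finset ℕ} {d e : ℕ} {f : Finset ℕ → ℂ} (hf : LowDeg I d f)
    (hde : d ≤ e) : LowDeg I e f := by
  classical
  obtain ⟨c, hc⟩ := hf
  refine ⟨fun A => if #A ≤ d then c A else 0, fun S hS => ?_⟩
  rw [hc S hS]
  have h1 : ∑ A ∈ I.powerset with #A ≤ e, (if #A ≤ d then c A else 0) * ∏ i ∈ A, (sg S i : ℂ) =
      ∑ A ∈ I.powerset with #A ≤ e, (if #A ≤ d then c A * ∏ i ∈ A, (sg S i : ℂ) else 0) :=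
    Finset.sum_congr rfl fun A _ => by split_ifs <;> simp
  rw [h1, ← Finset.sum_filter, Finset.filter_filter]
  refine Finset.sum_congr ?_ fun _ _ => rfl
  ext A
  simp only [Finset.mem_filter]
  constructor
  · rintro ⟨h, h'⟩
    exact ⟨h, h'.trans hde, h'⟩
  · rintro ⟨h, _, h'⟩
    exact ⟨h, h'⟩

theorem LowDeg.sum {I : Finset ℕ} {d : ℕ} {κ : Type*} (s : Finset κ) {f : κ → Finset ℕ → ℂ}
    (hf : ∀ k ∈ s, LowDeg I d (f k)) : LowDeg I d (fun S => ∑ k ∈ s, f k S) := by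
  classical
  induction s using Finset.induction_on with
  | empty => exact (LowDeg.zero I d).congr fun S _ => by simp
  | insert a s ha ih =>
    refine ((hf a (Finset.mem_insert_self _ _)).add
      (ih fun k hk => hf k (Finset.mem_insert_of_mem hk))).congr fun S _ => ?_
    rw [Finset.sum_insert ha]

theorem LowDeg.chi {I A : Finset ℕ} {d : ℕ} (hA : A ⊆ I) (hd : #A ≤ d) :
    LowDeg I d (fun S => chi A S) := by
  classical
  refine ⟨fun B => if B = A then 1 else 0, fun S _ => ?_⟩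
  rw [Finset.sum_eq_single A]
  · simp [Th2c.chi]
  · intro B _ hB
    simp [hB]
  · intro h
    exact absurd (Finset.mem_filter.2 ⟨Finset.mem_powerset.2 hA, hd⟩) h

theorem LowDeg.const (I : Finset ℕ) (d : ℕ) (a : ℂ) : LowDeg I d (fun _ => a) :=
  ((LowDeg.chi (Finset.empty_subset I) (Nat.zero_le d)).const_mul a).congr fun S _ => by
    simp [Th2c.chi]

theorem LowDeg.sg {I : Finset ℕ} {d i : ℕ} (hi : i ∈ I) (hd : 1 ≤ d) :
    LowDeg I d (fun S => (sg S i : ℂ)) :=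
  (LowDeg.chi (A := {i}) (Finset.singleton_subset_iff.2 hi) (by simpa using hd)).congr
    fun S _ => by simp [Th2c.chi]

theorem chi_mul_chi (A B S : Finset ℕ) : chi A S * chi B S = chi (symmDiff A B) S := by
  classical
  unfold chi
  have hA : ∏ i ∈ A, (sg S i : ℂ) = (∏ i ∈ A \ B, sg S i) * ∏ i ∈ A ∩ B, sg S i := by
    rw [← Finset.prod_union (Finset.disjoint_sdiff_inter A B), Finset.sdiff_union_inter]
  have hB : ∏ i ∈ B, (sg S i : ℂ) = (∏ i ∈ B \ A, sg S i) * ∏ i ∈ A ∩ B, sg S i := by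
    rw [Finset.inter_comm A B, ← Finset.prod_union (Finset.disjoint_sdiff_inter B A),
      Finset.sdiff_union_inter]
  have hC : (∏ i ∈ A ∩ B, (sg S i : ℂ)) * ∏ i ∈ A ∩ B, sg S i = 1 := by
    rw [← Finset.prod_mul_distrib]
    exact Finset.prod_eq_one fun i _ => sg_mul_self S i
  have hD : ∏ i ∈ symmDiff A B, (sg S i : ℂ) = (∏ i ∈ A \ B, sg S i) * ∏ i ∈ B \ A, sg S i := by
    rw [symmDiff_def, Finset.sup_eq_union, Finset.prod_union]
    exact disjoint_sdiff_sdiff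
  rw [hA, hB, hD]
  calc (∏ i ∈ A \ B, (sg S i : ℂ)) * (∏ i ∈ A ∩ B, sg S i) *
        ((∏ i ∈ B \ A, sg S i) * ∏ i ∈ A ∩ B, sg S i)
      = (∏ i ∈ A \ B, (sg S i : ℂ)) * (∏ i ∈ B \ A, sg S i) *
        ((∏ i ∈ A ∩ B, sg S i) * ∏ i ∈ A ∩ B, sg S i) := by ring
    _ = _ := by rw [hC, mul_one]

theorem LowDeg.mul {I : Finset ℕ} {d e : ℕ} {f g : Finset ℕ → ℂ} (hf : LowDeg I d f)
    (hg : LowDeg I e g) : LowDeg I (d + e) (fun S => f S * g S) := by
  classical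
  obtain ⟨c, hc⟩ := hf
  obtain ⟨c', hc'⟩ := hg
  have key : LowDeg I (d + e) (fun S => ∑ A ∈ I.powerset with #A ≤ d,
      ∑ B ∈ I.powerset with #B ≤ e, (c A * c' B) * Th2c.chi (symmDiff A B) S) := by
    refine LowDeg.sum _ fun A hA => LowDeg.sum _ fun B hB => LowDeg.const_mul ?_ _
    rw [Finset.mem_filter, Finset.mem_powerset] at hA hB
    refine LowDeg.chi ?_ ?_
    · rw [symmDiff_def, Finset.sup_eq_union]
      exact Finset.union_subset (Finset.sdiff_subset.trans hA.1) (Finset.sdiff_subset.trans hB.1)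
    · rw [symmDiff_def, Finset.sup_eq_union]
      refine (Finset.card_union_le _ _).trans (add_le_add ?_ ?_)
      · exact (Finset.card_le_card Finset.sdiff_subset).trans hA.2
      · exact (Finset.card_le_card Finset.sdiff_subset).trans hB.2
  refine key.congr fun S hS => ?_
  rw [hc S hS, hc' S hS, Finset.sum_mul_sum]
  refine Finset.sum_congr rfl fun A _ => Finset.sum_congr rfl fun B _ => ?_
  rw [← chi_mul_chi]
  unfold Th2c.chi
  ring

theorem LowDeg.pow {I : Finset ℕ} {d : ℕ} {f : Finset ℕ → ℂ} (hf : LowDeg I d f) (k : ℕ) :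
    LowDeg I (k * d) (fun S => f S ^ k) := by
  induction k with
  | zero => exact (LowDeg.const I _ 1).congr fun S _ => by simp
  | succ k ih =>
    have h := ih.mul hf
    rw [← Nat.succ_mul] at h
    exact h.congr fun S _ => by rw [pow_succ]

/-! ### expectations -/

theorem Ex_insert {K : Type} [Field K] [CharZero K] {a : ℕ} {J : Finset ℕ} (ha : a ∉ J)
    (F : Finset ℕ → K) :
    Ex (insert a J) F = Ex J (fun T => (F T + F (insert a T)) / 2) := by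
  unfold Ex
  rw [Finset.sum_powerset_insert ha, Finset.card_insert_of_notMem ha, ← Finset.sum_add_distrib,
    ← Finset.sum_div, pow_succ, div_div, mul_comm (2 : K)]

theorem Ex_add {K : Type} [Field K] (I : Finset ℕ) (f g : Finset ℕ → K) :
    Ex I (fun S => f S + g S) = Ex I f + Ex I g := by
  unfold Ex
  rw [Finset.sum_add_distrib, add_div]

theorem Ex_const_mul {K : Type} [Field K] (I : Finset ℕ) (a : K) (f : Finset ℕ → K) :
    Ex I (fun S => a * f S) = a * Ex I f := by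
  unfold Ex
  rw [← Finset.mul_sum, mul_div_assoc]

theorem Ex_const {K : Type} [Field K] [CharZero K] (I : Finset ℕ) (a : K) :
    Ex I (fun _ => a) = a := by
  unfold Ex
  rw [Finset.sum_const, Finset.card_powerset, nsmul_eq_mul]
  push_cast
  field_simp

theorem Ex_sum {K : Type} [Field K] (I : Finset ℕ) {κ : Type*} (s : Finset κ)
    (f : κ → Finset ℕ → K) : Ex I (fun S => ∑ k ∈ s, f k S) = ∑ k ∈ s, Ex I (f k) := by
  unfold Ex
  rw [Finset.sum_comm, Finset.sum_div]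

theorem Ex_mono (I : Finset ℕ) {f g : Finset ℕ → ℝ} (h : ∀ S ∈ I.powerset, f S ≤ g S) :
    Ex I f ≤ Ex I g := by
  unfold Ex
  exact div_le_div_of_nonneg_right (Finset.sum_le_sum h) (by positivity)

theorem Ex_nonneg (I : Finset ℕ) {f : Finset ℕ → ℝ} (h : ∀ S ∈ I.powerset, 0 ≤ f S) :
    0 ≤ Ex I f := by
  unfold Ex
  exact div_nonneg (Finset.sum_nonneg h) (by positivity)

theorem Ex_congr {K : Type} [Field K] (I : Finset ℕ) {f g : Finset ℕ → K}
    (h : ∀ S ∈ I.powerset, f S = g S) : Ex I f = Ex I g := by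
  unfold Ex
  rw [Finset.sum_congr rfl h]

theorem Ex_normSq_nonneg (I : Finset ℕ) (f : Finset ℕ → ℂ) : 0 ≤ Ex I (fun S => ‖f S‖ ^ 2) :=
  Ex_nonneg I fun S _ => by positivity

/-! ### the product inequality -/

theorem lowDeg_insert {a : ℕ} {J : Finset ℕ} (ha : a ∉ J) {d : ℕ} {f : Finset ℕ → ℂ}
    (hf : LowDeg (insert a J) d f) :
    ∃ f0 f1 : Finset ℕ → ℂ, LowDeg J d f0 ∧ LowDeg J (d - 1) f1 ∧ (d = 0 → ∀ S, f1 S = 0) ∧
      ∀ T ∈ J.powerset, f T = f0 T - f1 T ∧ f (insert a T) = f0 T + f1 T := by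
  classical
  obtain ⟨c, hc⟩ := hf
  refine ⟨fun T => ∑ A ∈ J.powerset with #A ≤ d, c A * ∏ i ∈ A, (sg T i : ℂ),
    fun T => ∑ A ∈ J.powerset with #A + 1 ≤ d, c (insert a A) * ∏ i ∈ A, (sg T i : ℂ),
    ⟨c, fun S _ => rfl⟩, ?_, ?_, ?_⟩
  · rcases Nat.eq_zero_or_pos d with hd | hd
    · subst hd
      refine (LowDeg.zero J _).congr fun S _ => ?_
      simp
    · refine ⟨fun A => c (insert a A), fun S _ => ?_⟩
      refine Finset.sum_congr ?_ fun _ _ => rfl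
      ext A
      simp only [Finset.mem_filter]
      constructor
      · rintro ⟨h, h'⟩; exact ⟨h, by omega⟩
      · rintro ⟨h, h'⟩; exact ⟨h, by omega⟩
  · intro hd S
    subst hd
    simp
  · intro T hT
    have hTJ := Finset.mem_powerset.1 hT
    have haT : a ∉ T := fun h => ha (hTJ h)
    -- general split
    have split : ∀ S : Finset ℕ, ∑ A ∈ (insert a J).powerset with #A ≤ d, c A * ∏ i ∈ A, (sg S i : ℂ)
        = (∑ A ∈ J.powerset with #A ≤ d, c A * ∏ i ∈ A, (sg S i : ℂ)) +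
          (sg S a : ℂ) * ∑ A ∈ J.powerset with #A + 1 ≤ d, c (insert a A) * ∏ i ∈ A, (sg S i : ℂ) := by
      intro S
      rw [Finset.sum_filter, Finset.sum_powerset_insert ha, ← Finset.sum_filter]
      congr 1
      rw [Finset.mul_sum, Finset.sum_filter]
      refine Finset.sum_congr rfl fun A hA => ?_
      have haA : a ∉ A := fun h => ha (Finset.mem_powerset.1 hA h)
      rw [Finset.card_insert_of_notMem haA, Finset.prod_insert haA]
      split_ifs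
      · ring
      · rfl
    have hsgT : ∀ A ∈ J.powerset, ∏ i ∈ A, (sg (insert a T) i : ℂ) = ∏ i ∈ A, (sg T i : ℂ) := by
      intro A hA
      refine Finset.prod_congr rfl fun i hi => ?_
      have hia : i ≠ a := fun h => ha (Finset.mem_powerset.1 hA (h ▸ hi))
      unfold sg
      simp [Finset.mem_insert, hia]
    constructor
    · rw [hc T (Finset.mem_powerset.2 (hTJ.trans (Finset.subset_insert a J))), split T]
      have : (sg T a : ℂ) = -1 := by unfold sg; simp [haT]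
      rw [this]
      ring
    · rw [hc (insert a T) (Finset.mem_powerset.2 (Finset.insert_subset_insert a hTJ)),
        split (insert a T)]
      have : (sg (insert a T) a : ℂ) = 1 := by unfold sg; simp
      rw [this, one_mul]
      congr 1
      · refine Finset.sum_congr rfl fun A hA => ?_
        rw [hsgT A (Finset.mem_filter.1 hA).1]
      · refine Finset.sum_congr rfl fun A hA => ?_
        rw [hsgT A (Finset.mem_filter.1 hA).1]

theorem two_point (p q r s : ℂ) :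
    (‖(p - q) * (r - s)‖ ^ 2 + ‖(p + q) * (r + s)‖ ^ 2) / 2 ≤
      ‖p * r‖ ^ 2 + 3 * ‖p * s‖ ^ 2 + 3 * ‖q * r‖ ^ 2 + ‖q * s‖ ^ 2 := by
  simp only [norm_mul, mul_pow]
  simp only [← Complex.normSq_eq_norm_sq, Complex.normSq_apply, Complex.sub_re, Complex.sub_im,
    Complex.add_re, Complex.add_im]
  nlinarith [sq_nonneg (p.re * s.re - q.re * r.re), sq_nonneg (p.re * s.im - q.re * r.im),
    sq_nonneg (p.im * s.re - q.im * r.re), sq_nonneg (p.im * s.im - q.im * r.im)]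

theorem two_point_one (p q : ℂ) :
    (‖p - q‖ ^ 2 + ‖p + q‖ ^ 2) / 2 = ‖p‖ ^ 2 + ‖q‖ ^ 2 := by
  simp only [← Complex.normSq_eq_norm_sq, Complex.normSq_apply, Complex.sub_re, Complex.sub_im,
    Complex.add_re, Complex.add_im]
  ring

theorem bonami (I : Finset ℕ) (d e : ℕ) (f g : Finset ℕ → ℂ) (hf : LowDeg I d f)
    (hg : LowDeg I e g) :
    Ex I (fun S => ‖f S * g S‖ ^ 2) ≤
      3 ^ (d + e) * Ex I (fun S => ‖f S‖ ^ 2) * Ex I (fun S => ‖g S‖ ^ 2) := by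
  classical
  induction I using Finset.induction_on generalizing d e f g with
  | empty =>
    have h0 : ∀ F : Finset ℕ → ℝ, Ex ∅ F = F ∅ := by
      intro F
      simp [Ex]
    rw [h0, h0, h0, norm_mul, mul_pow]
    have h1 : (1 : ℝ) ≤ 3 ^ (d + e) := one_le_pow₀ (by norm_num)
    have h2 : 0 ≤ ‖f ∅‖ ^ 2 * ‖g ∅‖ ^ 2 := by positivity
    nlinarith
  | insert a J ha ih =>
    obtain ⟨f0, f1, hf0, hf1, hfz, hfe⟩ := lowDeg_insert ha hf
    obtain ⟨g0, g1, hg0, hg1, hgz, hge⟩ := lowDeg_insert ha hg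
    have hff : Ex (insert a J) (fun S => ‖f S‖ ^ 2) =
        Ex J (fun S => ‖f0 S‖ ^ 2) + Ex J (fun S => ‖f1 S‖ ^ 2) := by
      rw [Ex_insert ha, ← Ex_add]
      refine Ex_congr J fun T hT => ?_
      rw [(hfe T hT).1, (hfe T hT).2, two_point_one]
    have hgg : Ex (insert a J) (fun S => ‖g S‖ ^ 2) =
        Ex J (fun S => ‖g0 S‖ ^ 2) + Ex J (fun S => ‖g1 S‖ ^ 2) := by
      rw [Ex_insert ha, ← Ex_add]
      refine Ex_congr J fun T hT => ?_
      rw [(hge T hT).1, (hge T hT).2, two_point_one]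
    have hfg : Ex (insert a J) (fun S => ‖f S * g S‖ ^ 2) ≤
        Ex J (fun S => ‖f0 S * g0 S‖ ^ 2) + 3 * Ex J (fun S => ‖f0 S * g1 S‖ ^ 2) +
          3 * Ex J (fun S => ‖f1 S * g0 S‖ ^ 2) + Ex J (fun S => ‖f1 S * g1 S‖ ^ 2) := by
      rw [Ex_insert ha, ← Ex_const_mul, ← Ex_const_mul, ← Ex_add, ← Ex_add, ← Ex_add]
      refine Ex_mono J fun T hT => ?_
      rw [(hfe T hT).1, (hfe T hT).2, (hge T hT).1, (hge T hT).2]
      exact two_point _ _ _ _
    have a0 := ih d e f0 g0 hf0 hg0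
    have a1 : 3 * Ex J (fun S => ‖f0 S * g1 S‖ ^ 2) ≤
        3 ^ (d + e) * Ex J (fun S => ‖f0 S‖ ^ 2) * Ex J (fun S => ‖g1 S‖ ^ 2) := by
      rcases Nat.eq_zero_or_pos e with he | he
      · have hz := hgz he
        simp only [hz, mul_zero, norm_zero]
        rw [Ex_const, zero_pow two_ne_zero]
        simp
      · have h := ih d (e - 1) f0 g1 hf0 hg1
        have hp : (3 : ℝ) ^ (d + e) = 3 * 3 ^ (d + (e - 1)) := by
          rw [← pow_succ']
          congr 1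
          omega
        rw [hp]
        nlinarith
    have a2 : 3 * Ex J (fun S => ‖f1 S * g0 S‖ ^ 2) ≤
        3 ^ (d + e) * Ex J (fun S => ‖f1 S‖ ^ 2) * Ex J (fun S => ‖g0 S‖ ^ 2) := by
      rcases Nat.eq_zero_or_pos d with hd | hd
      · have hz := hfz hd
        simp only [hz, zero_mul, norm_zero]
        rw [Ex_const, zero_pow two_ne_zero]
        simp
      · have h := ih (d - 1) e f1 g0 hf1 hg0
        have hp : (3 : ℝ) ^ (d + e) = 3 * 3 ^ (d - 1 + e) := by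
          rw [← pow_succ']
          congr 1
          omega
        rw [hp]
        nlinarith
    have a3 : Ex J (fun S => ‖f1 S * g1 S‖ ^ 2) ≤
        3 ^ (d + e) * Ex J (fun S => ‖f1 S‖ ^ 2) * Ex J (fun S => ‖g1 S‖ ^ 2) := by
      have h := ih (d - 1) (e - 1) f1 g1 hf1 hg1
      refine h.trans ?_
      have hp : (3 : ℝ) ^ (d - 1 + (e - 1)) ≤ 3 ^ (d + e) :=
        pow_le_pow_right₀ (by norm_num) (by omega)
      have h1 := Ex_normSq_nonneg J f1
      have h2 := Ex_normSq_nonneg J g1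
      rw [mul_assoc, mul_assoc]
      exact mul_le_mul_of_nonneg_right hp (mul_nonneg h1 h2)
    rw [hff, hgg]
    calc _ ≤ _ := hfg
      _ ≤ _ := by nlinarith

/-! ### the operator -/

theorem cls_mem_cl {n : ℕ} [NeZero n] {x : ZMod n} (hx : x ≠ 0) : cls x ∈ cl n := by
  unfold cls cl
  have hn : 0 < n := Nat.pos_of_ne_zero (NeZero.ne n)
  have hv : 0 < x.val := Nat.pos_of_ne_zero fun h => hx ((ZMod.val_eq_zero x).1 h)
  have hlt : x.val < n := ZMod.val_lt x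
  have : NeZero x := ⟨hx⟩
  have hneg : (-x).val = n - x.val := ZMod.val_neg_of_ne_zero x
  rw [hneg, Finset.mem_Icc]
  omega

theorem LowDeg.opE {n : ℕ} [NeZero n] {d : ℕ} {f : Finset ℕ → ZMod n → ℂ}
    (hf : ∀ ζ, LowDeg (cl n) d (fun S => f S ζ)) (ξ : ZMod n) :
    LowDeg (cl n) (d + 1) (fun S => opE S (f S) ξ) := by
  have h : LowDeg (cl n) (d + 1) (fun S => ((n : ℂ)⁻¹) * ∑ x ∈ univ.erase (0 : ZMod n),
      (Th2c.sg S (cls x) : ℂ) * ∑ ζ : ZMod n, (ZMod.stdAddChar (x * (ξ - ζ)) : ℂ) * f S ζ) := by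
    refine LowDeg.const_mul (LowDeg.sum _ fun x hx => ?_) _
    have hx0 : x ≠ 0 := (Finset.mem_erase.1 hx).1
    have h1 : LowDeg (cl n) 1 (fun S => (Th2c.sg S (cls x) : ℂ)) :=
      LowDeg.sg (cls_mem_cl hx0) le_rfl
    have h2 : LowDeg (cl n) d (fun S => ∑ ζ : ZMod n, (ZMod.stdAddChar (x * (ξ - ζ)) : ℂ) * f S ζ) :=
      LowDeg.sum _ fun ζ _ => (hf ζ).const_mul _
    have h3 := h1.mul h2
    rwa [add_comm 1 d] at h3
  refine h.congr fun S _ => ?_
  unfold Th2c.opE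
  rw [div_eq_inv_mul]
  congr 1
  refine Finset.sum_congr rfl fun x _ => ?_
  congr 1
  exact Finset.sum_congr rfl fun ζ _ => mul_comm _ _

/-- plain Fourier transform -/
noncomputable def ft {n : ℕ} [NeZero n] (f : ZMod n → ℂ) (x : ZMod n) : ℂ :=
  ∑ ζ : ZMod n, f ζ * (ZMod.stdAddChar (-(x * ζ)) : ℂ)

theorem sum_char {n : ℕ} [NeZero n] (x : ZMod n) :
    ∑ ξ : ZMod n, (ZMod.stdAddChar (x * ξ) : ℂ) = if x = 0 then (n : ℂ) else 0 := by
  have h := AddChar.sum_mulShift (R := ZMod n) (R' := ℂ) x (ZMod.isPrimitive_stdAddChar n)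
  rw [ZMod.card] at h
  have h2 : ∑ ξ : ZMod n, (ZMod.stdAddChar (x * ξ) : ℂ) = ∑ ξ : ZMod n, (ZMod.stdAddChar (ξ * x) : ℂ) :=
    Finset.sum_congr rfl fun ξ _ => by rw [mul_comm]
  rw [h2]
  rw [h]
  push_cast
  rfl

theorem conj_char {n : ℕ} [NeZero n] (x : ZMod n) :
    (starRingEnd ℂ) (ZMod.stdAddChar x : ℂ) = (ZMod.stdAddChar (-x) : ℂ) := by
  rw [AddChar.map_neg_eq_inv]
  have h : ‖(ZMod.stdAddChar x : ℂ)‖ = 1 := AddChar.norm_apply _ _
  rw [Complex.inv_def, Complex.normSq_eq_norm_sq, h]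
  simp

/-- Parseval for trigonometric sums -/
theorem parseval {n : ℕ} [NeZero n] (b : ZMod n → ℂ) :
    ∑ ξ : ZMod n, ‖∑ x : ZMod n, b x * (ZMod.stdAddChar (x * ξ) : ℂ)‖ ^ 2 =
      n * ∑ x, ‖b x‖ ^ 2 := by
  have h : ((∑ ξ : ZMod n, ‖∑ x : ZMod n, b x * (ZMod.stdAddChar (x * ξ) : ℂ)‖ ^ 2 : ℝ) : ℂ) =
      ((n * ∑ x, ‖b x‖ ^ 2 : ℝ) : ℂ) := by
    push_cast
    have e1 : ∀ ξ : ZMod n, ((‖∑ x : ZMod n, b x * (ZMod.stdAddChar (x * ξ) : ℂ)‖ : ℂ)) ^ 2 =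
        ∑ x : ZMod n, ∑ y : ZMod n, b x * (starRingEnd ℂ) (b y) *
          (ZMod.stdAddChar ((x - y) * ξ) : ℂ) := by
      intro ξ
      rw [← Complex.mul_conj', map_sum, Finset.sum_mul_sum]
      refine Finset.sum_congr rfl fun x _ => Finset.sum_congr rfl fun y _ => ?_
      rw [map_mul (starRingEnd ℂ), conj_char, sub_mul, sub_eq_add_neg, AddChar.map_add_eq_mul]
      ring
    rw [Finset.sum_congr rfl fun ξ _ => e1 ξ, Finset.sum_comm, Finset.mul_sum]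
    refine Finset.sum_congr rfl fun x _ => ?_
    rw [Finset.sum_comm]
    have e2 : ∀ y : ZMod n, ∑ ξ : ZMod n, b x * (starRingEnd ℂ) (b y) *
        (ZMod.stdAddChar ((x - y) * ξ) : ℂ) = if y = x then (n : ℂ) * (‖b x‖ : ℂ) ^ 2 else 0 := by
      intro y
      rw [← Finset.mul_sum, sum_char]
      by_cases hxy : y = x
      · subst hxy
        simp only [sub_self, if_true]
        rw [Complex.mul_conj']
        ring
      · have : x - y ≠ 0 := fun h => hxy (sub_eq_zero.1 h).symm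
        simp [this, hxy]
    rw [Finset.sum_congr rfl fun y _ => e2 y]
    simp
  exact_mod_cast h

theorem opE_eq {n : ℕ} [NeZero n] (S : Finset ℕ) (f : ZMod n → ℂ) (ξ : ZMod n) :
    opE S f ξ = ∑ x : ZMod n, (if x = 0 then 0 else (sg S (cls x) : ℂ) * ft f x / n) *
      (ZMod.stdAddChar (x * ξ) : ℂ) := by
  unfold opE
  rw [← Finset.add_sum_erase _ _ (Finset.mem_univ (0 : ZMod n)), if_pos rfl, zero_mul, zero_add,
    Finset.sum_div]
  refine Finset.sum_congr rfl fun x hx => ?_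
  rw [if_neg (Finset.mem_erase.1 hx).1]
  have : ∑ ζ : ZMod n, f ζ * (ZMod.stdAddChar (x * (ξ - ζ)) : ℂ) =
      ft f x * (ZMod.stdAddChar (x * ξ) : ℂ) := by
    unfold ft
    rw [Finset.sum_mul]
    refine Finset.sum_congr rfl fun ζ _ => ?_
    rw [mul_sub, sub_eq_add_neg, AddChar.map_add_eq_mul]
    ring
  rw [this]
  ring

theorem parseval_ft {n : ℕ} [NeZero n] (f : ZMod n → ℂ) :
    ∑ x : ZMod n, ‖ft f x‖ ^ 2 = n * ∑ ζ, ‖f ζ‖ ^ 2 := by
  have h := parseval (n := n) f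
  rw [← h]
  refine Fintype.sum_equiv (Equiv.neg (ZMod n)) _ _ fun x => ?_
  unfold ft
  congr 2
  refine Finset.sum_congr rfl fun ζ _ => ?_
  rw [Equiv.neg_apply]
  congr 2
  ring

theorem opE_parseval {n : ℕ} [NeZero n] (S : Finset ℕ) (f : ZMod n → ℂ) :
    ∑ ξ, ‖opE S f ξ‖ ^ 2 = ∑ ξ, ‖f ξ‖ ^ 2 - ‖∑ ξ, f ξ‖ ^ 2 / n := by
  have hn : (n : ℝ) ≠ 0 := Nat.cast_ne_zero.2 (NeZero.ne n)
  rw [Finset.sum_congr rfl fun ξ _ => by rw [opE_eq], parseval]
  have h0 : ft f 0 = ∑ ξ, f ξ := by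
    unfold ft
    refine Finset.sum_congr rfl fun ζ _ => ?_
    simp
  have h1 : ∑ x : ZMod n, ‖(if x = 0 then (0 : ℂ) else (sg S (cls x) : ℂ) * ft f x / n)‖ ^ 2 =
      ∑ x : ZMod n, ‖ft f x‖ ^ 2 / n ^ 2 - ‖ft f 0‖ ^ 2 / n ^ 2 := by
    rw [← Finset.add_sum_erase _ _ (Finset.mem_univ (0 : ZMod n)),
      ← Finset.add_sum_erase (s := univ) (f := fun x => ‖ft f x‖ ^ 2 / (n : ℝ) ^ 2) (a := (0 : ZMod n))
        (Finset.mem_univ _)]
    rw [if_pos rfl, norm_zero, zero_pow two_ne_zero, zero_add, add_sub_cancel_left]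
    refine Finset.sum_congr rfl fun x hx => ?_
    rw [if_neg (Finset.mem_erase.1 hx).1, norm_div, norm_mul, norm_sg, one_mul, div_pow]
    simp
  rw [h1, ← Finset.sum_div, parseval_ft, h0]
  field_simp

theorem opE_norm_le {n : ℕ} [NeZero n] (S : Finset ℕ) (f : ZMod n → ℂ) :
    ∑ ξ, ‖opE S f ξ‖ ^ 2 ≤ ∑ ξ, ‖f ξ‖ ^ 2 := by
  rw [opE_parseval]
  have : 0 ≤ ‖∑ ξ, f ξ‖ ^ 2 / n := by positivity
  linarith

/-! ### the classes -/

theorem IsBdd.mul {G H : Sq} (hG : IsBdd G) (hH : IsBdd H) :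
    IsBdd (fun N S ξ => G N S ξ * H N S ξ) := by
  obtain ⟨C, d, hG⟩ := hG
  obtain ⟨D, e, hH⟩ := hH
  refine ⟨3 ^ (d + e) * C * D, d + e, fun N ξ => ⟨(hG N ξ).1.mul (hH N ξ).1, ?_⟩⟩
  refine (bonami _ d e _ _ (hG N ξ).1 (hH N ξ).1).trans ?_
  have h1 := Ex_normSq_nonneg (cl (N + 1)) (fun S => G N S ξ)
  have h2 := Ex_normSq_nonneg (cl (N + 1)) (fun S => H N S ξ)
  have h3 := (hG N ξ).2
  have h4 := (hH N ξ).2
  have hC : 0 ≤ C := h1.trans h3
  gcongr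

theorem IsErr.mul_bdd {G H : Sq} (hG : IsErr G) (hH : IsBdd H) :
    IsErr (fun N S ξ => G N S ξ * H N S ξ) := by
  obtain ⟨C, d, hG⟩ := hG
  obtain ⟨D, e, hH⟩ := hH
  have hD : 0 ≤ D := (Ex_normSq_nonneg (cl (0 + 1)) (fun S => H 0 S 0)).trans (hH 0 0).2
  refine ⟨3 ^ (d + e) * C * D, d + e, fun N => ⟨fun ξ => ((hG N).1 ξ).mul (hH N ξ).1, ?_⟩⟩
  calc ∑ ξ, Ex (cl (N + 1)) (fun S => ‖G N S ξ * H N S ξ‖ ^ 2)
      ≤ ∑ ξ, 3 ^ (d + e) * Ex (cl (N + 1)) (fun S => ‖G N S ξ‖ ^ 2) * D := by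
        refine Finset.sum_le_sum fun ξ _ => ?_
        refine (bonami _ d e _ _ ((hG N).1 ξ) (hH N ξ).1).trans ?_
        have h1 := Ex_normSq_nonneg (cl (N + 1)) (fun S => G N S ξ)
        exact mul_le_mul_of_nonneg_left (hH N ξ).2 (by positivity)
    _ = 3 ^ (d + e) * (∑ ξ, Ex (cl (N + 1)) (fun S => ‖G N S ξ‖ ^ 2)) * D := by
        rw [Finset.mul_sum, Finset.sum_mul]
    _ ≤ 3 ^ (d + e) * C * D := by
        have := (hG N).2
        gcongr

theorem IsErr.bdd_mul {G H : Sq} (hG : IsBdd G) (hH : IsErr H) :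
    IsErr (fun N S ξ => G N S ξ * H N S ξ) := by
  have h := hH.mul_bdd hG
  have e : (fun N S ξ => G N S ξ * H N S ξ : Sq) = fun N S ξ => H N S ξ * G N S ξ := by
    funext N S ξ
    ring
  rw [e]
  exact h

theorem IsErr.opE {G : Sq} (hG : IsErr G) : IsErr (fun N S ξ => opE S (G N S) ξ) := by
  obtain ⟨C, d, hG⟩ := hG
  refine ⟨C, d + 1, fun N => ⟨fun ξ => LowDeg.opE (fun ζ => (hG N).1 ζ) ξ, ?_⟩⟩
  refine le_trans ?_ (hG N).2
  rw [← Ex_sum, ← Ex_sum]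
  exact Ex_mono _ fun S _ => opE_norm_le S (G N S)

theorem norm_add_sq_le (a b : ℂ) : ‖a + b‖ ^ 2 ≤ 2 * ‖a‖ ^ 2 + 2 * ‖b‖ ^ 2 := by
  have h := norm_add_le a b
  nlinarith [sq_nonneg (‖a‖ - ‖b‖), norm_nonneg (a + b), norm_nonneg a, norm_nonneg b]

theorem IsBdd.add {G H : Sq} (hG : IsBdd G) (hH : IsBdd H) :
    IsBdd (fun N S ξ => G N S ξ + H N S ξ) := by
  obtain ⟨C, d, hG⟩ := hG
  obtain ⟨D, e, hH⟩ := hH
  refine ⟨2 * C + 2 * D, max d e, fun N ξ => ⟨((hG N ξ).1.mono (le_max_left _ _)).add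
    ((hH N ξ).1.mono (le_max_right _ _)), ?_⟩⟩
  have h1 := (hG N ξ).2
  have h2 := (hH N ξ).2
  calc _ ≤ Ex (cl (N + 1)) (fun S => 2 * ‖G N S ξ‖ ^ 2 + 2 * ‖H N S ξ‖ ^ 2) :=
        Ex_mono _ fun S _ => norm_add_sq_le _ _
    _ ≤ 2 * C + 2 * D := by
        rw [Ex_add, Ex_const_mul, Ex_const_mul]
        linarith

theorem IsErr.add {G H : Sq} (hG : IsErr G) (hH : IsErr H) :
    IsErr (fun N S ξ => G N S ξ + H N S ξ) := by
  obtain ⟨C, d, hG⟩ := hG
  obtain ⟨D, e, hH⟩ := hH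
  refine ⟨2 * C + 2 * D, max d e, fun N => ⟨fun ξ => (((hG N).1 ξ).mono (le_max_left _ _)).add
    (((hH N).1 ξ).mono (le_max_right _ _)), ?_⟩⟩
  have h1 := (hG N).2
  have h2 := (hH N).2
  calc _ ≤ ∑ ξ, Ex (cl (N + 1)) (fun S => 2 * ‖G N S ξ‖ ^ 2 + 2 * ‖H N S ξ‖ ^ 2) :=
        Finset.sum_le_sum fun ξ _ => Ex_mono _ fun S _ => norm_add_sq_le _ _
    _ = 2 * ∑ ξ, Ex (cl (N + 1)) (fun S => ‖G N S ξ‖ ^ 2) +
          2 * ∑ ξ, Ex (cl (N + 1)) (fun S => ‖H N S ξ‖ ^ 2) := by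
        rw [Finset.mul_sum, Finset.mul_sum, ← Finset.sum_add_distrib]
        refine Finset.sum_congr rfl fun ξ _ => ?_
        rw [Ex_add, Ex_const_mul, Ex_const_mul]
    _ ≤ 2 * C + 2 * D := by linarith

theorem IsBdd.smul {G : Sq} (hG : IsBdd G) (c : ℕ → ℂ) (M : ℝ) (hc : ∀ N, ‖c N‖ ≤ M) :
    IsBdd (fun N S ξ => c N * G N S ξ) := by
  obtain ⟨C, d, hG⟩ := hG
  refine ⟨M ^ 2 * C, d, fun N ξ => ⟨(hG N ξ).1.const_mul _, ?_⟩⟩
  have h1 := (hG N ξ).2
  have h0 := Ex_normSq_nonneg (cl (N + 1)) (fun S => G N S ξ)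
  have e : Ex (cl (N + 1)) (fun S => ‖c N * G N S ξ‖ ^ 2) =
      ‖c N‖ ^ 2 * Ex (cl (N + 1)) (fun S => ‖G N S ξ‖ ^ 2) := by
    rw [← Ex_const_mul]
    exact Ex_congr _ fun S _ => by rw [norm_mul, mul_pow]
  rw [e]
  have hM := hc N
  have hC : 0 ≤ C := h0.trans h1
  gcongr

theorem IsErr.smul {G : Sq} (hG : IsErr G) (c : ℕ → ℂ) (M : ℝ) (hc : ∀ N, ‖c N‖ ≤ M) :
    IsErr (fun N S ξ => c N * G N S ξ) := by
  obtain ⟨C, d, hG⟩ := hG
  refine ⟨M ^ 2 * C, d, fun N => ⟨fun ξ => ((hG N).1 ξ).const_mul _, ?_⟩⟩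
  have h1 := (hG N).2
  have h0 : 0 ≤ ∑ ξ, Ex (cl (N + 1)) (fun S => ‖G N S ξ‖ ^ 2) :=
    Finset.sum_nonneg fun ξ _ => Ex_normSq_nonneg _ _
  have e : ∑ ξ, Ex (cl (N + 1)) (fun S => ‖c N * G N S ξ‖ ^ 2) =
      ‖c N‖ ^ 2 * ∑ ξ, Ex (cl (N + 1)) (fun S => ‖G N S ξ‖ ^ 2) := by
    rw [Finset.mul_sum]
    refine Finset.sum_congr rfl fun ξ _ => ?_
    rw [← Ex_const_mul]
    exact Ex_congr _ fun S _ => by rw [norm_mul, mul_pow]
  rw [e]
  have hM := hc N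
  have hC : 0 ≤ C := h0.trans h1
  gcongr

theorem IsBdd.const_mul {G : Sq} (hG : IsBdd G) (a : ℂ) :
    IsBdd (fun N S ξ => a * G N S ξ) :=
  hG.smul (fun _ => a) ‖a‖ fun _ => le_rfl

theorem IsErr.const_mul {G : Sq} (hG : IsErr G) (a : ℂ) :
    IsErr (fun N S ξ => a * G N S ξ) :=
  hG.smul (fun _ => a) ‖a‖ fun _ => le_rfl

theorem IsBdd.neg {G : Sq} (hG : IsBdd G) : IsBdd (fun N S ξ => - G N S ξ) := by
  have h := hG.const_mul (-1)
  have e : (fun N S ξ => - G N S ξ : Sq) = fun N S ξ => -1 * G N S ξ := by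
    funext N S ξ
    ring
  rw [e]
  exact h

theorem IsErr.neg {G : Sq} (hG : IsErr G) : IsErr (fun N S ξ => - G N S ξ) := by
  have h := hG.const_mul (-1)
  have e : (fun N S ξ => - G N S ξ : Sq) = fun N S ξ => -1 * G N S ξ := by
    funext N S ξ
    ring
  rw [e]
  exact h

theorem IsBdd.sub {G H : Sq} (hG : IsBdd G) (hH : IsBdd H) :
    IsBdd (fun N S ξ => G N S ξ - H N S ξ) := by
  have h := hG.add hH.neg
  have e : (fun N S ξ => G N S ξ - H N S ξ : Sq) = fun N S ξ => G N S ξ + -H N S ξ := by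
    funext N S ξ
    ring
  rw [e]
  exact h

theorem IsErr.sub {G H : Sq} (hG : IsErr G) (hH : IsErr H) :
    IsErr (fun N S ξ => G N S ξ - H N S ξ) := by
  have h := hG.add hH.neg
  have e : (fun N S ξ => G N S ξ - H N S ξ : Sq) = fun N S ξ => G N S ξ + -H N S ξ := by
    funext N S ξ
    ring
  rw [e]
  exact h

theorem IsBdd.const (a : ℕ → ℂ) (M : ℝ) (ha : ∀ N, ‖a N‖ ≤ M) : IsBdd (fun N _ _ => a N) := by
  refine ⟨M ^ 2, 0, fun N ξ => ⟨LowDeg.const _ _ _, ?_⟩⟩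
  rw [Ex_const]
  have := ha N
  gcongr

theorem IsErr.zero : IsErr (fun _ _ _ => 0) := by
  refine ⟨0, 0, fun N => ⟨fun ξ => LowDeg.const _ _ _, ?_⟩⟩
  refine (Finset.sum_eq_zero fun ξ _ => ?_).le
  rw [Ex_const]
  simp

theorem IsBdd.zero : IsBdd (fun _ _ _ => 0) := IsBdd.const (fun _ => 0) 0 fun _ => by simp

theorem IsBdd.sum {κ : Type*} (s : Finset κ) {G : κ → Sq} (hG : ∀ k ∈ s, IsBdd (G k)) :
    IsBdd (fun N S ξ => ∑ k ∈ s, G k N S ξ) := by
  classical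
  induction s using Finset.induction_on with
  | empty =>
    simp only [Finset.sum_empty]
    exact IsBdd.zero
  | insert a s ha ih =>
    simp only [Finset.sum_insert ha]
    exact (hG a (Finset.mem_insert_self _ _)).add (ih fun k hk => hG k (Finset.mem_insert_of_mem hk))

theorem IsErr.sum {κ : Type*} (s : Finset κ) {G : κ → Sq} (hG : ∀ k ∈ s, IsErr (G k)) :
    IsErr (fun N S ξ => ∑ k ∈ s, G k N S ξ) := by
  classical
  induction s using Finset.induction_on with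
  | empty =>
    simp only [Finset.sum_empty]
    exact IsErr.zero
  | insert a s ha ih =>
    simp only [Finset.sum_insert ha]
    exact (hG a (Finset.mem_insert_self _ _)).add (ih fun k hk => hG k (Finset.mem_insert_of_mem hk))

theorem IsErr.isBdd {G : Sq} (hG : IsErr G) : IsBdd G := by
  obtain ⟨C, d, hG⟩ := hG
  refine ⟨C, d, fun N ξ => ⟨(hG N).1 ξ, ?_⟩⟩
  refine le_trans ?_ (hG N).2
  exact Finset.single_le_sum (f := fun ξ => Ex (cl (N + 1)) (fun S => ‖G N S ξ‖ ^ 2))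
    (fun ξ _ => Ex_normSq_nonneg _ _) (Finset.mem_univ ξ)

/-- a bounded sequence times scalars of size at most a constant over the root of N + 1 -/
theorem IsBdd.smul_small {G : Sq} (hG : IsBdd G) (c : ℕ → ℂ) (M : ℝ)
    (hc : ∀ N : ℕ, ‖c N‖ ^ 2 * (N + 1 : ℕ) ≤ M) : IsErr (fun N S ξ => c N * G N S ξ) := by
  obtain ⟨C, d, hG⟩ := hG
  have hC : 0 ≤ C := (Ex_normSq_nonneg (cl (0 + 1)) (fun S => G 0 S 0)).trans (hG 0 0).2
  refine ⟨M * C, d, fun N => ⟨fun ξ => (hG N ξ).1.const_mul _, ?_⟩⟩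
  have e : ∀ ξ, Ex (cl (N + 1)) (fun S => ‖c N * G N S ξ‖ ^ 2) =
      ‖c N‖ ^ 2 * Ex (cl (N + 1)) (fun S => ‖G N S ξ‖ ^ 2) := by
    intro ξ
    rw [← Ex_const_mul]
    exact Ex_congr _ fun S _ => by rw [norm_mul, mul_pow]
  calc ∑ ξ, Ex (cl (N + 1)) (fun S => ‖c N * G N S ξ‖ ^ 2)
      ≤ ∑ _ξ : ZMod (N + 1), ‖c N‖ ^ 2 * C := by
        refine Finset.sum_le_sum fun ξ _ => ?_
        rw [e ξ]
        have := (hG N ξ).2
        gcongr
    _ = ‖c N‖ ^ 2 * (N + 1 : ℕ) * C := by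
        rw [Finset.sum_const, Finset.card_univ, ZMod.card, nsmul_eq_mul]
        ring
    _ ≤ M * C := mul_le_mul_of_nonneg_right (hc N) hC

theorem IsErr.congr {G H : Sq} (hG : IsErr G)
    (h : ∀ (N : ℕ), ∀ S ∈ (cl (N + 1)).powerset, ∀ ξ, H N S ξ = G N S ξ) : IsErr H := by
  obtain ⟨C, d, hG⟩ := hG
  refine ⟨C, d, fun N => ⟨fun ξ => ((hG N).1 ξ).congr fun S hS => h N S hS ξ, ?_⟩⟩
  refine le_trans (le_of_eq ?_) (hG N).2
  refine Finset.sum_congr rfl fun ξ _ => Ex_congr _ fun S hS => ?_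
  rw [h N S hS ξ]

theorem IsBdd.congr {G H : Sq} (hG : IsBdd G)
    (h : ∀ (N : ℕ), ∀ S ∈ (cl (N + 1)).powerset, ∀ ξ, H N S ξ = G N S ξ) : IsBdd H := by
  obtain ⟨C, d, hG⟩ := hG
  refine ⟨C, d, fun N ξ => ⟨(hG N ξ).1.congr fun S hS => h N S hS ξ, ?_⟩⟩
  refine le_trans (le_of_eq ?_) (hG N ξ).2
  refine Ex_congr _ fun S hS => ?_
  rw [h N S hS ξ]

end Pool.Agent.Th2c
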