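import Mathlib

/-!
Definitions for the proof that the expected Lovasz number of a uniform random circulant graph on
Z_n is asymptotic to the square root of n.
-/

set_option autoImplicit false

namespace Pool.Agent.Th2c

open Finset Polynomial
open scoped Finset

/-! ### classes, subsets, expectations -/

/-- class of an element of Z_n modulo sign -/
def cls {n : ℕ} (x : ZMod n) : ℕ := min x.val (-x).val

/-- the classes of the nonzero elements of Z_n -/
def cl (n : ℕ) : Finset ℕ := Finset.Icc 1 (n / 2)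

/-- p-biased expectation over the subsets of I -/
noncomputable def EB (I : Finset ℕ) (p : ℝ) (f : Finset ℕ → ℝ) : ℝ :=
  ∑ S ∈ I.powerset, p ^ #S * (1 - p) ^ (#I - #S) * f S

/-- uniform expectation over the subsets of I, values in a field -/
noncomputable def Ex {K : Type} [Field K] (I : Finset ℕ) (f : Finset ℕ → K) : K :=
  (∑ S ∈ I.powerset, f S) / 2 ^ #I

/-- the sign attached to the class i: plus one if i is in S -/
def sg {K : Type} [Ring K] (S : Finset ℕ) (i : ℕ) : K := if i ∈ S then 1 else -1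

open Classical in
/-- indicator of failure -/
noncomputable def bad (P : Prop) : ℝ := if P then 0 else 1

/-! ### cosine transform of even functions -/

/-- real part of the standard character -/
noncomputable def cs {n : ℕ} [NeZero n] (t : ZMod n) : ℝ := (ZMod.stdAddChar t : ℂ).re

/-- cosine transform -/
noncomputable def ct {n : ℕ} [NeZero n] (f : ZMod n → ℝ) (ξ : ZMod n) : ℝ :=
  ∑ x, f x * cs (x * ξ)

/-- inverse cosine transform -/
noncomputable def ict {n : ℕ} [NeZero n] (b : ZMod n → ℝ) (x : ZMod n) : ℝ :=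
  (∑ ξ, b ξ * cs (x * ξ)) / n

/-! ### the frozen quantity -/

/-- the Lovasz number of the circulant graph with connection set S (semidefinite form) -/
noncomputable def theta (n : ℕ) (S : Finset ℕ) : ℝ :=
  sSup {r : ℝ | ∃ B : Matrix (Fin n) (Fin n) ℝ,
              B.PosSemidef ∧ B.trace = 1 ∧
              (∀ i j : Fin n,
                (SimpleGraph.fromRel
                  (fun a b : Fin n => min (b - a).val (a - b).val ∈ S)).Adj i j →
                  B i j = 0) ∧
              r = ∑ i, ∑ j, B i j}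

/-! ### the iteration (real form) -/

/-- point mass at the zero frequency -/
def dl {n : ℕ} (ξ : ZMod n) : ℝ := if ξ = 0 then 1 else 0

/-- multiply the inverse transform by the signs (by zero at zero), transform back -/
noncomputable def opR {n : ℕ} [NeZero n] (S : Finset ℕ) (f : ZMod n → ℝ) : ZMod n → ℝ :=
  ct (fun x => if x = 0 then 0 else (sg S (cls x) : ℝ) * ict f x)

/-- the iterates -/
noncomputable def wit (A b : ℝ) (u : ℝ[X]) (n : ℕ) [NeZero n] (S : Finset ℕ) :
    ℕ → ZMod n → ℝ
  | 0 => opR S (fun ξ => Real.sqrt n * dl ξ)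
  | (t + 1) => opR S (fun ξ => (A * Real.sqrt n * dl ξ + u.eval (wit A b u n S t ξ)) / b)

/-- Gaussian expectation of a polynomial -/
noncomputable def gm (P : ℝ[X]) : ℝ :=
  ∫ x, P.eval x ∂(ProbabilityTheory.gaussianReal 0 1)

/-- probabilists Hermite polynomials -/
noncomputable def He : ℕ → ℝ[X]
  | 0 => 1
  | 1 => X
  | (m + 2) => X * He (m + 1) - C ((m : ℝ) + 1) * He m

/-! ### low degree functions and classes of sequences -/

/-- polynomials of degree at most d in the signs -/
def LowDeg (I : Finset ℕ) (d : ℕ) (f : Finset ℕ → ℂ) : Prop :=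
  ∃ c : Finset ℕ → ℂ, ∀ S ∈ I.powerset,
    f S = ∑ A ∈ I.powerset with #A ≤ d, c A * ∏ i ∈ A, (sg S i : ℂ)

/-- sequences of random functions on the frequencies -/
abbrev Sq := (N : ℕ) → Finset ℕ → ZMod (N + 1) → ℂ

/-- error class -/
def IsErr (G : Sq) : Prop :=
  ∃ (C : ℝ) (d : ℕ), ∀ N : ℕ, (∀ ξ, LowDeg (cl (N + 1)) d (fun S => G N S ξ)) ∧
    ∑ ξ, Ex (cl (N + 1)) (fun S => ‖G N S ξ‖ ^ 2) ≤ C

/-- bounded class -/
def IsBdd (G : Sq) : Prop :=
  ∃ (C : ℝ) (d : ℕ), ∀ (N : ℕ) (ξ : ZMod (N + 1)), LowDeg (cl (N + 1)) d (fun S => G N S ξ) ∧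
    Ex (cl (N + 1)) (fun S => ‖G N S ξ‖ ^ 2) ≤ C

/-- complex form of the operator -/
noncomputable def opE {n : ℕ} [NeZero n] (S : Finset ℕ) (f : ZMod n → ℂ) (ξ : ZMod n) : ℂ :=
  (∑ x ∈ univ.erase (0 : ZMod n), (sg S (cls x) : ℂ) *
    ∑ ζ : ZMod n, f ζ * (ZMod.stdAddChar (x * (ξ - ζ)) : ℂ)) / n

/-! ### configurations -/

/-- a configuration: leaves, vertices and an integer matrix of labels -/
structure Conf where
  /-- leaves -/
  L : Type
  /-- vertices -/
  V : Type
  [fL : Fintype L]
  [dL : DecidableEq L]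
  [fV : Fintype V]
  [dV : DecidableEq V]
  /-- label matrix -/
  a : V → L → ℤ

attribute [instance] Conf.fL Conf.dL Conf.fV Conf.dV

namespace Conf

/-- label of the vertex v -/
def lab (c : Conf) {n : ℕ} (x : c.L → ZMod n) (v : c.V) : ZMod n :=
  ∑ l, (c.a v l : ZMod n) * x l

/-- all labels are nonzero and distinct up to sign -/
def nc (c : Conf) {n : ℕ} (x : c.L → ZMod n) : Prop :=
  (∀ v, c.lab x v ≠ 0) ∧ Function.Injective (fun v => cls (c.lab x v))

open Classical in
/-- the random function attached to a configuration -/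
noncomputable def F (c : Conf) (n : ℕ) [NeZero n] (S : Finset ℕ) (ξ : ZMod n) : ℂ :=
  (((Real.sqrt n)⁻¹ ^ Fintype.card c.L : ℝ) : ℂ) *
    ∑ x : c.L → ZMod n, if c.nc x then
      (∏ v, (sg S (cls (c.lab x v)) : ℂ)) * (ZMod.stdAddChar ((∑ l, x l) * ξ) : ℂ) else 0

/-- every leaf is a vertex, every vertex label has a unit coefficient, and the connectedness
property -/
structure IsTree (c : Conf) : Prop where
  leaf : ∀ l : c.L, ∃ v : c.V, ∀ l' : c.L, c.a v l' = if l' = l then 1 else 0
  unit : ∀ v : c.V, ∃ l : c.L, c.a v l = 1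
  ne : Nonempty c.V
  conn : ∀ A : Finset c.V, A.Nonempty → A ≠ univ →
    ∃ ζ : c.V → ℤ, (∀ l, ∑ v, ζ v * c.a v l = 0) ∧ ∃ l, |∑ v ∈ Aᶜ, ζ v * c.a v l| = 1

/-- the one-leaf tree -/
def one : Conf where
  L := Unit
  V := Unit
  a := fun _ _ => 1

/-- disjoint union of configurations -/
def sig {ι : Type} [Fintype ι] [DecidableEq ι] (c : ι → Conf) : Conf where
  L := Σ i, (c i).L
  V := Σ i, (c i).V
  a := fun v l => if h : l.1 = v.1 then (c v.1).a v.2 (h ▸ l.2) else 0

/-- add a root whose label is the sum of all leaves -/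
def node (c : Conf) : Conf where
  L := c.L
  V := Option c.V
  a := fun v l => match v with
    | none => 1
    | some v => c.a v l

end Conf

/-- the covariance of two configurations at level n -/
noncomputable def KK (n : ℕ) [NeZero n] (c d : Conf) : ℂ :=
  (∑ ξ : ZMod n, Ex (cl n) (fun S => c.F n S ξ * d.F n S ξ)) / n

end Pool.Agent.Th2c
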