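import Pool.Agent.Work.MP_2c2d16_pr.Defs

/-!
Biased expectation over the subsets of a finite set.
-/

set_option autoImplicit false

namespace Pool.Agent.Th2c

open Finset
open scoped Finset

lemma EB_empty (p : ℝ) (f : Finset ℕ → ℝ) : EB ∅ p f = f ∅ := by
  simp [EB]

lemma EB_insert {I : Finset ℕ} {a : ℕ} (ha : a ∉ I) (p : ℝ) (f : Finset ℕ → ℝ) :
    EB (insert a I) p f = (1 - p) * EB I p f + p * EB I p (fun S => f (insert a S)) := by
  unfold EB
  rw [Finset.sum_powerset_insert ha, Finset.mul_sum, Finset.mul_sum]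
  congr 1
  · apply Finset.sum_congr rfl
    intro S hS
    have hS' := Finset.mem_powerset.mp hS
    have hc : #S ≤ #I := Finset.card_le_card hS'
    rw [Finset.card_insert_of_notMem ha]
    have : #I + 1 - #S = (#I - #S) + 1 := by omega
    rw [this, pow_succ]
    ring
  · apply Finset.sum_congr rfl
    intro S hS
    have hS' := Finset.mem_powerset.mp hS
    have haS : a ∉ S := fun h => ha (hS' h)
    rw [Finset.card_insert_of_notMem ha, Finset.card_insert_of_notMem haS]
    have : #I + 1 - (#S + 1) = #I - #S := by omega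
    rw [this, pow_succ]
    ring

lemma EB_congr {I : Finset ℕ} {p : ℝ} {f g : Finset ℕ → ℝ} (h : ∀ S, S ⊆ I → f S = g S) :
    EB I p f = EB I p g := by
  unfold EB
  apply Finset.sum_congr rfl
  intro S hS
  rw [h S (Finset.mem_powerset.mp hS)]

lemma EB_add (I : Finset ℕ) (p : ℝ) (f g : Finset ℕ → ℝ) :
    EB I p (fun S => f S + g S) = EB I p f + EB I p g := by
  unfold EB
  rw [← Finset.sum_add_distrib]
  exact Finset.sum_congr rfl fun S _ => by ring

lemma EB_sub (I : Finset ℕ) (p : ℝ) (f g : Finset ℕ → ℝ) :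
    EB I p (fun S => f S - g S) = EB I p f - EB I p g := by
  unfold EB
  rw [← Finset.sum_sub_distrib]
  exact Finset.sum_congr rfl fun S _ => by ring

lemma EB_mul_left (I : Finset ℕ) (p c : ℝ) (f : Finset ℕ → ℝ) :
    EB I p (fun S => c * f S) = c * EB I p f := by
  unfold EB
  rw [Finset.mul_sum]
  exact Finset.sum_congr rfl fun S _ => by ring

lemma EB_sum {ι : Type*} (s : Finset ι) (I : Finset ℕ) (p : ℝ) (f : ι → Finset ℕ → ℝ) :
    EB I p (fun S => ∑ i ∈ s, f i S) = ∑ i ∈ s, EB I p (f i) := by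
  unfold EB
  rw [Finset.sum_comm]
  exact Finset.sum_congr rfl fun S _ => by rw [Finset.mul_sum]

lemma EB_const (I : Finset ℕ) (p c : ℝ) : EB I p (fun _ => c) = c := by
  induction I using Finset.induction_on with
  | empty => simp [EB]
  | insert a I ha ih => rw [EB_insert ha, ih]; ring

lemma EB_nonneg {I : Finset ℕ} {p : ℝ} (h0 : 0 ≤ p) (h1 : p ≤ 1) {f : Finset ℕ → ℝ}
    (hf : ∀ S, S ⊆ I → 0 ≤ f S) : 0 ≤ EB I p f := by
  unfold EB
  apply Finset.sum_nonneg
  intro S hS
  have h2 : 0 ≤ 1 - p := by linarith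
  exact mul_nonneg (mul_nonneg (pow_nonneg h0 _) (pow_nonneg h2 _))
    (hf S (Finset.mem_powerset.mp hS))

lemma EB_mono {I : Finset ℕ} {p : ℝ} (h0 : 0 ≤ p) (h1 : p ≤ 1) {f g : Finset ℕ → ℝ}
    (hf : ∀ S, S ⊆ I → f S ≤ g S) : EB I p f ≤ EB I p g := by
  have h := EB_nonneg (I := I) h0 h1 (f := fun S => g S - f S) (fun S hS => by
    have := hf S hS; linarith)
  rw [EB_sub] at h
  linarith

lemma EB_comm (I J : Finset ℕ) (p q : ℝ) (f : Finset ℕ → Finset ℕ → ℝ) :
    EB I p (fun A => EB J q (fun B => f A B)) = EB J q (fun B => EB I p (fun A => f A B)) := by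
  unfold EB
  simp_rw [Finset.mul_sum]
  rw [Finset.sum_comm]
  exact Finset.sum_congr rfl fun S _ => Finset.sum_congr rfl fun T _ => by ring

/-- general combination rule: independent subsets combined coordinatewise -/
lemma EB_or (I : Finset ℕ) (p q : ℝ) (f : Finset ℕ → ℝ) :
    EB I p (fun A => EB I q (fun B => f (A ∪ B))) = EB I (1 - (1 - p) * (1 - q)) f := by
  induction I using Finset.induction_on generalizing f with
  | empty => simp [EB]
  | insert a I ha ih =>
    rw [EB_insert ha, EB_insert ha]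
    simp_rw [EB_insert ha]
    have e1 : ∀ A B : Finset ℕ, insert a A ∪ insert a B = insert a (A ∪ B) := by
      intro A B; ext x; simp only [mem_union, mem_insert]; tauto
    have e2 : ∀ A B : Finset ℕ, insert a A ∪ B = insert a (A ∪ B) := by
      intro A B; ext x; simp only [mem_union, mem_insert]; tauto
    have e3 : ∀ A B : Finset ℕ, A ∪ insert a B = insert a (A ∪ B) := by
      intro A B; ext x; simp only [mem_union, mem_insert]; tauto
    simp only [e1, e2, e3, EB_add, EB_mul_left]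
    rw [ih f, ih (fun S => f (insert a S))]
    ring

lemma EB_inter (I : Finset ℕ) (p q : ℝ) (f : Finset ℕ → ℝ) :
    EB I p (fun A => EB I q (fun B => f (A ∩ B))) = EB I (p * q) f := by
  induction I using Finset.induction_on generalizing f with
  | empty => simp [EB]
  | insert a I ha ih =>
    rw [EB_insert ha, EB_insert ha]
    simp_rw [EB_insert ha]
    have hA : ∀ A : Finset ℕ, A ⊆ I → a ∉ A := fun A hA h => ha (hA h)
    have k1 : EB I p (fun A => EB I q (fun B => f (A ∩ insert a B)))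
        = EB I p (fun A => EB I q (fun B => f (A ∩ B))) := by
      apply EB_congr; intro A hA1
      apply EB_congr; intro B hB1
      rw [Finset.inter_insert_of_notMem (hA A hA1)]
    have k2 : EB I p (fun A => EB I q (fun B => f (insert a A ∩ B)))
        = EB I p (fun A => EB I q (fun B => f (A ∩ B))) := by
      apply EB_congr; intro A hA1
      apply EB_congr; intro B hB1
      rw [Finset.insert_inter_of_notMem (hA B hB1)]
    have k3 : EB I p (fun A => EB I q (fun B => f (insert a A ∩ insert a B)))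
        = EB I p (fun A => EB I q (fun B => f (insert a (A ∩ B)))) := by
      apply EB_congr; intro A hA1
      apply EB_congr; intro B hB1
      rw [← Finset.insert_inter_distrib]
    simp only [EB_add, EB_mul_left]
    rw [k1, k2, k3, ih f, ih (fun S => f (insert a S))]
    ring

lemma EB_sdiff (I : Finset ℕ) (p q : ℝ) (f : Finset ℕ → ℝ) :
    EB I p (fun A => EB I q (fun B => f (A \ B))) = EB I (p * (1 - q)) f := by
  induction I using Finset.induction_on generalizing f with
  | empty => simp [EB]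
  | insert a I ha ih =>
    rw [EB_insert ha, EB_insert ha]
    simp_rw [EB_insert ha]
    have hA : ∀ A : Finset ℕ, A ⊆ I → a ∉ A := fun A hA h => ha (hA h)
    have k1 : EB I p (fun A => EB I q (fun B => f (A \ insert a B)))
        = EB I p (fun A => EB I q (fun B => f (A \ B))) := by
      apply EB_congr; intro A hA1
      apply EB_congr; intro B hB1
      congr 1
      ext x
      simp only [mem_sdiff, mem_insert, not_or]
      constructor
      · rintro ⟨h1, _, h3⟩; exact ⟨h1, h3⟩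
      · rintro ⟨h1, h2⟩; exact ⟨h1, fun h => hA A hA1 (h ▸ h1), h2⟩
    have k2 : EB I p (fun A => EB I q (fun B => f (insert a A \ B)))
        = EB I p (fun A => EB I q (fun B => f (insert a (A \ B)))) := by
      apply EB_congr; intro A hA1
      apply EB_congr; intro B hB1
      congr 1
      ext x
      simp only [mem_sdiff, mem_insert]
      constructor
      · rintro ⟨h1 | h1, h2⟩
        · exact Or.inl h1
        · exact Or.inr ⟨h1, h2⟩
      · rintro (h1 | ⟨h1, h2⟩)
        · exact ⟨Or.inl h1, fun h => hA B hB1 (h1 ▸ h)⟩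
        · exact ⟨Or.inr h1, h2⟩
    have k3 : EB I p (fun A => EB I q (fun B => f (insert a A \ insert a B)))
        = EB I p (fun A => EB I q (fun B => f (A \ B))) := by
      apply EB_congr; intro A hA1
      apply EB_congr; intro B hB1
      congr 1
      ext x
      simp only [mem_sdiff, mem_insert, not_or]
      constructor
      · rintro ⟨h1 | h1, h2, h3⟩
        · exact absurd h1 h2
        · exact ⟨h1, h3⟩
      · rintro ⟨h1, h2⟩
        exact ⟨Or.inr h1, fun h => hA A hA1 (h ▸ h1), h2⟩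
    simp only [EB_add, EB_mul_left]
    rw [k1, k2, k3, ih f, ih (fun S => f (insert a S))]
    ring

lemma EB_compl (I : Finset ℕ) (p : ℝ) (f : Finset ℕ → ℝ) :
    EB I p (fun S => f (I \ S)) = EB I (1 - p) f := by
  unfold EB
  apply Finset.sum_nbij' (fun S => I \ S) (fun S => I \ S)
  · intro S hS; exact Finset.mem_powerset.mpr Finset.sdiff_subset
  · intro S hS; exact Finset.mem_powerset.mpr Finset.sdiff_subset
  · intro S hS; exact Finset.sdiff_sdiff_eq_self (Finset.mem_powerset.mp hS)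
  · intro S hS; exact Finset.sdiff_sdiff_eq_self (Finset.mem_powerset.mp hS)
  · intro S hS
    have hS' := Finset.mem_powerset.mp hS
    have hc : #S ≤ #I := Finset.card_le_card hS'
    rw [Finset.card_sdiff_of_subset hS']
    have : #I - (#I - #S) = #S := by omega
    rw [this]
    ring

lemma EB_half (I : Finset ℕ) (f : Finset ℕ → ℝ) :
    EB I (1 / 2) f = (∑ S ∈ I.powerset, f S) / 2 ^ #I := by
  unfold EB
  rw [Finset.sum_div]
  apply Finset.sum_congr rfl
  intro S hS
  have hc : #S ≤ #I := Finset.card_le_card (Finset.mem_powerset.mp hS)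
  have h1 : (1 - (1 / 2 : ℝ)) = 1 / 2 := by norm_num
  rw [h1, ← pow_add]
  have : #S + (#I - #S) = #I := by omega
  rw [this]
  simp only [one_div, inv_pow]
  field_simp

lemma EB_half_eq_Ex (I : Finset ℕ) (f : Finset ℕ → ℝ) : EB I (1 / 2) f = Ex I f := by
  rw [EB_half]; rfl

lemma Ex_insert {K : Type} [Field K] [CharZero K] {I : Finset ℕ} {a : ℕ} (ha : a ∉ I)
    (f : Finset ℕ → K) :
    Ex (insert a I) f = (Ex I f + Ex I (fun S => f (insert a S))) / 2 := by
  unfold Ex
  rw [Finset.sum_powerset_insert ha, Finset.card_insert_of_notMem ha, pow_succ]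
  field_simp

/-- Markov inequality -/
lemma EB_markov {I : Finset ℕ} {p : ℝ} (h0 : 0 ≤ p) (h1 : p ≤ 1) {f : Finset ℕ → ℝ}
    (hf : ∀ S, S ⊆ I → 0 ≤ f S) {t : ℝ} (ht : 0 < t) :
    EB I p (fun S => bad (f S ≤ t)) ≤ EB I p f / t := by
  rw [le_div_iff₀ ht, mul_comm, ← EB_mul_left]
  apply EB_mono h0 h1
  intro S hS
  unfold bad
  split_ifs with h
  · simpa using hf S hS
  · push Not at h
    simpa using h.le

lemma bad_of {P : Prop} (h : P) : bad P = 0 := by simp [bad, h]
lemma bad_of_not {P : Prop} (h : ¬ P) : bad P = 1 := by simp [bad, h]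
lemma bad_nonneg (P : Prop) : 0 ≤ bad P := by unfold bad; split_ifs <;> norm_num
lemma bad_le_one (P : Prop) : bad P ≤ 1 := by unfold bad; split_ifs <;> norm_num
lemma bad_mono {P Q : Prop} (h : P → Q) : bad Q ≤ bad P := by
  by_cases hP : P
  · rw [bad_of hP, bad_of (h hP)]
  · rw [bad_of_not hP]; exact bad_le_one Q
lemma bad_and (P Q : Prop) : bad (P ∧ Q) ≤ bad P + bad Q := by
  by_cases hP : P
  · by_cases hQ : Q
    · rw [bad_of ⟨hP, hQ⟩, bad_of hP, bad_of hQ]; norm_num
    · rw [bad_of_not hQ]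
      have := bad_le_one (P ∧ Q)
      have := bad_nonneg P
      linarith
  · rw [bad_of_not hP]
    have := bad_le_one (P ∧ Q)
    have := bad_nonneg Q
    linarith

/-- union bound -/
lemma EB_bad_and {I : Finset ℕ} {p : ℝ} (h0 : 0 ≤ p) (h1 : p ≤ 1) (P Q : Finset ℕ → Prop) :
    EB I p (fun S => bad (P S ∧ Q S)) ≤ EB I p (fun S => bad (P S)) + EB I p (fun S => bad (Q S)) := by
  rw [← EB_add]
  exact EB_mono h0 h1 fun S _ => bad_and _ _

/-- transfer of an event -/
lemma EB_bad_mono {I : Finset ℕ} {p : ℝ} (h0 : 0 ≤ p) (h1 : p ≤ 1) {P Q : Finset ℕ → Prop}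
    (h : ∀ S, S ⊆ I → P S → Q S) :
    EB I p (fun S => bad (Q S)) ≤ EB I p (fun S => bad (P S)) :=
  EB_mono h0 h1 fun S hS => bad_mono (h S hS)

/-! ### simple facts on cs, ct, ict -/

lemma cls_neg {n : ℕ} (x : ZMod n) : cls (-x) = cls x := by
  unfold cls; rw [neg_neg, min_comm]

lemma cls_zero {n : ℕ} : cls (0 : ZMod n) = 0 := by
  simp [cls]

lemma cls_mem {n : ℕ} [NeZero n] {x : ZMod n} (hx : x ≠ 0) : cls x ∈ cl n := by
  have h1 : 0 < x.val := Nat.pos_of_ne_zero (fun h => hx ((ZMod.val_eq_zero x).mp h))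
  have h2 : (-x).val = n - x.val := by
    have : NeZero x := ⟨hx⟩
    exact ZMod.val_neg_of_ne_zero x
  have h3 := ZMod.val_lt x
  unfold cls cl
  rw [Finset.mem_Icc, h2]
  omega

lemma cls_eq_iff {n : ℕ} [NeZero n] {x y : ZMod n} : cls x = cls y ↔ x = y ∨ x = -y := by
  constructor
  · intro h
    by_cases hx : x = 0
    · subst hx
      by_cases hy : y = 0
      · left; exact hy.symm
      · have := cls_mem hy
        rw [← h, cls_zero] at this
        simp [cl] at this
    · by_cases hy : y = 0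
      · subst hy
        have := cls_mem hx
        rw [h, cls_zero] at this
        simp [cl] at this
      · have : NeZero x := ⟨hx⟩
        have : NeZero y := ⟨hy⟩
        have h2 : (-x).val = n - x.val := ZMod.val_neg_of_ne_zero x
        have h3 : (-y).val = n - y.val := ZMod.val_neg_of_ne_zero y
        have hx1 := ZMod.val_lt x
        have hy1 := ZMod.val_lt y
        have hx0 : 0 < x.val := Nat.pos_of_ne_zero (fun h => hx ((ZMod.val_eq_zero x).mp h))
        have hy0 : 0 < y.val := Nat.pos_of_ne_zero (fun h => hy ((ZMod.val_eq_zero y).mp h))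
        unfold cls at h
        rw [h2, h3] at h
        have h4 : x.val = y.val ∨ x.val = n - y.val := by omega
        rcases h4 with h4 | h4
        · left; exact ZMod.val_injective n h4
        · right; apply ZMod.val_injective n; rw [h3]; exact h4
  · rintro (h | h)
    · rw [h]
    · rw [h, cls_neg]

lemma cs_zero {n : ℕ} [NeZero n] : cs (0 : ZMod n) = 1 := by
  simp [cs]

lemma cs_eq {n : ℕ} [NeZero n] (t : ZMod n) : cs t = Real.cos (2 * Real.pi * t.val / n) := by
  have h : (ZMod.stdAddChar t : ℂ) = Complex.exp ((2 * Real.pi * t.val / n : ℝ) * Complex.I) := by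
    conv_lhs => rw [← ZMod.natCast_zmod_val t]
    rw [show ((t.val : ℕ) : ZMod n) = ((t.val : ℤ) : ZMod n) by simp, ZMod.stdAddChar_coe]
    congr 1
    push_cast
    ring
  rw [cs, h, Complex.exp_ofReal_mul_I_re]

lemma stdAddChar_neg' {n : ℕ} [NeZero n] (t : ZMod n) :
    (ZMod.stdAddChar (-t) : ℂ) = (starRingEnd ℂ) (ZMod.stdAddChar t) := by
  rw [AddChar.map_neg_eq_inv, Complex.inv_def, Complex.normSq_eq_norm_sq]
  simp [ZMod.stdAddChar_apply]

lemma cs_neg {n : ℕ} [NeZero n] (t : ZMod n) : cs (-t) = cs t := by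
  rw [cs, stdAddChar_neg', cs]; simp

lemma cs_le_one {n : ℕ} [NeZero n] (t : ZMod n) : cs t ≤ 1 := by
  rw [cs_eq]; exact Real.cos_le_one _

lemma neg_one_le_cs {n : ℕ} [NeZero n] (t : ZMod n) : -1 ≤ cs t := by
  rw [cs_eq]; exact Real.neg_one_le_cos _

lemma abs_cs_le_one {n : ℕ} [NeZero n] (t : ZMod n) : |cs t| ≤ 1 := by
  rw [cs_eq]; exact Real.abs_cos_le_one _

lemma cs_sq_le_one {n : ℕ} [NeZero n] (t : ZMod n) : cs t ^ 2 ≤ 1 := by
  have := abs_cs_le_one t
  rw [← sq_abs]; nlinarith [abs_nonneg (cs t)]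

/-- product formula -/
lemma cs_mul_cs {n : ℕ} [NeZero n] (s t : ZMod n) : cs s * cs t = (cs (s + t) + cs (s - t)) / 2 := by
  have h1 : (ZMod.stdAddChar (s + t) : ℂ) = ZMod.stdAddChar s * ZMod.stdAddChar t :=
    AddChar.map_add_eq_mul _ _ _
  have h2 : (ZMod.stdAddChar (s - t) : ℂ) = ZMod.stdAddChar s * (starRingEnd ℂ) (ZMod.stdAddChar t) := by
    rw [sub_eq_add_neg, AddChar.map_add_eq_mul, stdAddChar_neg']
  unfold cs
  rw [h1, h2, Complex.mul_re, Complex.mul_re]
  simp

/-- orthogonality -/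
lemma sum_cs {n : ℕ} [NeZero n] (x : ZMod n) :
    ∑ ξ : ZMod n, cs (x * ξ) = if x = 0 then (n : ℝ) else 0 := by
  have h := AddChar.sum_mulShift (ψ := (ZMod.stdAddChar (N := n))) x (ZMod.isPrimitive_stdAddChar n)
  have h2 : ∑ ξ : ZMod n, cs (x * ξ) = (∑ ξ : ZMod n, (ZMod.stdAddChar (ξ * x) : ℂ)).re := by
    rw [Complex.re_sum]
    exact Finset.sum_congr rfl fun ξ _ => by rw [cs, mul_comm]
  rw [h2, h]
  split_ifs <;> simp [ZMod.card]

lemma sum_cs' {n : ℕ} [NeZero n] (ξ : ZMod n) :
    ∑ x : ZMod n, cs (x * ξ) = if ξ = 0 then (n : ℝ) else 0 := by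
  rw [← sum_cs ξ]
  exact Finset.sum_congr rfl fun x _ => by rw [mul_comm]

lemma ct_even {n : ℕ} [NeZero n] (f : ZMod n → ℝ) (ξ : ZMod n) : ct f (-ξ) = ct f ξ := by
  unfold ct
  exact Finset.sum_congr rfl fun x _ => by rw [mul_neg, cs_neg]

lemma ict_even {n : ℕ} [NeZero n] (f : ZMod n → ℝ) (x : ZMod n) : ict f (-x) = ict f x := by
  unfold ict
  congr 1
  exact Finset.sum_congr rfl fun ξ _ => by rw [neg_mul, cs_neg]

lemma ict_eq_ct {n : ℕ} [NeZero n] (f : ZMod n → ℝ) (x : ZMod n) : ict f x = ct f x / n := by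
  unfold ict ct
  congr 1
  exact Finset.sum_congr rfl fun ξ _ => by rw [mul_comm x ξ]

lemma ct_ct {n : ℕ} [NeZero n] (f : ZMod n → ℝ) (hf : ∀ x, f (-x) = f x) (x : ZMod n) :
    ct (ct f) x = n * f x := by
  have hn : (n : ℝ) ≠ 0 := Nat.cast_ne_zero.mpr (NeZero.ne n)
  unfold ct
  calc ∑ ξ, (∑ y, f y * cs (y * ξ)) * cs (ξ * x)
      = ∑ y, f y * ∑ ξ, cs (y * ξ) * cs (ξ * x) := by
        simp_rw [Finset.sum_mul, Finset.mul_sum]
        rw [Finset.sum_comm]
        exact Finset.sum_congr rfl fun y _ => Finset.sum_congr rfl fun ξ _ => by ring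
    _ = ∑ y, f y * ((∑ ξ, cs ((y + x) * ξ) + ∑ ξ, cs ((y - x) * ξ)) / 2) := by
        refine Finset.sum_congr rfl fun y _ => ?_
        congr 1
        rw [← Finset.sum_add_distrib, Finset.sum_div]
        refine Finset.sum_congr rfl fun ξ _ => ?_
        rw [cs_mul_cs]
        congr 3 <;> ring
    _ = ∑ y, (f y * (if y = -x then (n : ℝ) else 0) / 2 + f y * (if y = x then (n : ℝ) else 0) / 2) := by
        refine Finset.sum_congr rfl fun y _ => ?_
        rw [sum_cs, sum_cs]
        have e1 : (y + x = 0) ↔ (y = -x) := by rw [add_eq_zero_iff_eq_neg]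
        have e2 : (y - x = 0) ↔ (y = x) := sub_eq_zero
        simp only [e1, e2]
        ring
    _ = n * f x := by
        rw [Finset.sum_add_distrib]
        simp only [mul_ite, mul_zero, ite_div, zero_div, Finset.sum_ite_eq', Finset.mem_univ, if_true]
        rw [hf x]; ring

lemma ct_ict {n : ℕ} [NeZero n] (f : ZMod n → ℝ) (hf : ∀ x, f (-x) = f x) (x : ZMod n) :
    ct (ict f) x = f x := by
  have hn : (n : ℝ) ≠ 0 := Nat.cast_ne_zero.mpr (NeZero.ne n)
  have h : ct (ict f) x = ct (ct f) x / n := by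
    unfold ct
    rw [Finset.sum_div]
    refine Finset.sum_congr rfl fun y _ => ?_
    rw [ict_eq_ct]
    unfold ct
    ring
  rw [h, ct_ct f hf]
  field_simp

lemma ict_ct {n : ℕ} [NeZero n] (f : ZMod n → ℝ) (hf : ∀ x, f (-x) = f x) (x : ZMod n) :
    ict (ct f) x = f x := by
  have hn : (n : ℝ) ≠ 0 := Nat.cast_ne_zero.mpr (NeZero.ne n)
  rw [ict_eq_ct, ct_ct f hf]
  field_simp

/-- Parseval for even functions -/
lemma ct_parseval {n : ℕ} [NeZero n] (f g : ZMod n → ℝ) (hf : ∀ x, f (-x) = f x) :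
    ∑ ξ, ct f ξ * ct g ξ = n * ∑ x, f x * g x := by
  have h : ∑ ξ, ct f ξ * ct g ξ = ∑ x, ct (ct f) x * g x := by
    calc ∑ ξ, ct f ξ * ct g ξ = ∑ ξ, ∑ x, ct f ξ * (g x * cs (x * ξ)) := by
          refine Finset.sum_congr rfl fun ξ _ => ?_
          conv_lhs => rw [show ct g ξ = ∑ x, g x * cs (x * ξ) from rfl]
          rw [Finset.mul_sum]
      _ = ∑ x, ∑ ξ, ct f ξ * (g x * cs (x * ξ)) := Finset.sum_comm
      _ = ∑ x, ct (ct f) x * g x := by
          refine Finset.sum_congr rfl fun x _ => ?_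
          conv_rhs => rw [show ct (ct f) x = ∑ ξ, ct f ξ * cs (ξ * x) from rfl]
          rw [Finset.sum_mul]
          refine Finset.sum_congr rfl fun ξ _ => ?_
          rw [mul_comm x ξ]; ring
  rw [h, Finset.mul_sum]
  exact Finset.sum_congr rfl fun x _ => by rw [ct_ct f hf]; ring

lemma ict_parseval {n : ℕ} [NeZero n] (f : ZMod n → ℝ) (hf : ∀ x, f (-x) = f x) :
    ∑ x, ict f x ^ 2 = (∑ ξ, f ξ ^ 2) / n := by
  have hn : (n : ℝ) ≠ 0 := Nat.cast_ne_zero.mpr (NeZero.ne n)
  have h := ct_parseval (ict f) (ict f) (ict_even f)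
  simp_rw [ct_ict f hf] at h
  rw [eq_div_iff hn]
  calc (∑ x, ict f x ^ 2) * n = n * ∑ x, ict f x * ict f x := by
        rw [mul_comm]; congr 1; exact Finset.sum_congr rfl fun x _ => by ring
    _ = ∑ ξ, f ξ * f ξ := h.symm
    _ = ∑ ξ, f ξ ^ 2 := Finset.sum_congr rfl fun x _ => by ring

lemma ct_zero_right {n : ℕ} [NeZero n] (f : ZMod n → ℝ) : ct f 0 = ∑ x, f x := by
  unfold ct
  exact Finset.sum_congr rfl fun x _ => by rw [mul_zero, cs_zero, mul_one]

lemma ict_zero_right {n : ℕ} [NeZero n] (f : ZMod n → ℝ) : ict f 0 = (∑ ξ, f ξ) / n := by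
  unfold ict
  congr 1
  exact Finset.sum_congr rfl fun x _ => by rw [zero_mul, cs_zero, mul_one]

lemma ct_add {n : ℕ} [NeZero n] (f g : ZMod n → ℝ) (ξ : ZMod n) :
    ct (fun x => f x + g x) ξ = ct f ξ + ct g ξ := by
  unfold ct
  rw [← Finset.sum_add_distrib]
  exact Finset.sum_congr rfl fun x _ => by ring

lemma ct_sub {n : ℕ} [NeZero n] (f g : ZMod n → ℝ) (ξ : ZMod n) :
    ct (fun x => f x - g x) ξ = ct f ξ - ct g ξ := by
  unfold ct
  rw [← Finset.sum_sub_distrib]
  exact Finset.sum_congr rfl fun x _ => by ring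

lemma ct_mul_left {n : ℕ} [NeZero n] (c : ℝ) (f : ZMod n → ℝ) (ξ : ZMod n) :
    ct (fun x => c * f x) ξ = c * ct f ξ := by
  unfold ct
  rw [Finset.mul_sum]
  exact Finset.sum_congr rfl fun x _ => by ring

/-- the transform of the point mass at zero -/
lemma ct_dl {n : ℕ} [NeZero n] (ξ : ZMod n) : ct (dl : ZMod n → ℝ) ξ = 1 := by
  unfold ct dl
  simp [cs_zero]

end Pool.Agent.Th2c
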