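import Pool.Agent.Work.MP_2c2d16_pr.Classes

/-!
Configurations: second moments, the operator on forests, averages, trees.
-/

set_option autoImplicit false

namespace Pool.Agent.Th2c

open Finset Polynomial
open scoped Finset

/-! ### orthogonality of the characters of the sign cube -/

theorem Ex_chi {I A : Finset ℕ} (hA : A ⊆ I) :
    Ex I (fun S => chi A S) = if A = ∅ then 1 else 0 := by
  classical
  induction I using Finset.induction_on generalizing A with
  | empty =>
    have : A = ∅ := Finset.subset_empty.1 hA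
    subst this
    simp [Ex, chi]
  | insert a J ha ih =>
    rw [Ex_insert ha]
    by_cases haA : a ∈ A
    · have hne : A ≠ ∅ := fun h => by simp [h] at haA
      rw [if_neg hne]
      have h : ∀ T ∈ J.powerset, (chi A T + chi A (insert a T)) / 2 = 0 := by
        intro T hT
        have haT : a ∉ T := fun h => ha (Finset.mem_powerset.1 hT h)
        have h1 : chi A T = (sg T a : ℂ) * ∏ i ∈ A.erase a, (sg T i : ℂ) :=
          (Finset.mul_prod_erase A _ haA).symm
        have h2 : chi A (insert a T) = (sg (insert a T) a : ℂ) *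
            ∏ i ∈ A.erase a, (sg (insert a T) i : ℂ) := (Finset.mul_prod_erase A _ haA).symm
        have h3 : ∏ i ∈ A.erase a, (sg (insert a T) i : ℂ) = ∏ i ∈ A.erase a, (sg T i : ℂ) := by
          refine Finset.prod_congr rfl fun i hi => ?_
          have hia : i ≠ a := (Finset.mem_erase.1 hi).1
          unfold sg
          simp [Finset.mem_insert, hia]
        rw [h1, h2, h3]
        have h4 : (sg T a : ℂ) = -1 := by unfold sg; simp [haT]
        have h5 : (sg (insert a T) a : ℂ) = 1 := by unfold sg; simp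
        rw [h4, h5]
        ring
      rw [Ex_congr J h, Ex_const]
    · have hAJ : A ⊆ J := (Finset.subset_insert_iff_of_notMem haA).1 hA
      rw [← ih hAJ]
      refine Ex_congr J fun T hT => ?_
      have h3 : chi A (insert a T) = chi A T := by
        unfold chi
        refine Finset.prod_congr rfl fun i hi => ?_
        have hia : i ≠ a := fun h => haA (h ▸ hi)
        unfold sg
        simp [Finset.mem_insert, hia]
      rw [h3]
      ring

theorem Ex_chi_mul {I A B : Finset ℕ} (hA : A ⊆ I) (hB : B ⊆ I) :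
    Ex I (fun S => chi A S * chi B S) = if A = B then 1 else 0 := by
  classical
  rw [Ex_congr I fun S _ => chi_mul_chi A B S, Ex_chi]
  · have : symmDiff A B = ∅ ↔ A = B := by
      rw [← Finset.bot_eq_empty, symmDiff_eq_bot]
    simp only [this]
  · rw [symmDiff_def, Finset.sup_eq_union]
    exact Finset.union_subset (Finset.sdiff_subset.trans hA) (Finset.sdiff_subset.trans hB)

theorem conj_chi (A S : Finset ℕ) : (starRingEnd ℂ) (chi A S) = chi A S := by
  unfold chi
  rw [map_prod]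
  refine Finset.prod_congr rfl fun i _ => ?_
  unfold sg
  split_ifs <;> simp

theorem Ex_ofReal (I : Finset ℕ) (f : Finset ℕ → ℝ) :
    ((Ex I f : ℝ) : ℂ) = Ex I (fun S => ((f S : ℝ) : ℂ)) := by
  unfold Ex
  push_cast
  rfl

open Classical in
/-- second moment of a signed sum -/
theorem moment_le {X : Type*} (I : Finset ℕ) (s : Finset X) (D : X → Finset ℕ)
    (hD : ∀ x ∈ s, D x ⊆ I) (α : X → ℂ) (hα : ∀ x ∈ s, ‖α x‖ ≤ 1) :
    Ex I (fun S => ‖∑ x ∈ s, α x * chi (D x) S‖ ^ 2) ≤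
      #{p ∈ s ×ˢ s | D p.1 = D p.2} := by
  have h : ((Ex I (fun S => ‖∑ x ∈ s, α x * chi (D x) S‖ ^ 2) : ℝ) : ℂ) =
      ∑ p ∈ s ×ˢ s with D p.1 = D p.2, α p.1 * (starRingEnd ℂ) (α p.2) := by
    rw [Ex_ofReal]
    have e1 : ∀ S ∈ I.powerset, (((‖∑ x ∈ s, α x * chi (D x) S‖ ^ 2 : ℝ)) : ℂ) =
        ∑ p ∈ s ×ˢ s, (α p.1 * (starRingEnd ℂ) (α p.2)) * (chi (D p.1) S * chi (D p.2) S) := by
      intro S _
      push_cast
      rw [← Complex.mul_conj', map_sum, Finset.sum_mul_sum, ← Finset.sum_product']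
      refine Finset.sum_congr rfl fun p _ => ?_
      rw [map_mul (starRingEnd ℂ), conj_chi]
      ring
    rw [Ex_congr I e1, Ex_sum, Finset.sum_filter]
    refine Finset.sum_congr rfl fun p hp => ?_
    rw [Finset.mem_product] at hp
    rw [Ex_const_mul, Ex_chi_mul (hD _ hp.1) (hD _ hp.2)]
    split_ifs <;> simp
  have h2 : (Ex I (fun S => ‖∑ x ∈ s, α x * chi (D x) S‖ ^ 2) : ℝ) =
      ‖((Ex I (fun S => ‖∑ x ∈ s, α x * chi (D x) S‖ ^ 2) : ℝ) : ℂ)‖ := by
    rw [Complex.norm_real, Real.norm_of_nonneg]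
    exact Ex_normSq_nonneg I _
  rw [h2, h]
  refine (norm_sum_le _ _).trans ?_
  rw [Finset.card_eq_sum_ones]
  push_cast
  refine Finset.sum_le_sum fun p hp => ?_
  rw [Finset.mem_filter, Finset.mem_product] at hp
  rw [norm_mul, RCLike.norm_conj]
  exact mul_le_one₀ (hα _ hp.1.1) (norm_nonneg _) (hα _ hp.1.2)

open Classical in
/-- second moment of a signed exponential sum, summed over the frequencies -/
theorem moment_sum_le {X : Type*} {n : ℕ} [NeZero n] (I : Finset ℕ) (s : Finset X)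
    (D : X → Finset ℕ) (hD : ∀ x ∈ s, D x ⊆ I) (y : X → ZMod n) :
    ∑ ξ : ZMod n, Ex I (fun S => ‖∑ x ∈ s, chi (D x) S * (ZMod.stdAddChar (y x * ξ) : ℂ)‖ ^ 2) ≤
      n * #{p ∈ s ×ˢ s | D p.1 = D p.2 ∧ y p.1 = y p.2} := by
  have h1 : ∀ S : Finset ℕ, ∑ ξ : ZMod n, ‖∑ x ∈ s, chi (D x) S * (ZMod.stdAddChar (y x * ξ) : ℂ)‖ ^ 2
      = n * ∑ t : ZMod n, ‖∑ x ∈ s with y x = t, (1 : ℂ) * chi (D x) S‖ ^ 2 := by
    intro S
    rw [← parseval]
    refine Finset.sum_congr rfl fun ξ _ => ?_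
    congr 2
    rw [← Finset.sum_fiberwise s y]
    refine Finset.sum_congr rfl fun t _ => ?_
    rw [Finset.sum_mul]
    refine Finset.sum_congr rfl fun x hx => ?_
    rw [(Finset.mem_filter.1 hx).2, one_mul]
  rw [← Ex_sum, Ex_congr I fun S _ => h1 S, Ex_const_mul, Ex_sum]
  refine mul_le_mul_of_nonneg_left ?_ (Nat.cast_nonneg n)
  calc ∑ t : ZMod n, Ex I (fun S => ‖∑ x ∈ s with y x = t, (1 : ℂ) * chi (D x) S‖ ^ 2)
      ≤ ∑ t : ZMod n, ((#{p ∈ (s.filter fun x => y x = t) ×ˢ (s.filter fun x => y x = t) |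
          D p.1 = D p.2} : ℕ) : ℝ) := by
        refine Finset.sum_le_sum fun t _ => ?_
        refine moment_le I _ D (fun x hx => hD x (Finset.mem_filter.1 hx).1) (fun _ => 1) ?_
        intro x _
        simp
    _ = _ := by
        rw [← Nat.cast_sum]
        congr 1
        rw [Finset.card_eq_sum_card_fiberwise (f := fun p : X × X => y p.1) (t := univ)
          (fun p _ => Finset.mem_coe.2 (Finset.mem_univ _))]
        refine Finset.sum_congr rfl fun t _ => ?_
        congr 1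
        ext p
        simp only [Finset.mem_filter, Finset.mem_product]
        constructor
        · rintro ⟨⟨⟨h1, h2⟩, h3, h4⟩, h5⟩
          exact ⟨⟨⟨h1, h3⟩, h5, h2.trans h4.symm⟩, h2⟩
        · rintro ⟨⟨⟨h1, h3⟩, h5, h6⟩, h7⟩
          exact ⟨⟨⟨h1, h7⟩, h3, h6 ▸ h7⟩, h5⟩

/-! ### classes modulo sign -/

theorem cls_neg {n : ℕ} (x : ZMod n) : cls (-x) = cls x := by
  unfold cls
  rw [neg_neg, min_comm]

theorem cls_eq {n : ℕ} [NeZero n] {x y : ZMod n} (h : cls x = cls y) : x = y ∨ x = -y := by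
  unfold cls at h
  rcases min_choice x.val (-x).val with hx | hx <;> rcases min_choice y.val (-y).val with hy | hy <;>
    rw [hx, hy] at h
  · exact Or.inl (ZMod.val_injective n h)
  · exact Or.inr (ZMod.val_injective n h)
  · right
    have := ZMod.val_injective n h
    rw [← this, neg_neg]
  · left
    exact neg_injective (ZMod.val_injective n h)

theorem card_hyper {n : ℕ} [NeZero n] {L : Type*} [Fintype L] [DecidableEq L] (w : L → ZMod n)
    (l0 : L) (hw : w l0 = 1) :
    #{x : L → ZMod n | ∑ l, w l * x l = 0} * n ≤ n ^ Fintype.card L := by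
  classical
  have h : #(({x : L → ZMod n | ∑ l, w l * x l = 0} : Finset (L → ZMod n)) ×ˢ
      (univ : Finset (ZMod n))) ≤ #(univ : Finset (L → ZMod n)) := by
    refine Finset.card_le_card_of_injOn (fun p => p.1 + Pi.single l0 p.2)
      (fun _ _ => Finset.mem_coe.2 (Finset.mem_univ _)) ?_
    rintro ⟨x, t⟩ hx ⟨y, u⟩ hy hxy
    simp only [Finset.coe_product, Set.mem_prod, Finset.mem_coe, Finset.mem_filter,
      Finset.mem_univ, true_and, and_true] at hx hy
    have key : ∀ (z : L → ZMod n) (r : ZMod n), ∑ l, w l * (z + Pi.single l0 r : L → ZMod n) l =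
        ∑ l, w l * z l + r := by
      intro z r
      simp only [Pi.add_apply, mul_add, Finset.sum_add_distrib]
      congr 1
      rw [Finset.sum_eq_single l0]
      · simp [hw]
      · intro l _ hl
        simp [Pi.single_eq_of_ne hl]
      · simp
    have h1 := congrArg (fun z : L → ZMod n => ∑ l, w l * z l) hxy
    simp only at h1
    rw [key, key, hx, hy, zero_add, zero_add] at h1
    subst h1
    have h2 : x = y := by simpa using hxy
    rw [h2]
  rw [Finset.card_product, Finset.card_univ, ZMod.card, Finset.card_univ, Fintype.card_fun,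
    ZMod.card] at h
  exact h

namespace Conf

/-- set of the classes of the labels -/
def Dset (c : Conf) {n : ℕ} (x : c.L → ZMod n) : Finset ℕ :=
  (univ : Finset c.V).image fun v => cls (c.lab x v)

theorem chi_Dset (c : Conf) {n : ℕ} {x : c.L → ZMod n} (hx : c.nc x) (S : Finset ℕ) :
    chi (c.Dset x) S = ∏ v, (sg S (cls (c.lab x v)) : ℂ) := by
  unfold chi Dset
  exact Finset.prod_image fun v _ w _ h => hx.2 h

theorem Dset_subset (c : Conf) {n : ℕ} [NeZero n] {x : c.L → ZMod n} (hx : c.nc x) :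
    c.Dset x ⊆ cl n := by
  intro i hi
  obtain ⟨v, _, rfl⟩ := Finset.mem_image.1 hi
  exact cls_mem_cl (hx.1 v)

theorem card_Dset (c : Conf) {n : ℕ} (x : c.L → ZMod n) : #(c.Dset x) ≤ Fintype.card c.V :=
  Finset.card_image_le.trans (Finset.card_univ.le)

open Classical in
theorem F_eq (c : Conf) (n : ℕ) [NeZero n] (S : Finset ℕ) (ξ : ZMod n) :
    c.F n S ξ = (((Real.sqrt n)⁻¹ ^ Fintype.card c.L : ℝ) : ℂ) *
      ∑ x : c.L → ZMod n with c.nc x, chi (c.Dset x) S *
        (ZMod.stdAddChar ((∑ l, x l) * ξ) : ℂ) := by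
  unfold F
  rw [Finset.sum_filter]
  congr 1
  refine Finset.sum_congr rfl fun x _ => ?_
  split_ifs with h
  · rw [chi_Dset c h]
  · rfl

/-- every leaf is a vertex -/
def Leafy (c : Conf) : Prop :=
  ∀ l : c.L, ∃ v : c.V, ∀ l' : c.L, c.a v l' = if l' = l then 1 else 0

theorem lab_leaf (c : Conf) {n : ℕ} (x : c.L → ZMod n) {l : c.L} {v : c.V}
    (h : ∀ l' : c.L, c.a v l' = if l' = l then 1 else 0) : c.lab x v = x l := by
  unfold lab
  rw [Finset.sum_eq_single l]
  · simp [h]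
  · intro l' _ hl'
    simp [h, hl']
  · simp

/-- assignments whose leaves are labels of x up to sign -/
theorem card_partners (c : Conf) {n : ℕ} [NeZero n] (x : c.L → ZMod n)
    (s : Finset (c.L → ZMod n)) (hs : ∀ y ∈ s, ∀ l, ∃ v, cls (y l) = cls (c.lab x v)) :
    #s ≤ (2 * Fintype.card c.V) ^ Fintype.card c.L := by
  classical
  have hsub : s ⊆ Fintype.piFinset fun _ : c.L =>
      (univ : Finset c.V).image (fun v => c.lab x v) ∪ (univ : Finset c.V).image (fun v => - c.lab x v) := by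
    intro y hy
    rw [Fintype.mem_piFinset]
    intro l
    obtain ⟨v, hv⟩ := hs y hy l
    rw [Finset.mem_union]
    rcases cls_eq hv with h | h
    · exact Or.inl (Finset.mem_image.2 ⟨v, Finset.mem_univ _, h.symm⟩)
    · exact Or.inr (Finset.mem_image.2 ⟨v, Finset.mem_univ _, h.symm⟩)
  refine (Finset.card_le_card hsub).trans ?_
  rw [Fintype.card_piFinset, Finset.prod_const, Finset.card_univ]
  refine Nat.pow_le_pow_left ?_ _
  refine (Finset.card_union_le _ _).trans ?_
  have h1 : #((univ : Finset c.V).image (fun v => c.lab x v)) ≤ Fintype.card c.V :=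
    Finset.card_image_le.trans (Finset.card_univ.le)
  have h2 : #((univ : Finset c.V).image (fun v => - c.lab x v)) ≤ Fintype.card c.V :=
    Finset.card_image_le.trans (Finset.card_univ.le)
  omega

/-- pairs count -/
theorem card_pairs (c : Conf) {n : ℕ} [NeZero n] (s : Finset (c.L → ZMod n))
    (R : (c.L → ZMod n) → (c.L → ZMod n) → Prop) [DecidableRel R]
    (hR : ∀ x ∈ s, ∀ y ∈ s, R x y → ∀ l, ∃ v, cls (y l) = cls (c.lab x v)) :
    #{p ∈ s ×ˢ s | R p.1 p.2} ≤ #s * (2 * Fintype.card c.V) ^ Fintype.card c.L := by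
  classical
  rw [Finset.card_eq_sum_card_fiberwise (f := fun p : (c.L → ZMod n) × (c.L → ZMod n) => p.1)
    (t := s) (fun p hp => by
      rw [Finset.mem_coe, Finset.mem_filter, Finset.mem_product] at hp
      exact Finset.mem_coe.2 hp.1.1)]
  rw [← smul_eq_mul, ← Finset.sum_const]
  refine Finset.sum_le_sum fun x hx => ?_
  have : #{p ∈ {p ∈ s ×ˢ s | R p.1 p.2} | p.1 = x} ≤ #{y ∈ s | R x y} := by
    refine Finset.card_le_card_of_injOn (fun p => p.2) ?_ ?_
    · rintro ⟨a, b⟩ hab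
      simp only [Finset.coe_filter, Set.mem_ofPred_eq, Finset.mem_filter, Finset.mem_product] at hab ⊢
      obtain ⟨⟨⟨h1, h2⟩, h3⟩, h4⟩ := hab
      subst h4
      exact ⟨h2, h3⟩
    · rintro ⟨a, b⟩ hab ⟨a', b'⟩ hab' h
      simp only [Finset.coe_filter, Set.mem_ofPred_eq, Finset.mem_filter] at hab hab' h
      rw [hab.2, hab'.2, h]
  refine this.trans (c.card_partners x _ ?_)
  intro y hy
  rw [Finset.mem_filter] at hy
  exact hR x hx y hy.1 hy.2

theorem Leafy.partner {c : Conf} (hc : c.Leafy) {n : ℕ} {x y : c.L → ZMod n}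
    (h : c.Dset y ⊆ c.Dset x) (l : c.L) : ∃ v, cls (y l) = cls (c.lab x v) := by
  obtain ⟨v, hv⟩ := hc l
  have h1 : cls (c.lab y v) ∈ c.Dset x := h (Finset.mem_image.2 ⟨v, Finset.mem_univ _, rfl⟩)
  rw [lab_leaf c y hv] at h1
  obtain ⟨w, _, hw⟩ := Finset.mem_image.1 h1
  exact ⟨w, hw.symm⟩

theorem kappa_sq (n : ℕ) [NeZero n] (L : ℕ) :
    ‖((((Real.sqrt n)⁻¹ ^ L : ℝ)) : ℂ)‖ ^ 2 * (n : ℝ) ^ L = 1 := by
  have hn : (0 : ℝ) < n := Nat.cast_pos.2 (Nat.pos_of_ne_zero (NeZero.ne n))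
  rw [Complex.norm_real, Real.norm_of_nonneg (by positivity), ← pow_mul, mul_comm L 2, pow_mul,
    inv_pow, Real.sq_sqrt hn.le, inv_pow, inv_mul_cancel₀ (by positivity)]

theorem LowDeg_F (c : Conf) (n : ℕ) [NeZero n] (ξ : ZMod n) :
    LowDeg (cl n) (Fintype.card c.V) (fun S => c.F n S ξ) := by
  classical
  have h : LowDeg (cl n) (Fintype.card c.V) (fun S =>
      (((Real.sqrt n)⁻¹ ^ Fintype.card c.L : ℝ) : ℂ) *
      ∑ x : c.L → ZMod n with c.nc x, (ZMod.stdAddChar ((∑ l, x l) * ξ) : ℂ) *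
        chi (c.Dset x) S) := by
    refine LowDeg.const_mul (LowDeg.sum _ fun x hx => LowDeg.const_mul (LowDeg.chi ?_ ?_) _) _
    · exact Dset_subset c (Finset.mem_filter.1 hx).2
    · exact card_Dset c x
  refine h.congr fun S _ => ?_
  rw [F_eq]
  congr 1
  exact Finset.sum_congr rfl fun x _ => mul_comm _ _

theorem F_second_moment (c : Conf) (hc : c.Leafy) (n : ℕ) [NeZero n] (ξ : ZMod n) :
    Ex (cl n) (fun S => ‖c.F n S ξ‖ ^ 2) ≤
      (((2 * Fintype.card c.V) ^ Fintype.card c.L : ℕ) : ℝ) := by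
  classical
  set κ : ℂ := (((Real.sqrt n)⁻¹ ^ Fintype.card c.L : ℝ) : ℂ) with hκ
  set s : Finset (c.L → ZMod n) := univ.filter fun x => c.nc x with hs
  have e1 : ∀ S ∈ (cl n).powerset, ‖c.F n S ξ‖ ^ 2 = ‖κ‖ ^ 2 *
      ‖∑ x ∈ s, (ZMod.stdAddChar ((∑ l, x l) * ξ) : ℂ) * chi (c.Dset x) S‖ ^ 2 := by
    intro S _
    rw [F_eq, norm_mul, mul_pow]
    congr 3
    exact Finset.sum_congr rfl fun x _ => mul_comm _ _
  rw [Ex_congr _ e1, Ex_const_mul]
  have hm := moment_le (cl n) s (fun x => c.Dset x)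
    (fun x hx => Dset_subset c (Finset.mem_filter.1 hx).2)
    (fun x => (ZMod.stdAddChar ((∑ l, x l) * ξ) : ℂ))
    (fun x _ => (AddChar.norm_apply _ _).le)
  have hp := c.card_pairs s (fun x y => c.Dset x = c.Dset y)
    (fun x _ y _ hxy l => Leafy.partner hc hxy.symm.subset l)
  have hcard : #s ≤ n ^ Fintype.card c.L := by
    refine (Finset.card_le_univ s).trans ?_
    rw [Fintype.card_fun, ZMod.card]
  have hk := kappa_sq n (Fintype.card c.L)
  rw [← hκ] at hk
  have hb : Ex (cl n) (fun S =>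
      ‖∑ x ∈ s, (ZMod.stdAddChar ((∑ l, x l) * ξ) : ℂ) * chi (c.Dset x) S‖ ^ 2) ≤
      (n : ℝ) ^ Fintype.card c.L * (((2 * Fintype.card c.V) ^ Fintype.card c.L : ℕ) : ℝ) := by
    refine hm.trans ?_
    exact_mod_cast hp.trans (Nat.mul_le_mul_right _ hcard)
  calc _ ≤ ‖κ‖ ^ 2 * ((n : ℝ) ^ Fintype.card c.L *
          (((2 * Fintype.card c.V) ^ Fintype.card c.L : ℕ) : ℝ)) :=
        mul_le_mul_of_nonneg_left hb (by positivity)
    _ = (‖κ‖ ^ 2 * (n : ℝ) ^ Fintype.card c.L) *
          (((2 * Fintype.card c.V) ^ Fintype.card c.L : ℕ) : ℝ) := by ring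
    _ = _ := by rw [hk, one_mul]

theorem F_bdd (c : Conf)
    (hc : ∀ l : c.L, ∃ v : c.V, ∀ l' : c.L, c.a v l' = if l' = l then 1 else 0) :
    IsBdd (fun N S ξ => c.F (N + 1) S ξ) :=
  ⟨_, Fintype.card c.V, fun N ξ => ⟨LowDeg_F c (N + 1) ξ, F_second_moment c hc (N + 1) ξ⟩⟩

/-! ### the delta function and reality -/

instance : Unique Conf.one.L := inferInstanceAs (Unique Unit)

instance : Unique Conf.one.V := inferInstanceAs (Unique Unit)

theorem one_lab {n : ℕ} (x : Conf.one.L → ZMod n) (v : Conf.one.V) :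
    Conf.one.lab x v = x default := by
  unfold lab
  rw [Fintype.sum_unique]
  change (((1 : ℤ)) : ZMod n) * x default = x default
  rw [Int.cast_one, one_mul]

theorem one_nc {n : ℕ} (x : Conf.one.L → ZMod n) : Conf.one.nc x ↔ x default ≠ 0 := by
  unfold nc
  constructor
  · intro h
    have := h.1 default
    rwa [one_lab] at this
  · intro h
    exact ⟨fun v => by rw [one_lab]; exact h, fun v w _ => Subsingleton.elim v w⟩

theorem opE_delta (n : ℕ) [NeZero n] (S : Finset ℕ) (ξ : ZMod n) :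
    opE S (fun ζ => ((Real.sqrt n * dl ζ : ℝ) : ℂ)) ξ = Conf.one.F n S ξ := by
  classical
  have hn : (0 : ℝ) < n := Nat.cast_pos.2 (Nat.pos_of_ne_zero (NeZero.ne n))
  rw [opE_eq]
  unfold F
  have hcard : Fintype.card Conf.one.L = 1 := rfl
  rw [hcard, pow_one, Finset.mul_sum]
  refine (Fintype.sum_equiv (Equiv.funUnique Conf.one.L (ZMod n)) _ _ fun x => ?_).symm
  rw [Equiv.funUnique_apply]
  have hft : ∀ y : ZMod n, ft (fun ζ : ZMod n => ((Real.sqrt n * dl ζ : ℝ) : ℂ)) y =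
      (Real.sqrt n : ℂ) := by
    intro y
    unfold ft dl
    rw [Finset.sum_eq_single (0 : ZMod n)]
    · simp
    · intro ζ _ hζ
      simp [hζ]
    · simp
  rw [hft]
  by_cases hy : x default = 0
  · have hn0 : ¬ Conf.one.nc x := by
      rw [one_nc]
      simp [hy]
    rw [if_pos hy, if_neg hn0]
    simp
  · have hn1 : Conf.one.nc x := by
      rw [one_nc]
      exact hy
    rw [if_neg hy, if_pos hn1, Fintype.prod_unique, one_lab, Fintype.sum_unique]
    have h3 : ((((Real.sqrt n)⁻¹ : ℝ)) : ℂ) = (Real.sqrt n : ℂ) / n := by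
      rw [← Complex.ofReal_natCast, ← Complex.ofReal_div]
      congr 1
      rw [inv_eq_one_div, div_eq_div_iff (Real.sqrt_ne_zero'.2 hn) hn.ne', one_mul,
        Real.mul_self_sqrt hn.le]
    rw [h3]
    ring

theorem lab_neg (c : Conf) {n : ℕ} (x : c.L → ZMod n) (v : c.V) : c.lab (-x) v = - c.lab x v := by
  unfold lab
  rw [← Finset.sum_neg_distrib]
  exact Finset.sum_congr rfl fun l _ => by simp

theorem nc_neg (c : Conf) {n : ℕ} {x : c.L → ZMod n} : c.nc (-x) ↔ c.nc x := by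
  unfold nc
  simp only [lab_neg, cls_neg, neg_ne_zero]

theorem Dset_neg (c : Conf) {n : ℕ} (x : c.L → ZMod n) : c.Dset (-x) = c.Dset x := by
  unfold Dset
  simp only [lab_neg, cls_neg]

theorem F_real (c : Conf) (n : ℕ) [NeZero n] (S : Finset ℕ) (ξ : ZMod n) :
    (starRingEnd ℂ) (c.F n S ξ) = c.F n S ξ := by
  classical
  rw [F_eq, map_mul (starRingEnd ℂ), Complex.conj_ofReal, map_sum]
  congr 1
  rw [Finset.sum_filter, Finset.sum_filter]
  refine Fintype.sum_equiv (Equiv.neg _) _ _ fun x => ?_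
  rw [Equiv.neg_apply]
  simp only [nc_neg]
  split_ifs
  · rw [map_mul (starRingEnd ℂ), conj_chi, conj_char, Dset_neg]
    congr 2
    simp [Finset.sum_neg_distrib]
  · rfl

/-! ### forests -/

theorem sig_a {ι : Type} [Fintype ι] [DecidableEq ι] (c : ι → Conf) (i : ι) (v : (c i).V)
    (l : (c i).L) : (sig c).a ⟨i, v⟩ ⟨i, l⟩ = (c i).a v l := by
  simp [sig]

theorem sig_a_ne {ι : Type} [Fintype ι] [DecidableEq ι] (c : ι → Conf) {i j : ι} (h : j ≠ i)
    (v : (c i).V) (l : (c j).L) : (sig c).a ⟨i, v⟩ ⟨j, l⟩ = 0 := by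
  simp [sig, h]

theorem sig_leafy {ι : Type} [Fintype ι] [DecidableEq ι] (c : ι → Conf)
    (hc : ∀ i, (c i).Leafy) : (sig c).Leafy := by
  rintro ⟨i, l⟩
  obtain ⟨v, hv⟩ := hc i l
  refine ⟨⟨i, v⟩, ?_⟩
  rintro ⟨j, l'⟩
  by_cases h : j = i
  · subst h
    refine (sig_a c j v l').trans ?_
    rw [hv]
    by_cases h2 : l' = l
    · subst h2
      rw [if_pos rfl]
      exact (if_pos rfl).symm
    · rw [if_neg h2]
      have h4 : ¬ ((⟨j, l'⟩ : (sig c).L) = ⟨j, l⟩) := fun h3 =>
        h2 (eq_of_heq (Sigma.mk.inj (show (⟨j, l'⟩ : Σ i, (c i).L) = ⟨j, l⟩ from h3)).2)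
      exact (if_neg h4).symm
  · have h4 : ¬ ((⟨j, l'⟩ : (sig c).L) = ⟨i, l⟩) := fun h3 =>
      h (Sigma.mk.inj (show (⟨j, l'⟩ : Σ i, (c i).L) = ⟨i, l⟩ from h3)).1
    exact (sig_a_ne c h v l').trans (if_neg h4).symm

theorem IsTree.leafy {c : Conf} (hc : c.IsTree) : c.Leafy := hc.leaf

theorem IsTree.nonempty_L {c : Conf} (hc : c.IsTree) : Nonempty c.L := by
  obtain ⟨v⟩ := hc.ne
  obtain ⟨l, _⟩ := hc.unit v
  exact ⟨l⟩

open Classical in
theorem F_avg {k : ℕ} (c : Fin (k + 1) → Conf) (hc : ∀ i, (c i).IsTree) :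
    ∃ C : ℝ, ∀ N : ℕ, Ex (cl (N + 1)) (fun S => ‖∑ ξ, (Conf.sig c).F (N + 1) S ξ‖ ^ 2) ≤
      C * (N + 1 : ℕ) := by
  set d := Conf.sig c with hd
  have hleaf : d.Leafy := sig_leafy c fun i => (hc i).leafy
  obtain ⟨l00⟩ := (hc 0).nonempty_L
  let l0 : d.L := ⟨0, l00⟩
  refine ⟨(((2 * Fintype.card d.V) ^ Fintype.card d.L : ℕ) : ℝ), fun N => ?_⟩
  set n := N + 1 with hn
  have hnpos : (0 : ℝ) < n := Nat.cast_pos.2 (Nat.succ_pos N)
  set κ : ℂ := (((Real.sqrt n)⁻¹ ^ Fintype.card d.L : ℝ) : ℂ) with hκ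
  set s : Finset (d.L → ZMod n) := univ.filter fun x => d.nc x ∧ ∑ l, x l = 0 with hs
  have e1 : ∀ S ∈ (cl n).powerset, ‖∑ ξ, d.F n S ξ‖ ^ 2 = (‖κ‖ ^ 2 * (n : ℝ) ^ 2) *
      ‖∑ x ∈ s, (1 : ℂ) * chi (d.Dset x) S‖ ^ 2 := by
    intro S _
    have : ∑ ξ, d.F n S ξ = κ * (n * ∑ x ∈ s, (1 : ℂ) * chi (d.Dset x) S) := by
      rw [Finset.sum_congr rfl fun ξ _ => F_eq d n S ξ, ← Finset.mul_sum, Finset.sum_comm]
      congr 1
      rw [hs, ← Finset.filter_filter, Finset.mul_sum,
        Finset.sum_filter (fun x : d.L → ZMod n => ∑ l, x l = 0)]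
      refine Finset.sum_congr rfl fun x _ => ?_
      rw [← Finset.mul_sum, sum_char]
      split_ifs
      · ring
      · ring
    rw [this, norm_mul, norm_mul, mul_pow, mul_pow, Complex.norm_natCast]
    ring
  rw [Ex_congr _ e1, Ex_const_mul]
  have hm := moment_le (cl n) s (fun x => d.Dset x)
    (fun x hx => Dset_subset d (Finset.mem_filter.1 hx).2.1) (fun _ => (1 : ℂ))
    (fun x _ => by simp)
  have hp := d.card_pairs s (fun x y => d.Dset x = d.Dset y)
    (fun x _ y _ hxy l => Leafy.partner hleaf hxy.symm.subset l)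
  have hcard : #s * n ≤ n ^ Fintype.card d.L := by
    refine le_trans (Nat.mul_le_mul_right n (Finset.card_le_card ?_))
      (card_hyper (fun _ : d.L => (1 : ZMod n)) l0 rfl)
    intro x hx
    rw [Finset.mem_filter] at hx ⊢
    refine ⟨Finset.mem_univ _, ?_⟩
    simpa using hx.2.2
  have hk := kappa_sq n (Fintype.card d.L)
  rw [← hκ] at hk
  have hp2 : ((#{p ∈ s ×ˢ s | d.Dset p.1 = d.Dset p.2} : ℕ) : ℝ) * n ≤
      (n : ℝ) ^ Fintype.card d.L * (((2 * Fintype.card d.V) ^ Fintype.card d.L : ℕ) : ℝ) := by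
    have : #{p ∈ s ×ˢ s | d.Dset p.1 = d.Dset p.2} * n ≤
        n ^ Fintype.card d.L * (2 * Fintype.card d.V) ^ Fintype.card d.L := by
      calc _ ≤ (#s * (2 * Fintype.card d.V) ^ Fintype.card d.L) * n := Nat.mul_le_mul_right n hp
        _ = (#s * n) * (2 * Fintype.card d.V) ^ Fintype.card d.L := by ring
        _ ≤ _ := Nat.mul_le_mul_right _ hcard
    exact_mod_cast this
  calc (‖κ‖ ^ 2 * (n : ℝ) ^ 2) * Ex (cl n) (fun S => ‖∑ x ∈ s, (1 : ℂ) * chi (d.Dset x) S‖ ^ 2)
      ≤ (‖κ‖ ^ 2 * (n : ℝ) ^ 2) * (#{p ∈ s ×ˢ s | d.Dset p.1 = d.Dset p.2} : ℕ) := by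
        refine mul_le_mul_of_nonneg_left hm (by positivity)
    _ = ‖κ‖ ^ 2 * n * (((#{p ∈ s ×ˢ s | d.Dset p.1 = d.Dset p.2} : ℕ) : ℝ) * n) := by ring
    _ ≤ ‖κ‖ ^ 2 * n * ((n : ℝ) ^ Fintype.card d.L *
          (((2 * Fintype.card d.V) ^ Fintype.card d.L : ℕ) : ℝ)) := by
        refine mul_le_mul_of_nonneg_left hp2 (by positivity)
    _ = (‖κ‖ ^ 2 * (n : ℝ) ^ Fintype.card d.L) *
          (((2 * Fintype.card d.V) ^ Fintype.card d.L : ℕ) : ℝ) * n := by ring
    _ = _ := by rw [hk, one_mul]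

/-! ### trees -/

theorem isTree_one : Conf.one.IsTree where
  leaf := fun l => ⟨default, fun l' => by
    rw [if_pos (Subsingleton.elim l' l)]
    rfl⟩
  unit := fun _ => ⟨default, rfl⟩
  ne := ⟨default⟩
  conn := by
    intro A hA hA'
    exfalso
    apply hA'
    obtain ⟨a, ha⟩ := hA
    ext b
    have : b = a := Subsingleton.elim b a
    rw [this]
    simp only [ha, Finset.mem_univ]

/-! ### the root -/

theorem node_lab_none (d : Conf) {n : ℕ} (x : d.L → ZMod n) :
    (node d).lab (x : (node d).L → ZMod n) (none : Option d.V) = ∑ l, x l := by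
  change ∑ l : d.L, (((1 : ℤ)) : ZMod n) * x l = ∑ l, x l
  simp

theorem node_lab_some (d : Conf) {n : ℕ} (x : d.L → ZMod n) (v : d.V) :
    (node d).lab (x : (node d).L → ZMod n) (some v : Option d.V) = d.lab x v := rfl

theorem node_nc (d : Conf) {n : ℕ} (x : d.L → ZMod n) :
    (node d).nc (x : (node d).L → ZMod n) ↔
      d.nc x ∧ ∑ l, x l ≠ 0 ∧ cls (∑ l, x l) ∉ d.Dset x := by
  constructor
  · rintro ⟨h1, h2⟩
    refine ⟨⟨fun v => ?_, fun v w hvw => ?_⟩, ?_, ?_⟩
    · exact h1 (some v)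
    · have := @h2 (some v) (some w) hvw
      exact Option.some.inj this
    · have := h1 none
      rwa [node_lab_none] at this
    · intro h
      obtain ⟨v, _, hv⟩ := Finset.mem_image.1 h
      have h3 := @h2 (some v) none (by
        change cls ((node d).lab (x : (node d).L → ZMod n) (some v : Option d.V)) =
          cls ((node d).lab (x : (node d).L → ZMod n) (none : Option d.V))
        rw [node_lab_none]
        exact hv)
      exact absurd h3 (Option.some_ne_none v)
  · rintro ⟨⟨h1, h2⟩, h3, h4⟩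
    have h4' : ∀ v, cls (d.lab x v) ≠ cls (∑ l, x l) := fun v hv =>
      h4 (Finset.mem_image.2 ⟨v, Finset.mem_univ _, hv⟩)
    refine ⟨fun v => ?_, fun v w hvw => ?_⟩
    · rcases (v : Option d.V) with _ | v
      · rw [node_lab_none]
        exact h3
      · exact h1 v
    · rcases v with _ | v <;> rcases w with _ | w
      · rfl
      · exfalso
        apply h4' w
        have : cls ((node d).lab (x : (node d).L → ZMod n) (none : Option d.V)) =
          cls ((node d).lab (x : (node d).L → ZMod n) (some w : Option d.V)) := hvw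
        rw [node_lab_none] at this
        exact this.symm
      · exfalso
        apply h4' v
        have : cls ((node d).lab (x : (node d).L → ZMod n) (some v : Option d.V)) =
          cls ((node d).lab (x : (node d).L → ZMod n) (none : Option d.V)) := hvw
        rw [node_lab_none] at this
        exact this
      · have : v = w := h2 hvw
        rw [this]

open Classical in
theorem node_F (d : Conf) (n : ℕ) [NeZero n] (S : Finset ℕ) (ξ : ZMod n) :
    (node d).F n S ξ = (((Real.sqrt n)⁻¹ ^ Fintype.card d.L : ℝ) : ℂ) *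
      ∑ x : d.L → ZMod n with (d.nc x ∧ ∑ l, x l ≠ 0 ∧ cls (∑ l, x l) ∉ d.Dset x),
        ((sg S (cls (∑ l, x l)) : ℂ) * chi (d.Dset x) S) *
        (ZMod.stdAddChar ((∑ l, x l) * ξ) : ℂ) := by
  have e : (node d).F n S ξ = (((Real.sqrt n)⁻¹ ^ Fintype.card d.L : ℝ) : ℂ) *
      ∑ x : d.L → ZMod n, (if (node d).nc (x : (node d).L → ZMod n) then
        (∏ v : Option d.V, (sg S (cls ((node d).lab (x : (node d).L → ZMod n) v)) : ℂ)) *
          (ZMod.stdAddChar ((∑ l : d.L, x l) * ξ) : ℂ) else 0) := rfl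
  rw [e, Finset.sum_filter]
  congr 1
  refine Finset.sum_congr rfl fun x _ => ?_
  by_cases h : d.nc x ∧ ∑ l, x l ≠ 0 ∧ cls (∑ l, x l) ∉ d.Dset x
  · rw [if_pos h, if_pos ((node_nc d x).2 h), Fintype.prod_option, node_lab_none,
      chi_Dset d h.1]
    rfl
  · rw [if_neg h, if_neg (fun h' => h ((node_nc d x).1 h'))]

open Classical in
theorem opE_F_eq (d : Conf) (n : ℕ) [NeZero n] (S : Finset ℕ) (ξ : ZMod n) :
    opE S (fun ζ => d.F n S ζ) ξ = (((Real.sqrt n)⁻¹ ^ Fintype.card d.L : ℝ) : ℂ) *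
      ∑ x : d.L → ZMod n with (d.nc x ∧ ∑ l, x l ≠ 0),
        ((sg S (cls (∑ l, x l)) : ℂ) * chi (d.Dset x) S) *
        (ZMod.stdAddChar ((∑ l, x l) * ξ) : ℂ) := by
  have hn : (n : ℂ) ≠ 0 := Nat.cast_ne_zero.2 (NeZero.ne n)
  set κ : ℂ := (((Real.sqrt n)⁻¹ ^ Fintype.card d.L : ℝ) : ℂ) with hκ
  have hft : ∀ t : ZMod n, ft (fun ζ => d.F n S ζ) t = κ * (n *
      ∑ x : d.L → ZMod n with (d.nc x ∧ ∑ l, x l = t), chi (d.Dset x) S) := by
    intro t
    unfold ft
    have e0 : ∀ ζ : ZMod n, d.F n S ζ * (ZMod.stdAddChar (-(t * ζ)) : ℂ) =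
        κ * ∑ x : d.L → ZMod n with d.nc x, chi (d.Dset x) S *
          (ZMod.stdAddChar ((∑ l, x l) * ζ) : ℂ) * (ZMod.stdAddChar (-(t * ζ)) : ℂ) := by
      intro ζ
      rw [F_eq, mul_assoc, Finset.sum_mul]
    rw [Finset.sum_congr rfl fun ζ _ => e0 ζ, ← Finset.mul_sum, Finset.sum_comm]
    congr 1
    rw [← Finset.filter_filter,
      Finset.sum_filter (fun x : d.L → ZMod n => ∑ l, x l = t), Finset.mul_sum]
    refine Finset.sum_congr rfl fun x _ => ?_
    have : ∀ ζ : ZMod n, chi (d.Dset x) S * (ZMod.stdAddChar ((∑ l, x l) * ζ) : ℂ) *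
        (ZMod.stdAddChar (-(t * ζ)) : ℂ) =
        chi (d.Dset x) S * (ZMod.stdAddChar ((∑ l, x l - t) * ζ) : ℂ) := by
      intro ζ
      rw [sub_mul, sub_eq_add_neg, AddChar.map_add_eq_mul]
      ring
    rw [Finset.sum_congr rfl fun ζ _ => this ζ, ← Finset.mul_sum, sum_char]
    by_cases h : ∑ l, x l = t
    · rw [if_pos (sub_eq_zero.2 h), if_pos h]
      ring
    · rw [if_neg (fun h' => h (sub_eq_zero.1 h')), if_neg h, mul_zero, mul_zero]
  rw [opE_eq]
  have e2 : ∀ t : ZMod n, (if t = 0 then (0 : ℂ) else (sg S (cls t) : ℂ) *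
      ft (fun ζ => d.F n S ζ) t / n) * (ZMod.stdAddChar (t * ξ) : ℂ) =
      κ * ∑ x : d.L → ZMod n with (d.nc x ∧ ∑ l, x l = t), (if ∑ l, x l = 0 then 0 else
        ((sg S (cls (∑ l, x l)) : ℂ) * chi (d.Dset x) S) *
        (ZMod.stdAddChar ((∑ l, x l) * ξ) : ℂ)) := by
    intro t
    rw [hft]
    by_cases ht : t = 0
    · rw [if_pos ht, zero_mul, Finset.sum_eq_zero, mul_zero]
      intro x hx
      rw [if_pos]
      rw [(Finset.mem_filter.1 hx).2.2, ht]
    · rw [if_neg ht, Finset.mul_sum, Finset.mul_sum, Finset.mul_sum]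
      rw [Finset.mul_sum, Finset.sum_div, Finset.sum_mul]
      refine Finset.sum_congr rfl fun x hx => ?_
      have hx2 := (Finset.mem_filter.1 hx).2.2
      rw [hx2, if_neg ht]
      field_simp
  rw [Finset.sum_congr rfl fun t _ => e2 t, ← Finset.mul_sum]
  congr 1
  have e3 : ∑ x : d.L → ZMod n with (d.nc x ∧ ∑ l, x l ≠ 0),
        ((sg S (cls (∑ l, x l)) : ℂ) * chi (d.Dset x) S) *
        (ZMod.stdAddChar ((∑ l, x l) * ξ) : ℂ) =
      ∑ x : d.L → ZMod n with d.nc x, (if ∑ l, x l = 0 then 0 else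
        ((sg S (cls (∑ l, x l)) : ℂ) * chi (d.Dset x) S) *
        (ZMod.stdAddChar ((∑ l, x l) * ξ) : ℂ)) := by
    rw [← Finset.filter_filter, Finset.sum_filter (fun x : d.L → ZMod n => ∑ l, x l ≠ 0)]
    refine Finset.sum_congr rfl fun x _ => ?_
    by_cases h : ∑ l, x l = 0
    · simp [h]
    · simp [h]
  rw [e3, ← Finset.sum_fiberwise (univ.filter fun x : d.L → ZMod n => d.nc x)
    (fun x => ∑ l, x l)]
  refine Finset.sum_congr rfl fun t _ => ?_
  rw [Finset.filter_filter]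

open Classical in
/-- the operator applied to a configuration with a missing leaf in every label -/
theorem opE_F (d : Conf) (hd : d.Leafy) (hz : ∀ b : d.V, ∃ l : d.L, d.a b l = 0) :
    IsErr (fun N S ξ => opE S (fun ζ => d.F (N + 1) S ζ) ξ - (node d).F (N + 1) S ξ) := by
  -- exact form of the difference
  have ediff : ∀ (n : ℕ) [NeZero n] (S : Finset ℕ) (ξ : ZMod n),
      opE S (fun ζ => d.F n S ζ) ξ - (node d).F n S ξ =
      (((Real.sqrt n)⁻¹ ^ Fintype.card d.L : ℝ) : ℂ) *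
      ∑ x : d.L → ZMod n with (d.nc x ∧ ∑ l, x l ≠ 0 ∧ cls (∑ l, x l) ∈ d.Dset x),
        chi ((d.Dset x).erase (cls (∑ l, x l))) S *
        (ZMod.stdAddChar ((∑ l, x l) * ξ) : ℂ) := by
    intro n _ S ξ
    rw [opE_F_eq, node_F, ← mul_sub]
    congr 1
    rw [Finset.sum_filter, Finset.sum_filter, Finset.sum_filter, ← Finset.sum_sub_distrib]
    refine Finset.sum_congr rfl fun x _ => ?_
    by_cases h1 : d.nc x
    · by_cases h2 : ∑ l, x l ≠ 0
      · by_cases h3 : cls (∑ l, x l) ∈ d.Dset x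
        · have h4 : (sg S (cls (∑ l, x l)) : ℂ) * chi (d.Dset x) S =
              chi ((d.Dset x).erase (cls (∑ l, x l))) S := by
            unfold chi
            rw [← Finset.mul_prod_erase _ _ h3, ← mul_assoc, sg_mul_self, one_mul]
          simp [h1, h2, h3, h4]
        · simp [h1, h2, h3]
      · simp [h2]
    · simp [h1]
  set L := Fintype.card d.L with hL
  set V := Fintype.card d.V with hV
  refine ⟨((2 * V) * (2 * V) ^ L : ℕ), V, fun N => ?_⟩
  set n := N + 1 with hn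
  have hnpos : (0 : ℝ) < n := Nat.cast_pos.2 (Nat.succ_pos N)
  set s : Finset (d.L → ZMod n) := univ.filter fun x =>
    (d.nc x ∧ ∑ l, x l ≠ 0 ∧ cls (∑ l, x l) ∈ d.Dset x) with hs
  have hsub : ∀ x ∈ s, (d.Dset x).erase (cls (∑ l, x l)) ⊆ cl n := fun x hx =>
    (Finset.erase_subset _ _).trans (Dset_subset d (Finset.mem_filter.1 hx).2.1)
  constructor
  · intro ξ
    have h : LowDeg (cl n) V (fun S => (((Real.sqrt n)⁻¹ ^ L : ℝ) : ℂ) *
        ∑ x ∈ s, (ZMod.stdAddChar ((∑ l, x l) * ξ) : ℂ) *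
          chi ((d.Dset x).erase (cls (∑ l, x l))) S) := by
      refine LowDeg.const_mul (LowDeg.sum _ fun x hx => LowDeg.const_mul
        (LowDeg.chi (hsub x hx) ?_) _) _
      exact (Finset.card_le_card (Finset.erase_subset _ _)).trans (card_Dset d x)
    refine h.congr fun S _ => ?_
    refine (ediff n S ξ).trans ?_
    congr 1
    exact Finset.sum_congr rfl fun x _ => mul_comm _ _
  · set κ : ℂ := (((Real.sqrt n)⁻¹ ^ L : ℝ) : ℂ) with hκ
    have hk := kappa_sq n L
    rw [← hκ] at hk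
    have e1 : ∀ ξ : ZMod n, Ex (cl n) (fun S =>
        ‖opE S (fun ζ => d.F n S ζ) ξ - (node d).F n S ξ‖ ^ 2) = ‖κ‖ ^ 2 * Ex (cl n) (fun S =>
        ‖∑ x ∈ s, chi ((d.Dset x).erase (cls (∑ l, x l))) S *
          (ZMod.stdAddChar ((∑ l, x l) * ξ) : ℂ)‖ ^ 2) := by
      intro ξ
      rw [← Ex_const_mul]
      refine Ex_congr _ fun S _ => ?_
      rw [ediff n S ξ, norm_mul, mul_pow]
    change ∑ ξ : ZMod n, Ex (cl n) (fun S =>
        ‖opE S (fun ζ => d.F n S ζ) ξ - (node d).F n S ξ‖ ^ 2) ≤ _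
    rw [Finset.sum_congr rfl fun ξ _ => e1 ξ, ← Finset.mul_sum]
    have hm := moment_sum_le (cl n) s (fun x => (d.Dset x).erase (cls (∑ l, x l))) hsub
      (fun x => ∑ l, x l)
    have hp := d.card_pairs s (fun x y => (d.Dset x).erase (cls (∑ l, x l)) =
      (d.Dset y).erase (cls (∑ l, y l)) ∧ ∑ l, x l = ∑ l, y l) (by
        intro x hx y hy hxy l
        refine Leafy.partner hd ?_ l
        have h1 := Finset.insert_erase (Finset.mem_filter.1 hx).2.2.2
        have h2 := Finset.insert_erase (Finset.mem_filter.1 hy).2.2.2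
        rw [← h1, ← h2, hxy.1, hxy.2])
    -- size of s
    have hcard : #s * n ≤ (2 * V) * n ^ L := by
      have hcov : s ⊆ (univ : Finset d.V).biUnion fun b =>
          ({x : d.L → ZMod n | ∑ l, (1 - (d.a b l : ZMod n)) * x l = 0} : Finset (d.L → ZMod n)) ∪
          ({x : d.L → ZMod n | ∑ l, (1 + (d.a b l : ZMod n)) * x l = 0} : Finset (d.L → ZMod n)) := by
        intro x hx
        obtain ⟨b, _, hb⟩ := Finset.mem_image.1 (Finset.mem_filter.1 hx).2.2.2
        refine Finset.mem_biUnion.2 ⟨b, Finset.mem_univ _, Finset.mem_union.2 ?_⟩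
        rcases cls_eq hb with h | h
        · left
          refine Finset.mem_filter.2 ⟨Finset.mem_univ _, ?_⟩
          simp only [sub_mul, one_mul, Finset.sum_sub_distrib]
          rw [← h]
          unfold lab
          exact sub_self _
        · right
          refine Finset.mem_filter.2 ⟨Finset.mem_univ _, ?_⟩
          simp only [add_mul, one_mul, Finset.sum_add_distrib]
          have h' : d.lab x b = ∑ l, (d.a b l : ZMod n) * x l := rfl
          rw [← h', h]
          ring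
      calc #s * n ≤ (∑ b : d.V,
            (#({x : d.L → ZMod n | ∑ l, (1 - (d.a b l : ZMod n)) * x l = 0}) +
            #({x : d.L → ZMod n | ∑ l, (1 + (d.a b l : ZMod n)) * x l = 0}))) * n := by
            refine Nat.mul_le_mul_right n ((Finset.card_le_card hcov).trans
              (Finset.card_biUnion_le.trans (Finset.sum_le_sum fun b _ => Finset.card_union_le _ _)))
        _ = ∑ b : d.V,
            (#({x : d.L → ZMod n | ∑ l, (1 - (d.a b l : ZMod n)) * x l = 0}) * n +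
            #({x : d.L → ZMod n | ∑ l, (1 + (d.a b l : ZMod n)) * x l = 0}) * n) := by
            rw [Finset.sum_mul]
            exact Finset.sum_congr rfl fun b _ => by ring
        _ ≤ ∑ _b : d.V, (n ^ L + n ^ L) := by
            refine Finset.sum_le_sum fun b _ => ?_
            obtain ⟨l0, hl0⟩ := hz b
            exact add_le_add (card_hyper _ l0 (by simp [hl0])) (card_hyper _ l0 (by simp [hl0]))
        _ = (2 * V) * n ^ L := by
            rw [Finset.sum_const, Finset.card_univ, smul_eq_mul]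
            ring
    have hfin : (n : ℝ) * (#{p ∈ s ×ˢ s | (d.Dset p.1).erase (cls (∑ l, p.1 l)) =
        (d.Dset p.2).erase (cls (∑ l, p.2 l)) ∧ ∑ l, p.1 l = ∑ l, p.2 l} : ℕ) ≤
        ((2 * V) * (2 * V) ^ L : ℕ) * (n : ℝ) ^ L := by
      have : n * #{p ∈ s ×ˢ s | (d.Dset p.1).erase (cls (∑ l, p.1 l)) =
          (d.Dset p.2).erase (cls (∑ l, p.2 l)) ∧ ∑ l, p.1 l = ∑ l, p.2 l} ≤
          ((2 * V) * (2 * V) ^ L) * n ^ L := by
        calc _ ≤ n * (#s * (2 * V) ^ L) := Nat.mul_le_mul_left n hp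
          _ = (#s * n) * (2 * V) ^ L := by ring
          _ ≤ ((2 * V) * n ^ L) * (2 * V) ^ L := Nat.mul_le_mul_right _ hcard
          _ = _ := by ring
      exact_mod_cast this
    calc _ ≤ ‖κ‖ ^ 2 * (((2 * V) * (2 * V) ^ L : ℕ) * (n : ℝ) ^ L) :=
          mul_le_mul_of_nonneg_left (hm.trans hfin) (by positivity)
      _ = (‖κ‖ ^ 2 * (n : ℝ) ^ L) * (((2 * V) * (2 * V) ^ L : ℕ) : ℝ) := by ring
      _ = _ := by rw [hk, one_mul]

theorem opE_sig {k : ℕ} (c : Fin (k + 2) → Conf) (hc : ∀ i, (c i).IsTree) :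
    IsErr (fun N S ξ => opE S (fun ζ => (Conf.sig c).F (N + 1) S ζ) ξ -
      (Conf.node (Conf.sig c)).F (N + 1) S ξ) := by
  refine opE_F _ (sig_leafy c fun i => (hc i).leafy) ?_
  rintro ⟨i, v⟩
  obtain ⟨j, hj⟩ := exists_ne i
  obtain ⟨l⟩ := (hc j).nonempty_L
  exact ⟨⟨j, l⟩, sig_a_ne c hj v l⟩

/-! ### trees stay trees -/

open Classical in
theorem conn_core {ι : Type} [Fintype ι] [DecidableEq ι] {V L : ι → Type} [∀ i, Fintype (V i)]
    [∀ i, DecidableEq (V i)] [∀ i, Fintype (L i)] [∀ i, DecidableEq (L i)]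
    (a : ∀ i, V i → L i → ℤ) (M : Option (Σ i, V i) → (Σ i, L i) → ℤ)
    (M0 : ∀ l, M none l = 1) (M1 : ∀ i v l, M (some ⟨i, v⟩) ⟨i, l⟩ = a i v l)
    (M2 : ∀ i j v l, j ≠ i → M (some ⟨i, v⟩) ⟨j, l⟩ = 0) (hL : ∀ i, Nonempty (L i))
    (leaf : ∀ i (l : L i), ∃ v, ∀ l', a i v l' = if l' = l then 1 else 0)
    (conn : ∀ i (B : Finset (V i)), B.Nonempty → B ≠ univ → ∃ ζ : V i → ℤ,
      (∀ l, ∑ v, ζ v * a i v l = 0) ∧ ∃ l, |∑ v ∈ Bᶜ, ζ v * a i v l| = 1)
    (A : Finset (Option (Σ i, V i))) (hA : A.Nonempty) (hA' : A ≠ univ) :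
    ∃ ζ : Option (Σ i, V i) → ℤ, (∀ l, ∑ v, ζ v * M v l = 0) ∧
      ∃ l, |∑ v ∈ Aᶜ, ζ v * M v l| = 1 := by
  have hcompl : ∀ (Z : Option (Σ i, V i) → ℤ) (l : Σ i, L i),
      ∑ u ∈ Aᶜ, Z u * M u l = ∑ u, if u ∉ A then Z u * M u l else 0 := by
    intro Z l
    rw [← Finset.sum_filter]
    refine Finset.sum_congr ?_ fun _ _ => rfl
    ext u
    simp
  by_cases hprop : ∃ i, ∃ v w : V i, (some ⟨i, v⟩ : Option (Σ i, V i)) ∈ A ∧
      (some ⟨i, w⟩ : Option (Σ i, V i)) ∉ A
  · obtain ⟨i, v, w, hv, hw⟩ := hprop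
    obtain ⟨ζ, hζ, l, hl⟩ := conn i
      (univ.filter fun v => (some ⟨i, v⟩ : Option (Σ i, V i)) ∈ A)
      ⟨v, by simp [hv]⟩ (by
        intro h
        have : w ∈ (univ : Finset (V i)) := Finset.mem_univ _
        rw [← h, Finset.mem_filter] at this
        exact hw this.2)
    let Z : Option (Σ i, V i) → ℤ := fun u => match u with
      | none => 0
      | some ⟨j, v⟩ => if h : j = i then ζ (h ▸ v) else 0
    have Z0 : Z none = 0 := rfl
    have Z1 : ∀ v : V i, Z (some ⟨i, v⟩) = ζ v := fun v => by simp [Z]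
    have Z2 : ∀ j, j ≠ i → ∀ v : V j, Z (some ⟨j, v⟩) = 0 := fun j hj v => by simp [Z, hj]
    have hsum : ∀ (P : Option (Σ i, V i) → Prop) [DecidablePred P] (l' : Σ i, L i),
        ∑ u, (if P u then Z u * M u l' else 0) =
          ∑ v : V i, if P (some ⟨i, v⟩) then ζ v * M (some ⟨i, v⟩) l' else 0 := by
      intro P _ l'
      rw [Fintype.sum_option, Z0, zero_mul, ite_self, zero_add, Fintype.sum_sigma,
        Finset.sum_eq_single i]
      · exact Finset.sum_congr rfl fun v _ => by rw [Z1]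
      · intro j _ hj
        exact Finset.sum_eq_zero fun v _ => by rw [Z2 j hj v, zero_mul, ite_self]
      · intro h
        exact absurd (Finset.mem_univ i) h
    refine ⟨Z, ?_, ⟨i, l⟩, ?_⟩
    · rintro ⟨j, l'⟩
      have h := hsum (fun _ => True) ⟨j, l'⟩
      simp only [if_true] at h
      rw [h]
      by_cases hj : j = i
      · subst hj
        rw [← hζ l']
        exact Finset.sum_congr rfl fun v _ => by rw [M1]
      · exact Finset.sum_eq_zero fun v _ => by rw [M2 i j v l' hj, mul_zero]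
    · rw [← hl, hcompl, hsum (fun u => u ∉ A), ← Finset.sum_filter]
      congr 1
      refine Finset.sum_congr ?_ fun v _ => by rw [M1]
      ext v
      simp
  · have hprop' : ∀ i, ∀ v w : V i, (some ⟨i, v⟩ : Option (Σ i, V i)) ∈ A →
        (some ⟨i, w⟩ : Option (Σ i, V i)) ∈ A := by
      intro i v w hv
      by_contra hw
      exact hprop ⟨i, v, w, hv, hw⟩
    choose lv hlv using leaf
    let Z : Option (Σ i, V i) → ℤ := fun u => match u with
      | none => -1
      | some ⟨j, v⟩ => ∑ l : L j, if lv j l = v then 1 else 0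
    have Z0 : Z none = -1 := rfl
    have Z1 : ∀ (j : ι) (v : V j), Z (some ⟨j, v⟩) = ∑ l : L j, if lv j l = v then 1 else 0 :=
      fun j v => rfl
    have hval : ∀ (P : Option (Σ i, V i) → Prop) [DecidablePred P] (j : ι) (l' : L j),
        ∑ u, (if P u then Z u * M u ⟨j, l'⟩ else 0) =
          (if P none then -1 else 0) + (if P (some ⟨j, lv j l'⟩) then 1 else 0) := by
      intro P _ j l'
      rw [Fintype.sum_option, Z0, M0, mul_one, Fintype.sum_sigma, Finset.sum_eq_single j]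
      · congr 1
        have e1 : ∀ v : V j, (if P (some ⟨j, v⟩) then Z (some ⟨j, v⟩) * M (some ⟨j, v⟩) ⟨j, l'⟩
            else 0) = ∑ l : L j, if lv j l = v then
              (if P (some ⟨j, v⟩) then a j v l' else 0) else 0 := by
          intro v
          by_cases hP : P (some ⟨j, v⟩)
          · rw [if_pos hP, Z1, Finset.sum_mul, M1]
            refine Finset.sum_congr rfl fun l _ => ?_
            by_cases h : lv j l = v
            · rw [if_pos h, if_pos h, if_pos hP, one_mul]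
            · rw [if_neg h, if_neg h, zero_mul]
          · rw [if_neg hP]
            symm
            exact Finset.sum_eq_zero fun l _ => by rw [if_neg hP, ite_self]
        rw [Finset.sum_congr rfl fun v _ => e1 v, Finset.sum_comm]
        have e2 : ∀ l : L j, ∑ v : V j, (if lv j l = v then
              (if P (some ⟨j, v⟩) then a j v l' else 0) else 0) =
              if P (some ⟨j, lv j l⟩) then a j (lv j l) l' else 0 := by
          intro l
          rw [Finset.sum_ite_eq, if_pos (Finset.mem_univ _)]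
        rw [Finset.sum_congr rfl fun l _ => e2 l, Finset.sum_eq_single l']
        · rw [hlv j l' l', if_pos rfl]
        · intro l _ hl
          have hl' : ¬ l' = l := fun h => hl h.symm
          rw [hlv j l l', if_neg hl', ite_self]
        · intro h
          exact absurd (Finset.mem_univ l') h
      · intro i _ hi
        exact Finset.sum_eq_zero fun v _ => by rw [M2 i j v l' (fun h => hi h.symm), mul_zero, ite_self]
      · intro h
        exact absurd (Finset.mem_univ j) h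
    refine ⟨Z, ?_, ?_⟩
    · rintro ⟨j, l'⟩
      have h := hval (fun _ => True) j l'
      simp only [if_true] at h
      rw [h]
      norm_num
    · by_cases hnone : (none : Option (Σ i, V i)) ∈ A
      · have : ∃ u : Option (Σ i, V i), u ∉ A := by
          by_contra hcon
          exact hA' (Finset.eq_univ_iff_forall.2 fun u => by
            by_contra hu
            exact hcon ⟨u, hu⟩)
        obtain ⟨u, hu⟩ := this
        rcases u with _ | ⟨i, w⟩
        · exact absurd hnone hu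
        · obtain ⟨l⟩ := hL i
          refine ⟨⟨i, l⟩, ?_⟩
          have hnot : (some ⟨i, lv i l⟩ : Option (Σ i, V i)) ∉ A := fun hmem =>
            hu (hprop' i _ w hmem)
          rw [hcompl, hval (fun u => u ∉ A), if_neg (not_not.2 hnone), if_pos hnot]
          norm_num
      · obtain ⟨u, hu⟩ := hA
        rcases u with _ | ⟨i, w⟩
        · exact absurd hu hnone
        · obtain ⟨l⟩ := hL i
          refine ⟨⟨i, l⟩, ?_⟩
          have hyes : (some ⟨i, lv i l⟩ : Option (Σ i, V i)) ∈ A := hprop' i w _ hu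
          rw [hcompl, hval (fun u => u ∉ A), if_pos hnone, if_neg (not_not.2 hyes)]
          norm_num

theorem isTree_node {k : ℕ} (c : Fin (k + 1) → Conf) (hc : ∀ i, (c i).IsTree) :
    (Conf.node (Conf.sig c)).IsTree := by
  have hleaf : (sig c).Leafy := sig_leafy c fun i => (hc i).leafy
  refine ⟨?_, ?_, ⟨none⟩, ?_⟩
  · intro l
    obtain ⟨v, hv⟩ := hleaf l
    exact ⟨some v, hv⟩
  · intro v
    rcases v with _ | ⟨i, v⟩
    · obtain ⟨l⟩ := (hc 0).nonempty_L
      exact ⟨⟨0, l⟩, rfl⟩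
    · obtain ⟨l, hl⟩ := (hc i).unit v
      exact ⟨⟨i, l⟩, (sig_a c i v l).trans hl⟩
  · intro A hA hA'
    exact conn_core (fun i => (c i).a) (fun v l => (node (sig c)).a v l) (fun l => rfl)
      (fun i v l => sig_a c i v l) (fun i j v l h => sig_a_ne c h v l)
      (fun i => (hc i).nonempty_L) (fun i l => (hc i).leaf l)
      (fun i B hB hB' => by
        obtain ⟨ζ, h1, l, h2⟩ := (hc i).conn B hB hB'
        refine ⟨ζ, h1, l, ?_⟩
        rw [← h2]) A hA hA'

end Conf

end Pool.Agent.Th2c
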