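import Pool.Agent.Work.MP_2c2d16_pr.Defs

/-!
Squares of polynomials approximate 2 max(x,0) in L2 of the standard Gaussian.
The derivatives of polynomials are dense in L2 of a Gaussian of large variance (moments determine
the Fourier transform); integrate a good approximation of the derivative of a smooth square root.
-/

set_option autoImplicit false

namespace Pool.Agent.Th2c

open Finset Polynomial
open scoped Finset

namespace PolyApprox

open MeasureTheory ProbabilityTheory

section dens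

set_option linter.unusedSectionVars false

variable {ν : Measure ℝ} [IsFiniteMeasure ν]

lemma int_exp_abs (hν : ∀ t : ℝ, Integrable (fun x => Real.exp (t * x)) ν) (t : ℝ) :
    Integrable (fun x => Real.exp (|t * x|)) ν := by
  have h1 : Integrable (fun x => Real.exp (t * x) + Real.exp ((-t) * x)) ν := (hν t).add (hν (-t))
  refine h1.mono' (by fun_prop) (Filter.Eventually.of_forall fun x => ?_)
  rw [Real.norm_eq_abs, abs_of_pos (Real.exp_pos _)]
  rcases abs_cases (t * x) with h | h
  · rw [h.1]; linarith [Real.exp_pos ((-t) * x)]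
  · rw [h.1, neg_mul]; linarith [Real.exp_pos (t * x)]

lemma memLp_exp_abs (hν : ∀ t : ℝ, Integrable (fun x => Real.exp (t * x)) ν) (t : ℝ) :
    MemLp (fun x => Real.exp (|t * x|)) 2 ν := by
  rw [memLp_two_iff_integrable_sq (by fun_prop)]
  refine (int_exp_abs hν (2 * t)).congr (Filter.Eventually.of_forall fun x => ?_)
  simp only
  rw [← Real.exp_nat_mul, mul_assoc, abs_mul 2 (t * x)]
  norm_num

lemma memLp_of_le_exp (hν : ∀ t : ℝ, Integrable (fun x => Real.exp (t * x)) ν) (f : ℝ → ℝ)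
    (hf : Continuous f) (c : ℝ) (h : ∀ x, |f x| ≤ c * Real.exp |x|) : MemLp f 2 ν := by
  have h1 : MemLp (fun x => c * Real.exp (|1 * x|)) 2 ν := (memLp_exp_abs hν 1).const_mul c
  refine h1.mono' hf.aestronglyMeasurable (Filter.Eventually.of_forall fun x => ?_)
  simpa using h x

lemma memLp_poly (hν : ∀ t : ℝ, Integrable (fun x => Real.exp (t * x)) ν) (P : ℝ[X]) :
    MemLp (fun x => P.eval x) 2 ν := by
  induction P using Polynomial.induction_on' with
  | add p q hp hq =>
    simp only [eval_add]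
    exact hp.add hq
  | monomial n a =>
    refine memLp_of_le_exp hν _ (by fun_prop) (|a| * n.factorial) fun x => ?_
    rw [eval_monomial, abs_mul, abs_pow, mul_assoc]
    refine mul_le_mul_of_nonneg_left ?_ (abs_nonneg a)
    have := Real.pow_div_factorial_le_exp |x| (abs_nonneg x) n
    rw [div_le_iff₀ (by positivity)] at this
    linarith

lemma char_zero (hν : ∀ t : ℝ, Integrable (fun x => Real.exp (t * x)) ν) (f : ℝ → ℝ)
    (hf : MemLp f 2 ν) (h : ∀ n : ℕ, ∫ x, x ^ n * f x ∂ν = 0) (t : ℝ) :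
    ∫ x, Complex.exp (t * x * Complex.I) * (f x : ℂ) ∂ν = 0 := by
  have hint : Integrable (fun x => Real.exp |t * x| * |f x|) ν := by
    have := (memLp_exp_abs hν t).integrable_mul hf.abs
    exact this
  have key := hasSum_integral_of_dominated_convergence (μ := ν)
    (F := fun (n : ℕ) (x : ℝ) => (t * x * Complex.I) ^ n / n.factorial * (f x : ℂ))
    (f := fun x => Complex.exp (t * x * Complex.I) * (f x : ℂ))
    (fun n x => |t * x| ^ n / n.factorial * |f x|) ?_ ?_ ?_ ?_ ?_
  · have hz : ∀ n : ℕ, ∫ x, (t * x * Complex.I) ^ n / n.factorial * (f x : ℂ) ∂ν = 0 := by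
      intro n
      have h1 : ∀ x : ℝ, (t * x * Complex.I) ^ n / n.factorial * (f x : ℂ) =
          ((t * Complex.I) ^ n / n.factorial) * ((x ^ n * f x : ℝ) : ℂ) := by
        intro x
        push_cast
        rw [mul_right_comm (t : ℂ) (x : ℂ), mul_pow]
        ring
      simp only [h1]
      rw [integral_const_mul, integral_complex_ofReal, h n]
      simp
    simp only [hz] at key
    exact key.unique hasSum_zero
  · intro n
    have h1 : AEStronglyMeasurable (fun x : ℝ => (t * x * Complex.I) ^ n / (n.factorial : ℂ)) ν := by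
      refine Continuous.aestronglyMeasurable ?_
      fun_prop
    exact h1.mul (Complex.continuous_ofReal.comp_aestronglyMeasurable hf.1)
  · intro n
    refine Filter.Eventually.of_forall fun x => ?_
    simp only [norm_mul, norm_div, norm_pow, Complex.norm_I, mul_one, Complex.norm_real,
      Complex.norm_natCast, Real.norm_eq_abs, abs_mul]
    exact le_rfl
  · refine Filter.Eventually.of_forall fun x => ?_
    exact (Real.summable_pow_div_factorial |t * x|).mul_right _
  · refine hint.congr (Filter.Eventually.of_forall fun x => ?_)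
    simp only
    rw [tsum_mul_right]
    congr 1
    rw [Real.exp_eq_exp_ℝ, NormedSpace.exp_eq_tsum_div]
  · refine Filter.Eventually.of_forall fun x => ?_
    have h1 := NormedSpace.expSeries_div_hasSum_exp (t * x * Complex.I : ℂ)
    rw [← Complex.exp_eq_exp_ℂ] at h1
    exact h1.mul_right _

lemma ae_zero (hν : ∀ t : ℝ, Integrable (fun x => Real.exp (t * x)) ν) (f : ℝ → ℝ)
    (hf : MemLp f 2 ν) (h : ∀ n : ℕ, ∫ x, x ^ n * f x ∂ν = 0) : f =ᵐ[ν] 0 := by
  have hfi : Integrable f ν := hf.integrable (by norm_num)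
  set μ₁ := ν.withDensity (fun x => ENNReal.ofReal (f x)) with hμ₁
  set μ₂ := ν.withDensity (fun x => ENNReal.ofReal (-f x)) with hμ₂
  have : IsFiniteMeasure μ₁ := isFiniteMeasure_withDensity_ofReal hfi.2
  have : IsFiniteMeasure μ₂ := isFiniteMeasure_withDensity_ofReal hfi.neg.2
  have hm1 : AEMeasurable (fun x => ENNReal.ofReal (f x)) ν := hf.1.aemeasurable.ennreal_ofReal
  have hm2 : AEMeasurable (fun x => ENNReal.ofReal (-f x)) ν :=
    hf.1.aemeasurable.neg.ennreal_ofReal
  have hcb : ∀ t : ℝ, Continuous fun x : ℝ => Complex.exp (t * x * Complex.I) := by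
    intro t
    fun_prop
  have hn1 : ∀ t x : ℝ, ‖Complex.exp (t * x * Complex.I)‖ = 1 := by
    intro t x
    rw [← Complex.ofReal_mul]
    exact Complex.norm_exp_ofReal_mul_I _
  have heq : μ₁ = μ₂ := by
    refine Measure.ext_of_charFun ?_
    ext t
    rw [charFun_apply_real, charFun_apply_real, hμ₁, hμ₂,
      integral_withDensity_eq_integral_toReal_smul₀ hm1 (by simp),
      integral_withDensity_eq_integral_toReal_smul₀ hm2 (by simp)]
    have hI1 : Integrable (fun x => (ENNReal.ofReal (f x)).toReal • Complex.exp (t * x * Complex.I)) ν := by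
      refine (hfi.abs).mono' ?_ (Filter.Eventually.of_forall fun x => ?_)
      · exact (hm1.ennreal_toReal.aestronglyMeasurable).smul (hcb t).aestronglyMeasurable
      · rw [norm_smul, hn1, mul_one, Real.norm_eq_abs, ENNReal.toReal_ofReal', abs_of_nonneg (le_max_right _ _)]
        exact max_le (le_abs_self _) (abs_nonneg _)
    have hI2 : Integrable (fun x => (ENNReal.ofReal (-f x)).toReal • Complex.exp (t * x * Complex.I)) ν := by
      refine (hfi.abs).mono' ?_ (Filter.Eventually.of_forall fun x => ?_)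
      · exact (hm2.ennreal_toReal.aestronglyMeasurable).smul (hcb t).aestronglyMeasurable
      · rw [norm_smul, hn1, mul_one, Real.norm_eq_abs, ENNReal.toReal_ofReal', abs_of_nonneg (le_max_right _ _)]
        exact max_le (neg_le_abs _) (abs_nonneg _)
    rw [← sub_eq_zero, ← integral_sub hI1 hI2, ← char_zero hν f hf h t]
    refine integral_congr_ae (Filter.Eventually.of_forall fun x => ?_)
    simp only [ENNReal.toReal_ofReal']
    have hfx : max (f x) 0 - max (-f x) 0 = f x := by
      rcases le_total 0 (f x) with h0 | h0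
      · rw [max_eq_left h0, max_eq_right (by linarith), sub_zero]
      · rw [max_eq_right h0, max_eq_left (by linarith)]; ring
    rw [← sub_smul, Complex.real_smul, hfx, mul_comm]
  have hae := (withDensity_eq_iff hm1 hm2 (by
    have := hfi.lintegral_lt_top
    exact this.ne)).1 heq
  filter_upwards [hae] with x hx
  have h1 := congrArg ENNReal.toReal hx
  rw [ENNReal.toReal_ofReal', ENNReal.toReal_ofReal'] at h1
  simp only [Pi.zero_apply]
  rcases le_total 0 (f x) with h0 | h0
  · rw [max_eq_left h0, max_eq_right (by linarith)] at h1; exact h1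
  · rw [max_eq_right h0, max_eq_left (by linarith)] at h1; linarith

theorem dense_deriv (hν : ∀ t : ℝ, Integrable (fun x => Real.exp (t * x)) ν) (F : ℝ → ℝ)
    (hF : MemLp F 2 ν) (δ : ℝ) (hδ : 0 < δ) :
    ∃ P : ℝ[X], ∫ x, (P.derivative.eval x - F x) ^ 2 ∂ν < δ := by
  let L : ℝ[X] →ₗ[ℝ] Lp ℝ 2 ν :=
    { toFun := fun P => (memLp_poly hν P.derivative).toLp _
      map_add' := fun P Q => by
        rw [← MemLp.toLp_add]
        congr 1
        ext x
        simp
      map_smul' := fun c P => by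
        rw [RingHom.id_apply, ← MemLp.toLp_const_smul]
        congr 1
        ext x
        simp }
  have horth : (LinearMap.range L)ᗮ = ⊥ := by
    rw [Submodule.eq_bot_iff]
    intro g hg
    have h1 : ∀ n : ℕ, ∫ x, x ^ n * g x ∂ν = 0 := by
      intro n
      have h2 := (Submodule.mem_orthogonal _ _).1 hg (L (X ^ (n + 1))) ⟨_, rfl⟩
      rw [L2.inner_def] at h2
      have h3 : ∀ᵐ x ∂ν, inner ℝ (L (X ^ (n + 1)) x) (g x) = (n + 1 : ℝ) * (x ^ n * g x) := by
        have h4 := MemLp.coeFn_toLp (memLp_poly hν (derivative (X ^ (n + 1))))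
        filter_upwards [h4] with x hx
        have h5 : (L (X ^ (n + 1))) x = eval x (derivative (X ^ (n + 1))) := hx
        rw [h5]
        simp
        ring
      rw [integral_congr_ae h3, integral_const_mul] at h2
      have h6 : (n + 1 : ℝ) ≠ 0 := by positivity
      exact (mul_eq_zero.1 h2).resolve_left h6
    have h7 := ae_zero hν g (Lp.memLp g) h1
    exact (Lp.eq_zero_iff_ae_eq_zero).2 h7
  have htop : (LinearMap.range L).topologicalClosure = ⊤ :=
    Submodule.topologicalClosure_eq_top_iff.2 horth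
  have hmem : hF.toLp F ∈ (LinearMap.range L).topologicalClosure := by
    rw [htop]; trivial
  have hcl : hF.toLp F ∈ closure ((LinearMap.range L : Submodule ℝ (Lp ℝ 2 ν)) : Set (Lp ℝ 2 ν)) := hmem
  rw [Metric.mem_closure_iff] at hcl
  obtain ⟨b, ⟨P, rfl⟩, hb⟩ := hcl (Real.sqrt δ) (Real.sqrt_pos.2 hδ)
  refine ⟨P, ?_⟩
  rw [dist_comm, dist_eq_norm] at hb
  have h8 : ‖L P - hF.toLp F‖ ^ 2 < δ := by
    have := Real.sq_sqrt hδ.le
    nlinarith [norm_nonneg (L P - hF.toLp F), Real.sqrt_nonneg δ]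
  rw [← real_inner_self_eq_norm_sq, L2.inner_def] at h8
  refine lt_of_eq_of_lt (integral_congr_ae ?_) h8
  have h9 := MemLp.coeFn_toLp (memLp_poly hν (derivative P))
  have h10 := MemLp.coeFn_toLp hF
  have h11 := Lp.coeFn_sub (L P) (hF.toLp F)
  filter_upwards [h9, h10, h11] with x hx1 hx2 hx3
  rw [hx3, Pi.sub_apply, hx2]
  have h5 : (L P) x = eval x (derivative P) := hx1
  rw [h5]
  simp

end dens

section gauss

lemma gd_pos (t : ℝ) : 0 < gaussianPDFReal 0 16 t := gaussianPDFReal_pos 0 16 t (by norm_num)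

lemma gd_inv (t : ℝ) : (gaussianPDFReal 0 16 t)⁻¹ = Real.sqrt (32 * Real.pi) * Real.exp (t ^ 2 / 32) := by
  rw [gaussianPDFReal, mul_inv, inv_inv, ← Real.exp_neg]
  congr 2
  · push_cast
    ring
  · push_cast
    ring

lemma sqrt_le_eleven : Real.sqrt (32 * Real.pi) ≤ 11 := by
  rw [Real.sqrt_le_left (by norm_num)]
  nlinarith [Real.pi_lt_d2]

lemma abs_le_exp (x : ℝ) : |x| ≤ 3 * Real.exp (x ^ 2 / 32) := by
  have h1 := Real.add_one_le_exp (x ^ 2 / 32)
  have h2 : x ^ 2 = |x| ^ 2 := (sq_abs x).symm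
  nlinarith [sq_nonneg (|x| - 16 / 3)]

lemma pt_bound (P : ℝ[X]) (F H : ℝ → ℝ) (hF : Continuous F) (hH : ∀ x, HasDerivAt H (F x) x)
    (hm : MemLp F 2 (gaussianReal 0 16)) (s : ℝ) (hs : 0 < s)
    (hD : ∫ x, (P.derivative.eval x - F x) ^ 2 ∂(gaussianReal 0 16) ≤ s ^ 2) (x : ℝ) :
    |(P.eval x - P.eval 0) - (H x - H 0)| ≤ s * (17 * Real.exp (x ^ 2 / 16)) := by
  set u : ℝ → ℝ := fun t => P.derivative.eval t - F t with hu
  have huc : Continuous u := P.derivative.continuous.sub hF
  have h1 : ∫ t in (0 : ℝ)..x, u t = (P.eval x - P.eval 0) - (H x - H 0) := by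
    have h2 : ∀ t ∈ Set.uIcc 0 x, HasDerivAt (fun t => P.eval t - H t) (u t) t := fun t _ =>
      (P.hasDerivAt t).sub (hH t)
    rw [intervalIntegral.integral_eq_sub_of_hasDerivAt h2 (huc.intervalIntegrable _ _)]
    ring
  rw [← h1]
  have hexp : ∀ t : ℝ, Integrable (fun x => Real.exp (t * x)) (gaussianReal 0 16) := fun t =>
    integrable_exp_mul_gaussianReal t
  have hum : MemLp u 2 (gaussianReal 0 16) := (memLp_poly hexp P.derivative).sub hm
  have hus : Integrable (fun t => u t ^ 2) (gaussianReal 0 16) := hum.integrable_sq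
  have hv16 : (16 : NNReal) ≠ 0 := by norm_num
  have hint1 : Integrable (fun t => gaussianPDFReal 0 16 t * u t ^ 2) := by
    rw [gaussianReal_of_var_ne_zero 0 hv16, integrable_withDensity_iff_integrable_smul'
      (measurable_gaussianPDF 0 16) (Filter.Eventually.of_forall fun t => gaussianPDF_lt_top)] at hus
    refine hus.congr (Filter.Eventually.of_forall fun t => ?_)
    simp only [toReal_gaussianPDF, smul_eq_mul]
  have hD' : ∫ t, gaussianPDFReal 0 16 t * u t ^ 2 ≤ s ^ 2 := by
    rw [integral_gaussianReal_eq_integral_smul hv16] at hD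
    exact hD
  have hpt : ∀ t, ‖u t‖ ≤ gaussianPDFReal 0 16 t * u t ^ 2 / (2 * s) +
      s / 2 * (gaussianPDFReal 0 16 t)⁻¹ := by
    intro t
    have hr := gd_pos t
    set r := gaussianPDFReal 0 16 t
    rw [Real.norm_eq_abs, ← sq_abs (u t)]
    have h3 : r * |u t| ^ 2 / (2 * s) + s / 2 * r⁻¹ - |u t| = (r * |u t| - s) ^ 2 / (2 * s * r) := by
      field_simp
      ring
    have h4 : 0 ≤ (r * |u t| - s) ^ 2 / (2 * s * r) := by positivity
    linarith
  have hbd : ∀ t ∈ Set.uIoc 0 x, s / 2 * (gaussianPDFReal 0 16 t)⁻¹ ≤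
      s / 2 * (11 * Real.exp (x ^ 2 / 32)) := by
    intro t ht
    rw [gd_inv]
    have h5 : t ^ 2 ≤ x ^ 2 := by
      rw [sq_le_sq]
      rcases Set.mem_uIoc.1 ht with h | h
      · rw [abs_of_pos h.1, abs_of_pos (h.1.trans_le h.2)]; exact h.2
      · rw [abs_of_nonpos h.2, abs_of_neg (h.1.trans_le h.2)]; linarith [h.1]
    have h6 : Real.exp (t ^ 2 / 32) ≤ Real.exp (x ^ 2 / 32) := Real.exp_le_exp.2 (by linarith)
    have h7 := sqrt_le_eleven
    have h8 : Real.sqrt (32 * Real.pi) * Real.exp (t ^ 2 / 32) ≤ 11 * Real.exp (x ^ 2 / 32) := by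
      gcongr
    exact mul_le_mul_of_nonneg_left h8 (by positivity)
  have hst1 : |∫ t in (0 : ℝ)..x, u t| ≤ ∫ t in Set.uIoc 0 x, ‖u t‖ := by
    have := intervalIntegral.norm_integral_le_integral_norm_uIoc (f := u) (a := 0) (b := x)
      (μ := volume)
    simpa using this
  have hvol : volume.real (Set.uIoc 0 x) = |x| := by
    rw [Set.uIoc, Real.volume_real_Ioc_of_le (min_le_max)]
    have := max_sub_min_eq_abs (0 : ℝ) x
    rw [this, sub_zero]
  have hfin : volume (Set.uIoc 0 x) ≠ ⊤ := by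
    rw [Set.uIoc, Real.volume_Ioc]; exact ENNReal.ofReal_ne_top
  have hi1 : IntegrableOn (fun t => gaussianPDFReal 0 16 t * u t ^ 2 / (2 * s)) (Set.uIoc 0 x) :=
    (hint1.div_const _).integrableOn
  have hi2 : IntegrableOn (fun _ : ℝ => s / 2 * (11 * Real.exp (x ^ 2 / 32))) (Set.uIoc 0 x) :=
    integrableOn_const hfin
  have hst2 : ∫ t in Set.uIoc 0 x, ‖u t‖ ≤ ∫ t in Set.uIoc 0 x,
      (gaussianPDFReal 0 16 t * u t ^ 2 / (2 * s) + s / 2 * (11 * Real.exp (x ^ 2 / 32))) := by
    refine setIntegral_mono_on ?_ (hi1.add hi2) measurableSet_uIoc fun t ht => ?_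
    · exact (huc.norm.intervalIntegrable 0 x).def'
    · exact (hpt t).trans (by linarith [hbd t ht])
  rw [integral_add hi1 hi2, setIntegral_const, hvol, smul_eq_mul] at hst2
  have hst3 : ∫ t in Set.uIoc 0 x, gaussianPDFReal 0 16 t * u t ^ 2 / (2 * s) ≤ s / 2 := by
    refine (setIntegral_le_integral (hint1.div_const _) (Filter.Eventually.of_forall fun t => ?_)).trans ?_
    · have := gd_pos t
      simp only [Pi.zero_apply]
      positivity
    · rw [integral_div]
      rw [div_le_iff₀ (by positivity)]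
      nlinarith
  have h9 := abs_le_exp x
  have h10 : Real.exp (x ^ 2 / 32) * Real.exp (x ^ 2 / 32) = Real.exp (x ^ 2 / 16) := by
    rw [← Real.exp_add]; congr 1; ring
  have h11 : 1 ≤ Real.exp (x ^ 2 / 16) := Real.one_le_exp (by positivity)
  have h12 : |x| * (s / 2 * (11 * Real.exp (x ^ 2 / 32))) ≤ s * (33 / 2 * Real.exp (x ^ 2 / 16)) := by
    rw [← h10]
    have h13 : 0 ≤ s / 2 * (11 * Real.exp (x ^ 2 / 32)) := by positivity
    calc |x| * (s / 2 * (11 * Real.exp (x ^ 2 / 32)))
        ≤ (3 * Real.exp (x ^ 2 / 32)) * (s / 2 * (11 * Real.exp (x ^ 2 / 32))) :=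
          mul_le_mul_of_nonneg_right h9 h13
      _ = s * (33 / 2 * (Real.exp (x ^ 2 / 32) * Real.exp (x ^ 2 / 32))) := by ring
  calc |∫ t in (0 : ℝ)..x, u t| ≤ s / 2 + s * (33 / 2 * Real.exp (x ^ 2 / 16)) := by linarith
    _ ≤ s * (17 * Real.exp (x ^ 2 / 16)) := by nlinarith

lemma integrable_exp_quarter : Integrable (fun x : ℝ => Real.exp (x ^ 2 / 4)) (gaussianReal 0 1) := by
  have hv : (1 : NNReal) ≠ 0 := one_ne_zero
  rw [gaussianReal_of_var_ne_zero 0 hv, integrable_withDensity_iff_integrable_smul'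
      (measurable_gaussianPDF 0 1) (Filter.Eventually.of_forall fun t => gaussianPDF_lt_top)]
  have h1 : Integrable (fun x : ℝ => (Real.sqrt (2 * Real.pi))⁻¹ * Real.exp (-(1 / 4) * x ^ 2)) :=
    (integrable_exp_neg_mul_sq (by norm_num)).const_mul _
  refine h1.congr (Filter.Eventually.of_forall fun x => ?_)
  simp only [toReal_gaussianPDF, smul_eq_mul, gaussianPDFReal]
  rw [mul_assoc, ← Real.exp_add]
  congr 2
  · simp
  · push_cast
    ring

end gauss

section smooth

noncomputable def R (η x : ℝ) : ℝ := Real.sqrt (x ^ 2 + η)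

noncomputable def H (η x : ℝ) : ℝ := Real.sqrt (x + R η x)

variable {η : ℝ}

lemma R_sq (hη : 0 < η) (x : ℝ) : R η x ^ 2 = x ^ 2 + η := Real.sq_sqrt (by positivity)

lemma abs_lt_R (hη : 0 < η) (x : ℝ) : |x| < R η x := by
  rw [← Real.sqrt_sq_eq_abs]
  exact Real.sqrt_lt_sqrt (by positivity) (by linarith)

lemma R_le (hη : 0 < η) (x : ℝ) : R η x ≤ |x| + Real.sqrt η := by
  rw [R, Real.sqrt_le_left (by positivity)]
  have h1 := Real.sq_sqrt hη.le
  have h2 := sq_abs x
  nlinarith [mul_nonneg (abs_nonneg x) (Real.sqrt_nonneg η)]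

lemma R_pos (hη : 0 < η) (x : ℝ) : 0 < R η x := (abs_nonneg x).trans_lt (abs_lt_R hη x)

lemma arg_pos (hη : 0 < η) (x : ℝ) : 0 < x + R η x := by
  have := abs_lt_R hη x
  have := neg_abs_le x
  linarith

lemma H_pos (hη : 0 < η) (x : ℝ) : 0 < H η x := Real.sqrt_pos.2 (arg_pos hη x)

lemma H_sq (hη : 0 < η) (x : ℝ) : H η x ^ 2 = x + R η x := Real.sq_sqrt (arg_pos hη x).le

lemma H_deriv (hη : 0 < η) (x : ℝ) : HasDerivAt (H η) (H η x / (2 * R η x)) x := by
  have h1 : HasDerivAt (fun y : ℝ => y ^ 2 + η) (2 * x) x := by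
    simpa using (hasDerivAt_pow 2 x).add_const η
  have h2 : HasDerivAt (R η) (2 * x / (2 * Real.sqrt (x ^ 2 + η))) x :=
    h1.sqrt (by positivity)
  have h3 : HasDerivAt (fun y => y + R η y) (1 + 2 * x / (2 * Real.sqrt (x ^ 2 + η))) x :=
    (hasDerivAt_id x).add h2
  have h4 := h3.sqrt (arg_pos hη x).ne'
  have h5 : (1 + 2 * x / (2 * Real.sqrt (x ^ 2 + η))) / (2 * Real.sqrt (x + R η x)) =
      H η x / (2 * R η x) := by
    have hR := R_pos hη x
    have hH := H_pos hη x
    have hs := H_sq hη x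
    change (1 + 2 * x / (2 * R η x)) / (2 * H η x) = H η x / (2 * R η x)
    field_simp
    rw [hs]
    ring
  rw [← h5]
  exact h4

lemma H_cont (hη : 0 < η) : Continuous (H η) :=
  continuous_iff_continuousAt.2 fun x => (H_deriv hη x).continuousAt

lemma F_cont (hη : 0 < η) : Continuous fun x => H η x / (2 * R η x) := by
  refine (H_cont hη).div ?_ fun x => ?_
  · unfold R; fun_prop
  · have := R_pos hη x
    positivity

lemma H_le (hη : 0 < η) (hη1 : η ≤ 1) (x : ℝ) : H η x ≤ 2 + 2 * |x| := by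
  have h1 := H_sq hη x
  have h2 := R_le hη x
  have h3 : Real.sqrt η ≤ 1 := Real.sqrt_le_iff.2 ⟨by norm_num, by linarith⟩
  have h4 := le_abs_self x
  nlinarith [H_pos hη x, sq_nonneg (H η x - 1), abs_nonneg x]

lemma H_sq_close (hη : 0 < η) (x : ℝ) : |H η x ^ 2 - 2 * max x 0| ≤ Real.sqrt η := by
  rw [H_sq hη]
  have h1 := (abs_lt_R hη x).le
  have h2 := R_le hη x
  have h3 : 2 * max x 0 = x + |x| := by
    rcases le_total 0 x with h | h
    · rw [max_eq_left h, abs_of_nonneg h]; ring
    · rw [max_eq_right h, abs_of_nonpos h]; ring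
  rw [h3, abs_le]
  constructor
  · have := Real.sqrt_nonneg η
    linarith
  · linarith

end smooth

end PolyApprox

open PolyApprox MeasureTheory ProbabilityTheory in
theorem poly_approx (ε : ℝ) (hε : 0 < ε) : ∃ k : ℝ[X],
    ∫ x, (k.eval x ^ 2 - 2 * max x 0) ^ 2 ∂(ProbabilityTheory.gaussianReal 0 1) < ε := by
  set η : ℝ := min 1 (ε / 8) with hηd
  have hη : 0 < η := lt_min one_pos (by linarith)
  have hη1 : η ≤ 1 := min_le_left _ _
  have hηε : η ≤ ε / 8 := min_le_right _ _
  set J : ℝ := ∫ x, Real.exp (x ^ 2 / 4) ∂(gaussianReal 0 1) with hJ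
  have hJ0 : 0 ≤ J := integral_nonneg fun x => (Real.exp_pos _).le
  set s : ℝ := min 1 (ε / (8 * 867 ^ 2 * (J + 1))) with hsd
  have hs : 0 < s := lt_min one_pos (by positivity)
  have hs1 : s ≤ 1 := min_le_left _ _
  have hsε : s ≤ ε / (8 * 867 ^ 2 * (J + 1)) := min_le_right _ _
  have hexp : ∀ t : ℝ, Integrable (fun x => Real.exp (t * x)) (gaussianReal 0 16) := fun t =>
    integrable_exp_mul_gaussianReal t
  have hFm : MemLp (fun x => H η x / (2 * R η x)) 2 (gaussianReal 0 16) := by
    refine memLp_of_le_exp hexp _ (F_cont hη) ((Real.sqrt η)⁻¹) fun x => ?_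
    have h1 := H_le hη hη1 x
    have h2 := R_pos hη x
    have h3 : Real.sqrt η ≤ R η x := Real.sqrt_le_sqrt (by nlinarith [sq_nonneg x])
    have h4 : 0 < Real.sqrt η := Real.sqrt_pos.2 hη
    have h5 := Real.add_one_le_exp |x|
    rw [abs_of_pos (div_pos (H_pos hη x) (by positivity)), inv_mul_eq_div, div_le_div_iff₀
      (by positivity) h4]
    have h6 : H η x ≤ 2 * Real.exp |x| := by linarith
    calc H η x * Real.sqrt η ≤ (2 * Real.exp |x|) * R η x := by
          gcongr
      _ = Real.exp |x| * (2 * R η x) := by ring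
  obtain ⟨P, hP⟩ := dense_deriv hexp _ hFm (s ^ 2) (by positivity)
  have hb := pt_bound P _ _ (F_cont hη) (H_deriv hη) hFm s hs hP.le
  refine ⟨P - C (P.eval 0) + C (H η 0), ?_⟩
  have hpt : ∀ x : ℝ, (eval x (P - C (eval 0 P) + C (H η 0)) ^ 2 - 2 * max x 0) ^ 2 ≤
      2 * 867 ^ 2 * s ^ 2 * Real.exp (x ^ 2 / 4) + 2 * η := by
    intro x
    have h1 := hb x
    set E : ℝ := Real.exp (x ^ 2 / 16) with hE
    set K : ℝ := eval x (P - C (eval 0 P) + C (H η 0)) with hK
    have h2 : K - H η x = (P.eval x - P.eval 0) - (H η x - H η 0) := by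
      rw [hK]; simp; ring
    rw [← h2] at h1
    have hE1 : 1 ≤ E := Real.one_le_exp (by positivity)
    have hH17 : H η x ≤ 17 * E := by
      have h3 := H_le hη hη1 x
      have h4 := abs_le_exp x
      have h5 : Real.exp (x ^ 2 / 32) ≤ E := Real.exp_le_exp.2 (by nlinarith [sq_nonneg x])
      linarith
    have hHp := H_pos hη x
    have h6 : |K ^ 2 - H η x ^ 2| ≤ 867 * s * E ^ 2 := by
      have h7 : K ^ 2 - H η x ^ 2 = (K - H η x) * ((K - H η x) + 2 * H η x) := by ring
      rw [h7, abs_mul]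
      have h8 : |(K - H η x) + 2 * H η x| ≤ 51 * E := by
        refine (abs_add_le _ _).trans ?_
        rw [abs_of_pos (show 0 < 2 * H η x by positivity)]
        nlinarith
      calc |K - H η x| * |(K - H η x) + 2 * H η x| ≤ (s * (17 * E)) * (51 * E) := by
            gcongr
        _ = 867 * s * E ^ 2 := by ring
    have h9 := H_sq_close hη x
    have h10 : |K ^ 2 - 2 * max x 0| ≤ 867 * s * E ^ 2 + Real.sqrt η := by
      have : K ^ 2 - 2 * max x 0 = (K ^ 2 - H η x ^ 2) + (H η x ^ 2 - 2 * max x 0) := by ring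
      rw [this]
      exact (abs_add_le _ _).trans (add_le_add h6 h9)
    have h11 : E ^ 4 = Real.exp (x ^ 2 / 4) := by
      rw [hE, ← Real.exp_nat_mul]
      congr 1
      push_cast
      ring
    rw [← sq_abs, ← h11]
    have h12 := Real.sq_sqrt hη.le
    have h13 := Real.sqrt_nonneg η
    have h14 : 0 ≤ 867 * s * E ^ 2 := by positivity
    calc |K ^ 2 - 2 * max x 0| ^ 2 ≤ (867 * s * E ^ 2 + Real.sqrt η) ^ 2 := by
          gcongr
      _ ≤ 2 * 867 ^ 2 * s ^ 2 * E ^ 4 + 2 * η := by
          nlinarith [sq_nonneg (867 * s * E ^ 2 - Real.sqrt η)]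
  have hint : Integrable (fun x : ℝ => 2 * 867 ^ 2 * s ^ 2 * Real.exp (x ^ 2 / 4) + 2 * η)
      (gaussianReal 0 1) := (integrable_exp_quarter.const_mul _).add (integrable_const _)
  refine lt_of_le_of_lt (integral_mono_of_nonneg (Filter.Eventually.of_forall fun x => sq_nonneg _)
    hint (Filter.Eventually.of_forall hpt)) ?_
  rw [integral_add (integrable_exp_quarter.const_mul _) (integrable_const _), integral_const_mul,
    integral_const, ← hJ]
  simp only [probReal_univ, smul_eq_mul, one_mul]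
  have h1 : s * (8 * 867 ^ 2 * (J + 1)) ≤ ε := by
    rwa [le_div_iff₀ (by positivity)] at hsε
  have h2 : s ^ 2 ≤ s := by nlinarith
  have h3 : 2 * 867 ^ 2 * s ^ 2 * J ≤ ε / 4 := by
    have h4 : s ^ 2 * J ≤ s * (J + 1) := by nlinarith
    nlinarith
  linarith

end Pool.Agent.Th2c
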